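import Mathlib

/-!
# BC: groups with bounded non-abelian simple sections

Everything is formulated inside a fixed group, with subgroups instead of quotients:
`NM K N` says that `N` is a maximal normal subgroup of the subgroup `K` with `K / N` not abelian
(so `K / N` is non-abelian simple), `Cls B G` says that `[K : N] ≤ B` for all these pairs.
`Ser s H` is the series given by the list of letters `s`.
-/

set_option autoImplicit false

open scoped Pointwise commutatorElement

namespace Pool.Agent.Helper94.BC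

section Defs

variable {G : Type} [Group G]

/-- `K` normalises `N`. -/
def Nor (K N : Subgroup G) : Prop := ∀ h ∈ K, ∀ n ∈ N, h * n * h⁻¹ ∈ N

/-- `N` is a maximal normal subgroup of `K` and `K / N` is not abelian. -/
structure NM (K N : Subgroup G) : Prop where
  le : N ≤ K
  nor : Nor K N
  nab : ¬ ⁅K, K⁆ ≤ N
  max : ∀ L : Subgroup G, N ≤ L → L ≤ K → Nor K L → L = N ∨ L = K

/-- Non-abelian simple sections have order at most `B` (used for finite groups only). -/
def Cls (B : ℕ) (G : Type) [Group G] : Prop := ∀ K N : Subgroup G, NM K N → N.relIndex K ≤ B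

/-- The intersection of the maximal normal subgroups of `H` with non-abelian quotient. -/
def PhiT (H : Subgroup G) : Subgroup G := H ⊓ sInf {N : Subgroup G | NM H N}

/-- The subgroup generated by the commutators and the `p`-th powers. -/
def PhiP (p : ℕ) (H : Subgroup G) : Subgroup G :=
  ⁅H, H⁆ ⊔ Subgroup.closure {x : G | ∃ h ∈ H, x = h ^ p}

/-- The step of a letter: `none` is the step `PhiT`, `some p` is the step `PhiP p`. -/
def Phi : Option ℕ → Subgroup G → Subgroup G
  | none, H => PhiT H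
  | some p, H => PhiP p H

/-- The series given by a list of letters. -/
def Ser : List (Option ℕ) → Subgroup G → Subgroup G
  | [], H => H
  | c :: s, H => Ser s (Phi c H)

/-- The ball of radius `r`. -/
def Bl (X : Set G) (r : ℕ) : Set G := (({1} : Set G) ∪ X ∪ X⁻¹) ^ r

/-- `A` is generated by elements of length at most `R`. -/
def Gn (X : Set G) (A : Subgroup G) (R : ℕ) : Prop := A ≤ Subgroup.closure ((A : Set G) ∩ Bl X R)

end Defs

section Lemmas

variable {G : Type} [Group G]

/-! ### Balls -/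

theorem bl_zero (X : Set G) : Bl X 0 = 1 := pow_zero _

theorem one_mem_base (X : Set G) : (1 : G) ∈ (({1} : Set G) ∪ X ∪ X⁻¹) := Or.inl (Or.inl rfl)

theorem one_mem_bl (X : Set G) (r : ℕ) : (1 : G) ∈ Bl X r := by
  have := Set.pow_mem_pow (one_mem_base X) (n := r)
  rwa [one_pow] at this

theorem bl_mono (X : Set G) {r s : ℕ} (h : r ≤ s) : Bl X r ⊆ Bl X s :=
  Set.pow_subset_pow_right (one_mem_base X) h

theorem bl_mono_set {X Y : Set G} (h : X ⊆ Y) (r : ℕ) : Bl X r ⊆ Bl Y r := by
  refine Set.pow_subset_pow_left ?_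
  refine Set.union_subset_union (Set.union_subset_union_right _ h) ?_
  exact Set.inv_subset_inv.2 h

theorem subset_bl_one (X : Set G) : X ⊆ Bl X 1 := by
  intro x hx
  rw [Bl, pow_one]
  exact Or.inl (Or.inr hx)

theorem mul_mem_bl {X : Set G} {r s : ℕ} {x y : G} (hx : x ∈ Bl X r) (hy : y ∈ Bl X s) :
    x * y ∈ Bl X (r + s) := by
  rw [Bl, pow_add]
  exact Set.mul_mem_mul hx hy

theorem inv_mem_bl {X : Set G} {r : ℕ} {x : G} (hx : x ∈ Bl X r) : x⁻¹ ∈ Bl X r := by
  have h : (Bl X r)⁻¹ = Bl X r := by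
    rw [Bl, ← inv_pow]
    congr 1
    rw [Set.union_inv, Set.union_inv, inv_inv, Set.inv_singleton, inv_one]
    ext z
    simp only [Set.mem_union]
    tauto
  rw [← h]
  exact Set.inv_mem_inv.2 hx

theorem conj_mem_bl {X : Set G} {r s : ℕ} {g x : G} (hg : g ∈ Bl X r) (hx : x ∈ Bl X s) :
    g * x * g⁻¹ ∈ Bl X (s + 2 * r) := by
  have := mul_mem_bl (mul_mem_bl hg hx) (inv_mem_bl hg)
  exact bl_mono X (by omega) this

theorem comm_mem_bl {X : Set G} {r s : ℕ} {x y : G} (hx : x ∈ Bl X r) (hy : y ∈ Bl X s) :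
    ⁅x, y⁆ ∈ Bl X (2 * r + 2 * s) := by
  have := mul_mem_bl (mul_mem_bl (mul_mem_bl hx hy) (inv_mem_bl hx)) (inv_mem_bl hy)
  exact bl_mono X (by omega) this

theorem bl_add (X : Set G) (r s : ℕ) : Bl X (r + s) = Bl X r * Bl X s := pow_add _ _ _

/-- A ball of radius `b` for the generators `Bl X a` is a ball of radius `a * b` for `X`. -/
theorem bl_bl (X : Set G) (a b : ℕ) : Bl (Bl X a) b = Bl X (a * b) := by
  have h : (({1} : Set G) ∪ Bl X a ∪ (Bl X a)⁻¹) = Bl X a := by
    refine Set.Subset.antisymm ?_ ?_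
    · rintro x ((h | h) | h)
      · rw [Set.mem_singleton_iff] at h
        rw [h]
        exact one_mem_bl X a
      · exact h
      · have := inv_mem_bl (Set.mem_inv.1 h)
        rwa [inv_inv] at this
    · exact fun x hx => Or.inl (Or.inr hx)
  rw [Bl, h, Bl, ← pow_mul]
  rfl

theorem bl_trans {X Y : Set G} {a b : ℕ} (h : Y ⊆ Bl X a) : Bl Y b ⊆ Bl X (a * b) := by
  rw [← bl_bl]
  exact bl_mono_set h b

theorem image_bl {H : Type} [Group H] (f : G →* H) (X : Set G) (r : ℕ) :
    f '' (Bl X r) = Bl (f '' X) r := by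
  rw [Bl, Bl, Set.image_pow]
  congr 1
  rw [Set.image_union, Set.image_union, Set.image_singleton, map_one, Set.image_inv]

theorem bl_finite {X : Set G} (hX : X.Finite) (r : ℕ) : (Bl X r).Finite := by
  induction r with
  | zero =>
    rw [bl_zero]
    exact Set.finite_one
  | succ r ih =>
    rw [bl_add]
    refine ih.mul ?_
    rw [Bl, pow_one]
    exact ((Set.finite_singleton 1).union hX).union hX.inv

theorem bl_subset_closure (X : Set G) (r : ℕ) : Bl X r ⊆ Subgroup.closure X := by
  induction r with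
  | zero =>
    rw [bl_zero]
    intro x hx
    rw [Set.mem_one] at hx
    rw [hx]
    exact Subgroup.one_mem _
  | succ r ih =>
    rw [bl_add]
    rintro _ ⟨x, hx, y, hy, rfl⟩
    refine Subgroup.mul_mem _ (ih hx) ?_
    rw [Bl, pow_one] at hy
    rcases hy with (hy | hy) | hy
    · rw [Set.mem_singleton_iff] at hy
      rw [hy]
      exact Subgroup.one_mem _
    · exact Subgroup.subset_closure hy
    · have := Subgroup.inv_mem _ (Subgroup.subset_closure (Set.mem_inv.1 hy))
      rwa [inv_inv] at this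

/-! ### Normalising -/

theorem nor_inf {K A B : Subgroup G} (hA : Nor K A) (hB : Nor K B) : Nor K (A ⊓ B) :=
  fun h hh n hn => ⟨hA h hh n hn.1, hB h hh n hn.2⟩

theorem nor_mono {K K' A : Subgroup G} (h : K' ≤ K) (hA : Nor K A) : Nor K' A :=
  fun x hx n hn => hA x (h hx) n hn

theorem nor_of_normal (K : Subgroup G) {A : Subgroup G} (hA : A.Normal) : Nor K A :=
  fun h _ n hn => hA.conj_mem n hn h

theorem nor_self (K : Subgroup G) : Nor K K :=
  fun _ hh _ hn => K.mul_mem (K.mul_mem hh hn) (K.inv_mem hh)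

theorem normal_of_nor {A : Subgroup G} (h : Nor ⊤ A) : A.Normal :=
  ⟨fun n hn g => h g (Subgroup.mem_top g) n hn⟩

/-- Conjugation as an automorphism, on subgroups. -/
theorem conj_map_mem {A : Subgroup G} {g x : G} :
    x ∈ A.map (MulAut.conj g).toMonoidHom ↔ g⁻¹ * x * g ∈ A := by
  constructor
  · rintro ⟨a, ha, rfl⟩
    simpa [mul_assoc] using ha
  · intro h
    exact ⟨g⁻¹ * x * g, h, by simp [mul_assoc]⟩

theorem nor_iff_map {K A : Subgroup G} :
    Nor K A ↔ ∀ g ∈ K, A.map (MulAut.conj g).toMonoidHom = A := by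
  constructor
  · intro h g hg
    ext x
    rw [conj_map_mem]
    constructor
    · intro hx
      have := h g hg _ hx
      simpa [mul_assoc] using this
    · intro hx
      have := h g⁻¹ (K.inv_mem hg) x hx
      simpa using this
  · intro h g hg n hn
    have h1 := h g hg
    rw [← h1]
    exact conj_map_mem.2 (by simpa [mul_assoc] using hn)

/-! ### Transport along an automorphism -/

theorem nor_map (e : G ≃* G) {K A : Subgroup G} (h : Nor K A) :
    Nor (K.map e.toMonoidHom) (A.map e.toMonoidHom) := by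
  rintro _ ⟨x, hx, rfl⟩ _ ⟨n, hn, rfl⟩
  exact ⟨x * n * x⁻¹, h x hx n hn, by simp⟩

theorem map_map_symm (e : G ≃* G) (A : Subgroup G) :
    (A.map e.toMonoidHom).map e.symm.toMonoidHom = A := by
  rw [Subgroup.map_map]
  convert Subgroup.map_id A
  ext x
  simp

theorem map_symm_map (e : G ≃* G) (A : Subgroup G) :
    (A.map e.symm.toMonoidHom).map e.toMonoidHom = A := by
  rw [Subgroup.map_map]
  convert Subgroup.map_id A
  ext x
  simp

theorem nm_map (e : G ≃* G) {K N : Subgroup G} (h : NM K N) :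
    NM (K.map e.toMonoidHom) (N.map e.toMonoidHom) where
  le := Subgroup.map_mono h.le
  nor := nor_map e h.nor
  nab := by
    intro h1
    apply h.nab
    rw [← Subgroup.map_commutator] at h1
    have h2 := Subgroup.map_mono (f := e.symm.toMonoidHom) h1
    rwa [map_map_symm, map_map_symm] at h2
  max := by
    intro L h1 h2 h3
    have h4 := h.max (L.map e.symm.toMonoidHom) ?_ ?_ ?_
    · rcases h4 with h4 | h4
      · left
        rw [← h4, map_symm_map]
      · right
        rw [← h4, map_symm_map]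
    · have := Subgroup.map_mono (f := e.symm.toMonoidHom) h1
      rwa [map_map_symm] at this
    · have := Subgroup.map_mono (f := e.symm.toMonoidHom) h2
      rwa [map_map_symm] at this
    · have := nor_map e.symm h3
      rwa [map_map_symm] at this

theorem phiT_le (H : Subgroup G) : PhiT H ≤ H := inf_le_left

theorem phiP_le (p : ℕ) (H : Subgroup G) : PhiP p H ≤ H := by
  refine sup_le (Subgroup.commutator_le_self H) ?_
  rw [Subgroup.closure_le]
  rintro _ ⟨h, hh, rfl⟩
  exact H.pow_mem hh p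

theorem phi_le (c : Option ℕ) (H : Subgroup G) : Phi c H ≤ H := by
  cases c with
  | none => exact phiT_le H
  | some p => exact phiP_le p H

theorem ser_le (s : List (Option ℕ)) (H : Subgroup G) : Ser s H ≤ H := by
  induction s generalizing H with
  | nil => exact le_refl H
  | cons c s ih => exact (ih _).trans (phi_le c H)

theorem ser_append (s t : List (Option ℕ)) (H : Subgroup G) : Ser (s ++ t) H = Ser t (Ser s H) := by
  induction s generalizing H with
  | nil => rfl
  | cons c s ih => exact ih _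

theorem phiT_map (e : G ≃* G) (H : Subgroup G) :
    (PhiT H).map e.toMonoidHom ≤ PhiT (H.map e.toMonoidHom) := by
  refine le_inf (Subgroup.map_mono (phiT_le H)) (le_sInf fun N hN => ?_)
  have h1 : NM H (N.map e.symm.toMonoidHom) := by
    have := nm_map e.symm hN
    rwa [map_map_symm] at this
  have h2 : PhiT H ≤ N.map e.symm.toMonoidHom := inf_le_right.trans (sInf_le h1)
  have h3 := Subgroup.map_mono (f := e.toMonoidHom) h2
  rwa [map_symm_map] at h3

theorem phiP_map (e : G ≃* G) (p : ℕ) (H : Subgroup G) :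
    (PhiP p H).map e.toMonoidHom ≤ PhiP p (H.map e.toMonoidHom) := by
  rw [PhiP, PhiP, Subgroup.map_sup, Subgroup.map_commutator]
  refine sup_le_sup_left ?_ _
  rw [MonoidHom.map_closure]
  refine Subgroup.closure_mono ?_
  rintro _ ⟨_, ⟨h, hh, rfl⟩, rfl⟩
  exact ⟨e h, ⟨h, hh, rfl⟩, by simp⟩

theorem phi_map (e : G ≃* G) (c : Option ℕ) (H : Subgroup G) :
    (Phi c H).map e.toMonoidHom ≤ Phi c (H.map e.toMonoidHom) := by
  cases c with
  | none => exact phiT_map e H
  | some p => exact phiP_map e p H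

theorem phi_nor (c : Option ℕ) {K H : Subgroup G} (h : Nor K H) : Nor K (Phi c H) := by
  intro g hg n hn
  have h1 := nor_iff_map.1 h g hg
  have h2 := phi_map (MulAut.conj g) c H
  rw [h1] at h2
  refine h2 ⟨n, hn, ?_⟩
  simp

theorem ser_nor (s : List (Option ℕ)) {K H : Subgroup G} (h : Nor K H) : Nor K (Ser s H) := by
  induction s generalizing H with
  | nil => exact h
  | cons c s ih => exact ih (phi_nor c h)

theorem ser_normal (s : List (Option ℕ)) : (Ser s (⊤ : Subgroup G)).Normal :=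
  normal_of_nor (ser_nor s (nor_self ⊤))

/-! ### Centralisers of sections -/

/-- The elements `x` of `K` with `⁅x, c⁆ ∈ N` for all `c ∈ C`. -/
def cen (K N C : Subgroup G) (h : Nor K N) : Subgroup G where
  carrier := {x | x ∈ K ∧ ∀ c ∈ C, ⁅x, c⁆ ∈ N}
  mul_mem' := by
    rintro x y ⟨hx, hx'⟩ ⟨hy, hy'⟩
    refine ⟨K.mul_mem hx hy, fun c hc => ?_⟩
    have e : ⁅x * y, c⁆ = (x * ⁅y, c⁆ * x⁻¹) * ⁅x, c⁆ := by
      simp only [commutatorElement_def]
      group
    rw [e]
    exact N.mul_mem (h x hx _ (hy' c hc)) (hx' c hc)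
  one_mem' := ⟨K.one_mem, fun c _ => by
    rw [commutatorElement_one_left]
    exact N.one_mem⟩
  inv_mem' := by
    rintro x ⟨hx, hx'⟩
    refine ⟨K.inv_mem hx, fun c hc => ?_⟩
    have e : ⁅x⁻¹, c⁆ = x⁻¹ * ⁅x, c⁆⁻¹ * x⁻¹⁻¹ := by
      simp only [commutatorElement_def]
      group
    rw [e]
    exact h _ (K.inv_mem hx) _ (N.inv_mem (hx' c hc))

theorem mem_cen {K N C : Subgroup G} {h : Nor K N} {x : G} :
    x ∈ cen K N C h ↔ x ∈ K ∧ ∀ c ∈ C, ⁅x, c⁆ ∈ N := Iff.rfl

theorem cen_le (K N C : Subgroup G) (h : Nor K N) : cen K N C h ≤ K := fun _ hx => hx.1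

theorem le_cen {K N C : Subgroup G} (h : Nor K N) (hN : N ≤ K) (hC : C ≤ K) : N ≤ cen K N C h := by
  intro n hn
  refine ⟨hN hn, fun c hc => ?_⟩
  have e : ⁅n, c⁆ = n * (c * n⁻¹ * c⁻¹) := by
    simp only [commutatorElement_def]
    group
  rw [e]
  exact N.mul_mem hn (h c (hC hc) _ (N.inv_mem hn))

theorem cen_nor {K N C : Subgroup G} (h : Nor K N) (hC : Nor K C) : Nor K (cen K N C h) := by
  rintro g hg x ⟨hx, hx'⟩
  refine ⟨K.mul_mem (K.mul_mem hg hx) (K.inv_mem hg), fun c hc => ?_⟩
  have e : ⁅g * x * g⁻¹, c⁆ = g * ⁅x, g⁻¹ * c * g⁻¹⁻¹⁆ * g⁻¹ := by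
    simp only [commutatorElement_def]
    group
  rw [e]
  exact h g hg _ (hx' _ (hC _ (K.inv_mem hg) c hc))

theorem nor_sup {K A C : Subgroup G} (hA : Nor K A) (hC : Nor K C) : Nor K (A ⊔ C) := by
  rw [nor_iff_map] at hA hC ⊢
  intro g hg
  rw [Subgroup.map_sup, hA g hg, hC g hg]

/-- The quotient of a maximal normal pair is prime. -/
theorem NM.prime {K N : Subgroup G} (h : NM K N) {A C : Subgroup G} (hA : A ≤ K) (hC : C ≤ K)
    (hnA : Nor K A) (hnC : Nor K C) (hAC : ⁅A, C⁆ ≤ N) : A ≤ N ∨ C ≤ N := by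
  by_contra hcon
  push Not at hcon
  obtain ⟨h1, h2⟩ := hcon
  have h3 : A ⊔ N = K := by
    rcases h.max (A ⊔ N) le_sup_right (sup_le hA h.le) (nor_sup hnA h.nor) with h3 | h3
    · exact absurd (le_sup_left.trans h3.le) h1
    · exact h3
  have h4 : C ⊔ N = K := by
    rcases h.max (C ⊔ N) le_sup_right (sup_le hC h.le) (nor_sup hnC h.nor) with h3 | h3
    · exact absurd (le_sup_left.trans h3.le) h2
    · exact h3
  have h5 : A ≤ cen K N C h.nor := fun a ha =>
    ⟨hA ha, fun c hc => hAC (Subgroup.commutator_mem_commutator ha hc)⟩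
  have h6 : K ≤ cen K N C h.nor := by
    have h9 : A ⊔ N ≤ cen K N C h.nor := sup_le h5 (le_cen h.nor h.le hC)
    rwa [h3] at h9
  have h7 : C ≤ cen K N K h.nor := fun c hc => ⟨hC hc, fun x hx => by
    have := N.inv_mem ((h6 hx).2 c hc)
    rwa [commutatorElement_inv] at this⟩
  have h8 : K ≤ cen K N K h.nor := by
    have h9 : C ⊔ N ≤ cen K N K h.nor := sup_le h7 (le_cen h.nor h.le le_rfl)
    rwa [h4] at h9
  exact h.nab (Subgroup.commutator_le.2 fun x hx y hy => (h8 hx).2 y hy)

end Lemmas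

end Pool.Agent.Helper94.BC
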