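import Pool.Agent.Helper94.BC.Cent

set_option autoImplicit false

open scoped Pointwise commutatorElement

namespace Pool.Agent.Helper94.BC

private lemma c10_ext {G : Type} [Group G] {H K : Subgroup G} (h : ⁅H, H⁆ ≤ K)
    (hK : Group.IsSolvable K) : Group.IsSolvable H := by
  have h1 : Group.IsSolvable (commutator H) := by
    let f : (commutator H) →* K :=
      { toFun := fun x => ⟨(x : H), by
          have hx : (H.subtype (x : H)) ∈ (commutator H).map H.subtype :=
            Subgroup.mem_map_of_mem _ x.2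
          have e : (commutator H).map H.subtype = ⁅H, H⁆ := by
            rw [commutator_def, Subgroup.map_commutator, ← MonoidHom.range_eq_map,
              Subgroup.range_subtype]
          rw [e] at hx
          exact h hx⟩
        map_one' := by ext; simp
        map_mul' := by intro x y; ext; simp }
    have hf : Function.Injective f := by
      intro x y hxy
      have : ((x : H) : G) = ((y : H) : G) := congrArg (fun z : K => (z : G)) hxy
      exact Subtype.ext (Subtype.ext this)
    exact Group.isSolvable_of_isSolvable_injective hf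
  have h2 : Group.IsSolvable (Abelianization H) := inferInstance
  exact Group.isSolvable_of_ker_le_range (commutator H).subtype (Abelianization.of (G := H)) (by
    rw [Abelianization.ker_of, Subgroup.range_subtype])

private lemma c10_homs {G : Type} [Group G] {S : Set G} (hSf : S.Finite)
    (hS : Subgroup.closure S = ⊤) (n : ℕ) : Finite (G →* Equiv.Perm (Fin n)) := by
  have : Finite S := hSf
  refine Finite.of_injective (fun (φ : G →* Equiv.Perm (Fin n)) (s : S) => φ s) ?_
  intro φ ψ h
  refine MonoidHom.eq_of_eqOn_dense hS ?_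
  intro s hs
  exact congrFun h ⟨s, hs⟩

private lemma c10_small {G : Type} [Group G] {S : Set G} (hSf : S.Finite)
    (hS : Subgroup.closure S = ⊤) (m : ℕ) : ∃ F : Subgroup G, F.FiniteIndex ∧
      ∀ C : Subgroup G, C.index ≠ 0 → C.index ≤ m → F ≤ C := by
  have hfin : ∀ n : Fin (m + 1), Finite (G →* Equiv.Perm (Fin n)) :=
    fun n => c10_homs hSf hS n
  refine ⟨⨅ p : (Σ n : Fin (m + 1), (G →* Equiv.Perm (Fin n))), p.2.ker, ?_, ?_⟩
  · exact Subgroup.finiteIndex_iInf (fun p => Subgroup.finiteIndex_ker p.2)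
  · intro C hC hCm
    have hCfin : C.FiniteIndex := ⟨hC⟩
    have hfinq : Finite (G ⧸ C) := inferInstance
    have hcard : Nat.card (G ⧸ C) = C.index := rfl
    let e : (G ⧸ C) ≃ Fin C.index := Finite.equivFinOfCardEq hcard
    let φ : G →* Equiv.Perm (Fin C.index) :=
      (Equiv.permCongrHom e).toMonoidHom.comp (MulAction.toPermHom G (G ⧸ C))
    intro g hg
    have hlt : C.index < m + 1 := by omega
    have h1 : g ∈ φ.ker := by
      have := (Subgroup.mem_iInf.mp hg) ⟨⟨C.index, hlt⟩, φ⟩
      exact this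
    have h2 : g ∈ (MulAction.toPermHom G (G ⧸ C)).ker := by
      rw [MonoidHom.mem_ker] at h1 ⊢
      have h3 : (Equiv.permCongrHom e) ((MulAction.toPermHom G (G ⧸ C)) g) =
          (Equiv.permCongrHom e) 1 := by
        rw [map_one]; exact h1
      exact (Equiv.permCongrHom e).injective h3
    rw [← Subgroup.normalCore_eq_ker] at h2
    exact Subgroup.normalCore_le C h2

private lemma c10_max {Q : Type} [Group Q] [Finite Q] {E : Subgroup Q} (hE : E ≠ ⊥) :
    ∃ N : Subgroup Q, N.Normal ∧ N < E ∧
      ∀ L : Subgroup Q, L.Normal → N ≤ L → L ≤ E → L = N ∨ L = E := by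
  classical
  have hfin : Finite (Subgroup Q) := inferInstance
  obtain ⟨N, hN, hmax⟩ := (Set.toFinite {N : Subgroup Q | N.Normal ∧ N < E}).exists_maximal
    ⟨⊥, inferInstance, bot_lt_iff_ne_bot.mpr hE⟩
  refine ⟨N, hN.1, hN.2, fun L hL hNL hLE => ?_⟩
  rcases hLE.eq_or_lt with h | h
  · exact Or.inr h
  · exact Or.inl (le_antisymm (hmax ⟨hL, h⟩ hNL) hNL)

private lemma c10_pow {n b : ℕ} (h : n ≤ b) (hn : n ≠ 0) : n ^ n ≤ b ^ b :=
  (Nat.pow_le_pow_left h n).trans (Nat.pow_le_pow_right (by omega) h)

private lemma c10_sol {Q : Type} [Group Q] [Finite Q] (F : Subgroup Q) (b : ℕ)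
    (hb : ∀ N E : Subgroup Q, N.Normal → E.Normal → N < E →
        (∀ L : Subgroup Q, L.Normal → N ≤ L → L ≤ E → L = N ∨ L = E) →
        ¬ ⁅E, E⁆ ≤ N → N.relIndex E ≤ b)
    (hF : ∀ C : Subgroup Q, C.index ≤ b ^ b → F ≤ C) :
    ∀ n : ℕ, ∀ E : Subgroup Q, E.Normal → Nat.card E = n →
      Group.IsSolvable (F ⊓ E : Subgroup Q) := by
  intro n
  induction n using Nat.strong_induction_on with
  | _ n ih =>
    intro E hE hn
    by_cases hbot : E = ⊥
    · subst hbot
      rw [inf_bot_eq]
      infer_instance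
    obtain ⟨N, hN, hNE, hmin⟩ := c10_max hbot
    have hlt : Nat.card N < n := by
      rw [← hn]
      have h1 : Nat.card N ≤ Nat.card E := Nat.card_le_card_of_injective
        (Subgroup.inclusion hNE.le) (Subgroup.inclusion_injective hNE.le)
      refine lt_of_le_of_ne h1 ?_
      intro h2
      exact hNE.ne (Subgroup.eq_of_le_of_card_ge hNE.le h2.ge)
    have hsol := ih _ hlt N hN rfl
    refine c10_ext (K := F ⊓ N) ?_ hsol
    refine le_inf ((Subgroup.commutator_le_self _).trans inf_le_left) ?_
    by_cases hab : ⁅E, E⁆ ≤ N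
    · exact (Subgroup.commutator_mono inf_le_right inf_le_right).trans hab
    · have hrel := hb N E hN hE hNE hmin hab
      have hnorN : Nor ⊤ N := nor_of_normal ⊤ hN
      have hnorE : Nor ⊤ E := nor_of_normal ⊤ hE
      have hne : N.relIndex E ≠ 0 := by
        unfold Subgroup.relIndex
        exact Subgroup.index_ne_zero_of_finite
      have hci := cen_index hnorN hnorE hNE.le le_top hne
      have hidx : (cen ⊤ N E hnorN).index ≤ b ^ b := by
        have h3 := hci.2
        rw [Subgroup.relIndex_top_right] at h3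
        exact h3.trans (c10_pow hrel hne)
      have hFc : F ≤ cen ⊤ N E hnorN := hF _ hidx
      rw [Subgroup.commutator_le]
      intro x hx y hy
      exact (mem_cen.mp (hFc hx.1)).2 y hy.2

/-- If the non-abelian chief factors of the finite quotients are bounded, a subgroup of finite
index is residually soluble. -/
theorem core_sol (G : Type) [Group G] (S : Set G) (hSf : S.Finite)
    (hS : Subgroup.closure S = ⊤) (B : ℕ)
    (hres : ∀ x : G, x ≠ 1 → ∃ (N : Subgroup G) (_ : N.Normal), N.FiniteIndex ∧ x ∉ N ∧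
      Cls B (G ⧸ N))
    (b : ℕ)
    (hb : ∀ (N0 : Subgroup G) (_ : N0.Normal), N0.FiniteIndex → Cls B (G ⧸ N0) →
      ∀ N E : Subgroup (G ⧸ N0), N.Normal → E.Normal → N < E →
        (∀ L : Subgroup (G ⧸ N0), L.Normal → N ≤ L → L ≤ E → L = N ∨ L = E) →
        ¬ ⁅E, E⁆ ≤ N → N.relIndex E ≤ b) :
    ∃ F : Subgroup G, F.FiniteIndex ∧ ∀ g : F, g ≠ 1 →
      ∃ (N : Subgroup F) (_ : N.Normal), g ∉ N ∧ Group.IsSolvable (F ⧸ N) := by
  obtain ⟨F, hFf, hF⟩ := c10_small hSf hS (b ^ b)
  refine ⟨F, hFf, fun g hg => ?_⟩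
  have hg' : (g : G) ≠ 1 := fun h => hg (Subtype.ext h)
  obtain ⟨N0, hN0, hfi, hgN, hcls⟩ := hres g hg'
  have hfin : Finite (G ⧸ N0) := Subgroup.finite_quotient_of_finiteIndex
  let f : F →* (G ⧸ N0) := (QuotientGroup.mk' N0).comp F.subtype
  refine ⟨f.ker, inferInstance, ?_, ?_⟩
  · intro h
    rw [MonoidHom.mem_ker] at h
    have h1 : ((g : G) : G ⧸ N0) = 1 := h
    rw [QuotientGroup.eq_one_iff] at h1
    exact hgN h1
  · have hrange : f.range = F.map (QuotientGroup.mk' N0) := by
      rw [MonoidHom.range_comp, Subgroup.range_subtype]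
    have hFQ : ∀ C : Subgroup (G ⧸ N0), C.index ≤ b ^ b → f.range ≤ C := by
      intro C hC
      rw [hrange, Subgroup.map_le_iff_le_comap]
      have hidx : (C.comap (QuotientGroup.mk' N0)).index = C.index :=
        Subgroup.index_comap_of_surjective C (QuotientGroup.mk'_surjective N0)
      refine hF _ ?_ ?_
      · rw [hidx]
        exact Subgroup.index_ne_zero_of_finite
      · rw [hidx]; exact hC
    have hsol := c10_sol f.range b (hb N0 hN0 hfi hcls) hFQ _ ⊤ inferInstance rfl
    rw [inf_top_eq] at hsol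
    exact Group.isSolvable_of_isSolvable_injective (QuotientGroup.rangeKerLift_injective f)

end Pool.Agent.Helper94.BC
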