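import Pool.Agent.Helper94.BC.Defs

set_option autoImplicit false

open scoped Pointwise commutatorElement

namespace Pool.Agent.Helper94.BC

variable {G : Type} [Group G]

/-- The conjugation permutation of the cosets of `N` in `E`. -/
private noncomputable def cj {K N E : Subgroup G} (hN : Nor K N) (hE : Nor K E) (x : K) :
    (E ⧸ N.subgroupOf E) → (E ⧸ N.subgroupOf E) :=
  Quotient.map' (fun e : E => (⟨(x : G) * e * (x : G)⁻¹, hE x x.2 e e.2⟩ : E)) (by
    intro a b hab
    rw [QuotientGroup.leftRel_apply, Subgroup.mem_subgroupOf] at hab ⊢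
    have h := hN x x.2 _ hab
    have e : ((((⟨(x : G) * a * (x : G)⁻¹, hE x x.2 a a.2⟩ : E)⁻¹ *
        (⟨(x : G) * b * (x : G)⁻¹, hE x x.2 b b.2⟩ : E) : E)) : G) =
        (x : G) * ((a⁻¹ * b : E) : G) * (x : G)⁻¹ := by
      push_cast
      group
    rw [e]
    exact h)

private theorem cj_mk {K N E : Subgroup G} (hN : Nor K N) (hE : Nor K E) (x : K) (e : E) :
    cj hN hE x (QuotientGroup.mk e) =
      QuotientGroup.mk (⟨(x : G) * e * (x : G)⁻¹, hE x x.2 e e.2⟩ : E) := rfl

/-- The centraliser of a finite section has bounded index. -/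
theorem cen_index {K N E : Subgroup G} (hN : Nor K N) (hE : Nor K E) (hNE : N ≤ E) (hEK : E ≤ K)
    (hfin : N.relIndex E ≠ 0) : (cen K N E hN).relIndex K ≠ 0 ∧
      (cen K N E hN).relIndex K ≤ N.relIndex E ^ N.relIndex E := by
  have hfi : (N.subgroupOf E).FiniteIndex := ⟨hfin⟩
  have hf : Finite (E ⧸ N.subgroupOf E) := inferInstance
  set H := (cen K N E hN).subgroupOf K with hH
  let F : K ⧸ H → (E ⧸ N.subgroupOf E) → (E ⧸ N.subgroupOf E) := fun q => cj hN hE q.out
  have hF : Function.Injective F := by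
    intro q r hqr
    have h1 : (q.out : K)⁻¹ * r.out ∈ H := by
      refine Subgroup.mem_subgroupOf.2 ⟨((q.out : K)⁻¹ * r.out).2, fun e he => ?_⟩
      have h2 := congrFun hqr (QuotientGroup.mk (⟨e, he⟩ : E))
      have h3 : cj hN hE q.out (QuotientGroup.mk (⟨e, he⟩ : E)) =
        cj hN hE r.out (QuotientGroup.mk (⟨e, he⟩ : E)) := h2
      rw [cj_mk, cj_mk, QuotientGroup.eq, Subgroup.mem_subgroupOf] at h3
      have h4 := hN _ (K.mul_mem (hEK he) (K.inv_mem (q.out : K).2)) _ h3
      have e1 : ⁅(((q.out : K)⁻¹ * r.out : K) : G), e⁆ = (e * ((q.out : K) : G)⁻¹) *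
          (((⟨((q.out : K) : G) * (⟨e, he⟩ : E) * ((q.out : K) : G)⁻¹,
              hE _ (q.out : K).2 _ (⟨e, he⟩ : E).2⟩ : E)⁻¹ *
            (⟨((r.out : K) : G) * (⟨e, he⟩ : E) * ((r.out : K) : G)⁻¹,
              hE _ (r.out : K).2 _ (⟨e, he⟩ : E).2⟩ : E) : E) : G) *
          (e * ((q.out : K) : G)⁻¹)⁻¹ := by
        simp only [commutatorElement_def]
        push_cast
        group
      rw [e1]
      exact h4
    rw [← QuotientGroup.out_eq' q, ← QuotientGroup.out_eq' r, QuotientGroup.eq]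
    exact h1
  have hfin2 : Finite (K ⧸ H) := Finite.of_injective F hF
  have hcard : Nat.card (K ⧸ H) ≤ Nat.card ((E ⧸ N.subgroupOf E) → (E ⧸ N.subgroupOf E)) :=
    Nat.card_le_card_of_injective F hF
  rw [Nat.card_fun] at hcard
  refine ⟨?_, hcard⟩
  have : H.FiniteIndex := Subgroup.finiteIndex_of_finite_quotient
  exact this.index_ne_zero

/-- The centraliser of a non-abelian simple section meets it trivially. -/
theorem cen_inf {C E M : Subgroup G} (hM : NM E M) (hCM : Nor C M) (hEC : E ≤ C) :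
    cen C M E hCM ⊓ E = M := by
  have h1 : M ≤ cen C M E hCM ⊓ E :=
    le_inf (le_cen hCM (hM.le.trans hEC) hEC) hM.le
  have h2 : Nor E (cen C M E hCM ⊓ E) := by
    rintro g hg x ⟨hx, hxE⟩
    refine ⟨⟨C.mul_mem (C.mul_mem (hEC hg) hx.1) (C.inv_mem (hEC hg)), fun c hc => ?_⟩,
      E.mul_mem (E.mul_mem hg hxE) (E.inv_mem hg)⟩
    have e : ⁅g * x * g⁻¹, c⁆ = g * ⁅x, g⁻¹ * c * g⁻¹⁻¹⁆ * g⁻¹ := by
      simp only [commutatorElement_def]
      group
    rw [e]
    refine hM.nor g hg _ (hx.2 _ ?_)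
    exact E.mul_mem (E.mul_mem (E.inv_mem hg) hc) (E.inv_mem (E.inv_mem hg))
  rcases hM.max _ h1 inf_le_right h2 with h3 | h3
  · exact h3
  · exfalso
    apply hM.nab
    rw [Subgroup.commutator_le]
    intro x hx y hy
    have hx' : x ∈ cen C M E hCM ⊓ E := by rw [h3]; exact hx
    exact hx'.1.2 y hy

/-- The centraliser of a non-abelian simple section is prime. -/
theorem cen_prime {C E M : Subgroup G} (hM : NM E M) (hCM : Nor C M) (hCE : Nor C E)
    (hEC : E ≤ C) {a b : G} (ha : a ∈ C) (hb : b ∈ C) (ha' : a ∉ cen C M E hCM)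
    (hb' : b ∉ cen C M E hCM) : ∃ g ∈ C, ⁅a, g * b * g⁻¹⁆ ∉ cen C M E hCM := by
  by_contra hcon
  push Not at hcon
  set D := cen C M E hCM with hD
  have hDn : Nor C D := cen_nor hCM hCE
  -- the elements of `C` which commute with `a` modulo `D`
  -- F: the subgroup generated by the conjugates of `b`
  set F : Subgroup G := Subgroup.closure {x : G | ∃ g ∈ C, x = g * b * g⁻¹} with hF
  have hFC : F ≤ C := by
    rw [hF, Subgroup.closure_le]
    rintro _ ⟨g, hg, rfl⟩
    exact C.mul_mem (C.mul_mem hg hb) (C.inv_mem hg)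
  have hbF : b ∈ F := Subgroup.subset_closure ⟨1, C.one_mem, by simp⟩
  have hFn : Nor C F := by
    intro h hh n hn
    have h1 : F ≤ F.comap (MulAut.conj h).toMonoidHom := by
      rw [hF, Subgroup.closure_le]
      rintro _ ⟨g, hg, rfl⟩
      refine Subgroup.subset_closure ⟨h * g, C.mul_mem hh hg, ?_⟩
      simp [mul_assoc]
    have h2 := h1 hn
    simpa using h2
  have hFE : ∀ n ∈ F, ⁅a, n⁆ ∈ D := by
    intro n hn
    rw [hF] at hn
    induction hn using Subgroup.closure_induction with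
    | mem x hx =>
      obtain ⟨g, hg, rfl⟩ := hx
      exact hcon g hg
    | one =>
      rw [commutatorElement_one_right]
      exact D.one_mem
    | mul x y hx hy ihx ihy =>
      have e : ⁅a, x * y⁆ = ⁅a, x⁆ * (x * ⁅a, y⁆ * x⁻¹) := by
        simp only [commutatorElement_def]
        group
      rw [e]
      exact D.mul_mem ihx (hDn x (hFC hx) _ ihy)
    | inv x hx ih =>
      have e : ⁅a, x⁻¹⁆ = x⁻¹ * ⁅a, x⁆⁻¹ * x⁻¹⁻¹ := by
        simp only [commutatorElement_def]
        group
      rw [e]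
      exact hDn _ (C.inv_mem (hFC hx)) _ (D.inv_mem ih)
  have hE1 : (F ⊓ E) ⊔ M = E := by
    rcases hM.max ((F ⊓ E) ⊔ M) le_sup_right (sup_le inf_le_right hM.le)
      (nor_sup (nor_inf (nor_mono hEC hFn) (nor_self E)) hM.nor) with h3 | h3
    · exfalso
      apply hb'
      refine ⟨hb, fun c hc => ?_⟩
      have h4 : F ⊓ E ≤ M := le_sup_left.trans h3.le
      refine h4 ⟨?_, ?_⟩
      · have e : ⁅b, c⁆ = b * (c * b⁻¹ * c⁻¹) := by
          simp only [commutatorElement_def]
          group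
        rw [e]
        exact F.mul_mem hbF (hFn c (hEC hc) _ (F.inv_mem hbF))
      · have e : ⁅b, c⁆ = (b * c * b⁻¹) * c⁻¹ := by
          simp only [commutatorElement_def]
        rw [e]
        exact E.mul_mem (hCE b hb c hc) (E.inv_mem hc)
    · exact h3
  apply ha'
  refine ⟨ha, ?_⟩
  have hinf : D ⊓ E = M := cen_inf hM hCM hEC
  have hMD : M ≤ D := le_cen hCM (hM.le.trans hEC) hEC
  -- the elements `c` of `E` with `⁅a, c⁆ ∈ D`
  have key : ∀ c ∈ (F ⊓ E) ⊔ M, ⁅a, c⁆ ∈ D := by
    intro c hc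
    rw [Subgroup.sup_eq_closure] at hc
    induction hc using Subgroup.closure_induction with
    | mem x hx =>
      rcases hx with hx | hx
      · exact hFE x hx.1
      · have e : ⁅a, x⁆ = (a * x * a⁻¹) * x⁻¹ := by
          simp only [commutatorElement_def]
        rw [e]
        exact D.mul_mem (hMD (hCM a ha x hx)) (D.inv_mem (hMD hx))
    | one =>
      rw [commutatorElement_one_right]
      exact D.one_mem
    | mul x y hx hy ihx ihy =>
      have hxC : x ∈ C := by
        have : x ∈ (F ⊓ E) ⊔ M := by rw [Subgroup.sup_eq_closure]; exact hx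
        rw [hE1] at this
        exact hEC this
      have e : ⁅a, x * y⁆ = ⁅a, x⁆ * (x * ⁅a, y⁆ * x⁻¹) := by
        simp only [commutatorElement_def]
        group
      rw [e]
      exact D.mul_mem ihx (hDn x hxC _ ihy)
    | inv x hx ih =>
      have hxC : x ∈ C := by
        have : x ∈ (F ⊓ E) ⊔ M := by rw [Subgroup.sup_eq_closure]; exact hx
        rw [hE1] at this
        exact hEC this
      have e : ⁅a, x⁻¹⁆ = x⁻¹ * ⁅a, x⁆⁻¹ * x⁻¹⁻¹ := by
        simp only [commutatorElement_def]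
        group
      rw [e]
      exact hDn _ (C.inv_mem hxC) _ (D.inv_mem ih)
  intro c hc
  rw [← hinf]
  refine ⟨key c (by rw [hE1]; exact hc), ?_⟩
  have e : ⁅a, c⁆ = (a * c * a⁻¹) * c⁻¹ := by
    simp only [commutatorElement_def]
  rw [e]
  exact E.mul_mem (hCE a ha c hc) (E.inv_mem hc)

end Pool.Agent.Helper94.BC
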