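import Pool.Agent.Helper94.BC.Defs

set_option autoImplicit false

open scoped Pointwise commutatorElement

namespace Pool.Agent.Helper94.BC

/-- Independent short elements give an exponential number of elements. -/
theorem count {C : Type} [Group C] {X : Set C} (hX : X.Finite) {k : ℕ} (N : Fin k → Subgroup C)
    (L : ℕ) (h : ∀ i, ∃ y ∈ Bl X L, y ∉ N i ∧ ∀ j, j ≠ i → y ∈ N j) :
    2 ^ k ≤ Nat.card (Bl X (k * L)) := by
  have key : ∀ m, m ≤ k → 2 ^ m ≤
      ({x | x ∈ Bl X (m * L) ∧ ∀ j : Fin k, m ≤ j → x ∈ N j} : Set C).ncard := by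
    intro m hm
    induction m with
    | zero =>
      rw [pow_zero]
      refine (Set.ncard_pos (Set.Finite.subset (bl_finite hX _) fun x hx => hx.1)).2 ?_
      exact ⟨1, one_mem_bl X _, fun j _ => (N j).one_mem⟩
    | succ m ih =>
      have ih' := ih (by omega)
      set S := ({x | x ∈ Bl X (m * L) ∧ ∀ j : Fin k, m ≤ j → x ∈ N j} : Set C) with hS
      obtain ⟨y, hy, hym, hyj⟩ := h ⟨m, hm⟩
      have hSf : S.Finite := Set.Finite.subset (bl_finite hX _) fun x hx => hx.1
      have hdis : Disjoint S ((fun x => x * y) '' S) := by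
        rw [Set.disjoint_left]
        rintro x hx ⟨z, hz, rfl⟩
        apply hym
        have h1 := hx.2 ⟨m, hm⟩ le_rfl
        have h2 := hz.2 ⟨m, hm⟩ le_rfl
        exact (Subgroup.mul_mem_cancel_left _ h2).1 h1
      have hsub : S ∪ ((fun x => x * y) '' S) ⊆
          {x | x ∈ Bl X ((m + 1) * L) ∧ ∀ j : Fin k, m + 1 ≤ j → x ∈ N j} := by
        rintro x (hx | ⟨z, hz, rfl⟩)
        · exact ⟨bl_mono X (Nat.mul_le_mul_right _ (Nat.le_succ m)) hx.1,
            fun j hj => hx.2 j (by omega)⟩
        · refine ⟨?_, fun j hj => (N j).mul_mem (hz.2 j (by omega)) (hyj j ?_)⟩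
          · rw [add_mul, one_mul]
            exact mul_mem_bl hz.1 hy
          · intro h3
            rw [h3] at hj
            simp at hj
      calc 2 ^ (m + 1) = 2 ^ m + 2 ^ m := by rw [pow_succ]; ring
        _ ≤ S.ncard + ((fun x => x * y) '' S).ncard := by
            rw [Set.ncard_image_of_injective _ (mul_left_injective y)]
            omega
        _ = (S ∪ ((fun x => x * y) '' S)).ncard :=
            (Set.ncard_union_eq hdis hSf (hSf.image _)).symm
        _ ≤ _ := Set.ncard_le_ncard hsub (Set.Finite.subset (bl_finite hX _) fun x hx => hx.1)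
  refine (key k le_rfl).trans ?_
  rw [Nat.card_coe_set_eq]
  exact Set.ncard_le_ncard (fun x hx => hx.1) (bl_finite hX _)

end Pool.Agent.Helper94.BC
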