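import Pool.Agent.Helper94.BC.Defs

set_option autoImplicit false

open scoped Pointwise commutatorElement

namespace Pool.Agent.Helper94.BC

section TreeAux

variable {G : Type} [Group G]

/-- A normal subgroup of `K` outside the maximal `N` inherits the pair. -/
theorem nm_inf {K N A : Subgroup G} (h : NM K N) (hA : A ≤ K) (hn : Nor K A)
    (hAN : ¬ A ≤ N) : NM A (A ⊓ N) := by
  have hsup : A ⊔ N = K := by
    rcases h.max (A ⊔ N) le_sup_right (sup_le hA h.le) (nor_sup hn h.nor) with h3 | h3
    · exact absurd (le_sup_left.trans h3.le) hAN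
    · exact h3
  refine ⟨inf_le_left, nor_inf (nor_self A) (nor_mono hA h.nor), ?_, ?_⟩
  · intro h1
    rcases h.prime hA hA hn hn (h1.trans inf_le_right) with h2 | h2 <;> exact hAN h2
  · intro L hL1 hL2 hL3
    have hLA : Nor A (L ⊔ N) := nor_sup hL3 (nor_mono hA h.nor)
    have hLN : Nor N (L ⊔ N) := by
      refine fun x hx y hy => ?_
      have hxm : x ∈ L ⊔ N := (le_sup_right : N ≤ L ⊔ N) hx
      exact (L ⊔ N).mul_mem ((L ⊔ N).mul_mem hxm hy) ((L ⊔ N).inv_mem hxm)
    have hLK : Nor K (L ⊔ N) := by
      rw [nor_iff_map] at hLA hLN ⊢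
      intro g hg
      rw [← hsup] at hg
      have hcl : A ⊔ N ≤ {
          carrier := {g : G | (L ⊔ N).map (MulAut.conj g).toMonoidHom = L ⊔ N}
          mul_mem' := by
            intro a b ha hb
            simp only [Set.mem_ofPred_eq] at ha hb ⊢
            have e : (MulAut.conj (a * b)).toMonoidHom
                = (MulAut.conj a).toMonoidHom.comp (MulAut.conj b).toMonoidHom := by
              ext z
              simp
            rw [e, ← Subgroup.map_map, hb, ha]
          one_mem' := by
            simp only [Set.mem_ofPred_eq]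
            ext z
            rw [conj_map_mem]
            simp
          inv_mem' := by
            intro a ha
            simp only [Set.mem_ofPred_eq] at ha ⊢
            ext z
            rw [conj_map_mem]
            have h1 : a * z * a⁻¹ ∈ (L ⊔ N).map (MulAut.conj a).toMonoidHom ↔ z ∈ L ⊔ N := by
              rw [conj_map_mem]
              simp [mul_assoc]
            rw [ha] at h1
            simpa using h1 : Subgroup G} := by
        refine sup_le ?_ ?_
        · intro a ha
          exact hLA a ha
        · intro a ha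
          exact hLN a ha
      exact hcl hg
    rcases h.max (L ⊔ N) le_sup_right (sup_le (hL2.trans hA) h.le) hLK with h4 | h4
    · left
      exact le_antisymm (le_inf hL2 (le_sup_left.trans h4.le)) hL1
    · right
      refine le_antisymm hL2 ?_
      -- every `a ∈ A` is `l * n`
      intro a ha
      have haK : a ∈ L ⊔ N := by
        rw [h4]
        exact hA ha
      -- use that `N` is normalised by `L`
      have hmul : ∀ z ∈ L ⊔ N, ∃ l ∈ L, ∃ n ∈ N, z = l * n := by
        intro z hz
        have hcl : L ⊔ N ≤ {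
            carrier := {z : G | ∃ l ∈ L, ∃ n ∈ N, z = l * n}
            mul_mem' := by
              rintro _ _ ⟨l, hl, n, hn', rfl⟩ ⟨l', hl', n', hn'', rfl⟩
              refine ⟨l * l', L.mul_mem hl hl', (l'⁻¹ * n * l') * n', N.mul_mem ?_ hn'', by group⟩
              have := h.nor l'⁻¹ (K.inv_mem (hA (hL2 hl'))) n hn'
              simpa using this
            one_mem' := ⟨1, L.one_mem, 1, N.one_mem, by simp⟩
            inv_mem' := by
              rintro _ ⟨l, hl, n, hn', rfl⟩
              refine ⟨l⁻¹, L.inv_mem hl, l * n⁻¹ * l⁻¹, ?_, by group⟩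
              exact h.nor l (hA (hL2 hl)) _ (N.inv_mem hn') : Subgroup G} := by
          refine sup_le ?_ ?_
          · intro l hl
            exact ⟨l, hl, 1, N.one_mem, by simp⟩
          · intro n hn'
            exact ⟨1, L.one_mem, n, hn', by simp⟩
        exact hcl hz
      obtain ⟨l, hl, n, hn', rfl⟩ := hmul a haK
      have hnA : n ∈ A := by
        have := A.mul_mem (A.inv_mem (hL2 hl)) ha
        simpa using this
      exact L.mul_mem hl (hL1 ⟨hnA, hn'⟩)

/-- The relative index for a supplement. -/
theorem relIndex_suppl {K N A : Subgroup G} (h : NM K N) (hA : A ≤ K) (hn : Nor K A)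
    (hAN : ¬ A ≤ N) : N.relIndex K = N.relIndex A := by
  have hsup : A ⊔ N = K := by
    rcases h.max (A ⊔ N) le_sup_right (sup_le hA h.le) (nor_sup hn h.nor) with h3 | h3
    · exact absurd (le_sup_left.trans h3.le) hAN
    · exact h3
  have hnorm : (N.subgroupOf K).Normal := by
    refine ⟨fun n hn' g => ?_⟩
    rw [Subgroup.mem_subgroupOf] at hn' ⊢
    exact h.nor g g.2 n hn'
  have h1 : A.subgroupOf K ⊔ N.subgroupOf K = ⊤ := by
    rw [← Subgroup.subgroupOf_sup hA h.le, hsup, Subgroup.subgroupOf_self]
  have h2 : (N.subgroupOf K).relIndex (A.subgroupOf K) = N.relIndex A :=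
    Subgroup.relIndex_subgroupOf hA
  have h3 := Subgroup.relIndex_sup_right (A.subgroupOf K) (N.subgroupOf K)
  rw [h1, Subgroup.relIndex_top_right, h2] at h3
  exact h3

/-- A maximal pair is prime for finite intersections. -/
theorem prime_fin {A N : Subgroup G} (h : NM A N) {ι : Type} (s : Finset ι)
    (F : ι → Subgroup G) (hF : ∀ i ∈ s, F i ≤ A ∧ Nor A (F i)) (hs : A ⊓ s.inf F ≤ N) :
    ∃ i ∈ s, F i ≤ N := by
  classical
  induction s using Finset.induction_on with
  | empty =>
    exfalso
    rw [Finset.inf_empty, inf_top_eq] at hs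
    exact h.nab ((Subgroup.commutator_le_self A).trans hs)
  | insert a s ha ih =>
    rw [Finset.inf_insert] at hs
    have hFs : ∀ i ∈ s, F i ≤ A ∧ Nor A (F i) := fun i hi => hF i (Finset.mem_insert_of_mem hi)
    have hn : Nor A (A ⊓ s.inf F) := by
      refine nor_inf (nor_self A) ?_
      clear ih hs ha hF
      induction s using Finset.induction_on with
      | empty =>
        rw [Finset.inf_empty]
        exact fun _ _ _ _ => Subgroup.mem_top _
      | insert b s hb ih2 =>
        rw [Finset.inf_insert]
        exact nor_inf (hFs b (Finset.mem_insert_self b s)).2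
          (ih2 fun i hi => hFs i (Finset.mem_insert_of_mem hi))
    obtain ⟨ha1, ha2⟩ := hF a (Finset.mem_insert_self a s)
    have hcom : ⁅F a, A ⊓ s.inf F⁆ ≤ N := by
      refine le_trans ?_ hs
      rw [Subgroup.commutator_le]
      intro x hx y hy
      have e1 : ⁅x, y⁆ = x * (y * x⁻¹ * y⁻¹) := by
        simp only [commutatorElement_def]
        group
      have e2 : ⁅x, y⁆ = (x * y * x⁻¹) * y⁻¹ := by
        simp only [commutatorElement_def]
      have m1 : ⁅x, y⁆ ∈ F a := by
        rw [e1]
        exact (F a).mul_mem hx (ha2 y hy.1 _ ((F a).inv_mem hx))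
      have m2 : ⁅x, y⁆ ∈ A ⊓ s.inf F := by
        rw [e2]
        exact (A ⊓ s.inf F).mul_mem (hn x (ha1 hx) y hy) ((A ⊓ s.inf F).inv_mem hy)
      exact ⟨m2.1, m1, m2.2⟩
    rcases h.prime ha1 inf_le_left ha2 hn hcom with h1 | h1
    · exact ⟨a, Finset.mem_insert_self a s, h1⟩
    · obtain ⟨i, hi, hi2⟩ := ih hFs h1
      exact ⟨i, Finset.mem_insert_of_mem hi, hi2⟩

/-- The preimage of a maximal pair under a surjection. -/
theorem nm_comap {P : Type} [Group P] (f : G →* P) (hf : Function.Surjective f)
    {K N : Subgroup P} (h : NM K N) : NM (K.comap f) (N.comap f) where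
  le := Subgroup.comap_mono h.le
  nor := by
    intro g hg n hn
    rw [Subgroup.mem_comap] at hg hn ⊢
    rw [map_mul, map_mul, map_inv]
    exact h.nor _ hg _ hn
  nab := by
    intro h1
    apply h.nab
    have h2 := Subgroup.map_mono (f := f) h1
    rwa [Subgroup.map_commutator, Subgroup.map_comap_eq_self_of_surjective hf,
      Subgroup.map_comap_eq_self_of_surjective hf] at h2
  max := by
    intro L h1 h2 h3
    have hker : f.ker ≤ L := by
      refine le_trans ?_ h1
      intro x hx
      rw [MonoidHom.mem_ker] at hx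
      rw [Subgroup.mem_comap, hx]
      exact N.one_mem
    have hL : (L.map f).comap f = L := Subgroup.comap_map_eq_self hker
    have m1 : N ≤ L.map f := by
      have := Subgroup.map_mono (f := f) h1
      rwa [Subgroup.map_comap_eq_self_of_surjective hf] at this
    have m2 : L.map f ≤ K := by
      have := Subgroup.map_mono (f := f) h2
      rwa [Subgroup.map_comap_eq_self_of_surjective hf] at this
    have m3 : Nor K (L.map f) := by
      rintro k hk _ ⟨l, hl, rfl⟩
      obtain ⟨g, rfl⟩ := hf k
      exact ⟨g * l * g⁻¹, h3 g hk l hl, by simp⟩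
    rcases h.max (L.map f) m1 m2 m3 with h4 | h4
    · left
      rw [← h4, hL]
    · right
      rw [← h4, hL]

/-- One step down the tree. -/
private theorem tree_step (X Y : Type) [MulAction G X] [MulAction G Y] (par : Y → X)
    (hpar : ∀ (g : G) (y : Y), par (g • y) = g • par y) (d : ℕ) (hX : Finite X)
    (hd : ∀ x : X, {y : Y | par y = x}.Finite ∧ Nat.card {y : Y | par y = x} ≤ d)
    {A N : Subgroup G} (h : NM A N) (hAX : ∀ a ∈ A, ∀ x : X, a • x = x)
    (hN : A ⊓ (MulAction.toPermHom G Y).ker ≤ N) : N.relIndex A ≤ d.factorial := by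
  classical
  have := Fintype.ofFinite X
  -- the action of `A` on the fibre
  let S : X → SubMulAction A Y := fun x =>
    { carrier := {y | par y = x}
      smul_mem' := by
        intro a y hy
        simp only [Set.mem_ofPred_eq] at hy ⊢
        have h1 : a • y = (a : G) • y := rfl
        rw [h1, hpar, hAX _ a.2, hy] }
  let F : X → Subgroup G := fun x => (MulAction.toPermHom A (S x)).ker.map A.subtype
  have hF1 : ∀ x, F x ≤ A := by
    rintro x _ ⟨a, _, rfl⟩
    exact a.2
  have hF2 : ∀ x, Nor A (F x) := by
    rintro x g hg _ ⟨a, ha, rfl⟩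
    refine ⟨⟨g, hg⟩ * a * ⟨g, hg⟩⁻¹, ?_, by simp⟩
    exact (inferInstance : (MulAction.toPermHom A (S x)).ker.Normal).conj_mem a ha _
  have hF3 : A ⊓ (Finset.univ : Finset X).inf F ≤ N := by
    refine le_trans ?_ hN
    rintro g ⟨hgA, hg⟩
    refine ⟨hgA, ?_⟩
    show g ∈ (MulAction.toPermHom G Y).ker
    rw [MonoidHom.mem_ker]
    ext y
    have h1 : g ∈ F (par y) := (Finset.inf_le (Finset.mem_univ (par y)) : _ ≤ F (par y)) hg
    obtain ⟨a, ha, rfl⟩ := h1
    rw [SetLike.mem_coe, MonoidHom.mem_ker] at ha
    have h2 := congrArg (fun e => ((e ⟨y, rfl⟩ : S (par y)) : Y)) ha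
    exact h2
  obtain ⟨x, _, hx⟩ := prime_fin h Finset.univ F (fun i _ => ⟨hF1 i, hF2 i⟩) hF3
  have hfin : Finite (S x) := (hd x).1
  have hcard : Nat.card (S x) ≤ d := (hd x).2
  have h4 : (F x).relIndex A = (MulAction.toPermHom A (S x)).ker.index := by
    rw [Subgroup.relIndex]
    congr 1
    exact Subgroup.comap_map_eq_self_of_injective (Subgroup.subtype_injective A) _
  have h5 : (MulAction.toPermHom A (S x)).ker.index ≤ (Nat.card (S x)).factorial := by
    rw [Subgroup.index_ker, ← Nat.card_perm]
    exact Subgroup.card_le_card_group _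
  have h6 : (F x).relIndex A ≠ 0 := by
    rw [h4, Subgroup.index_ker]
    exact Nat.card_pos.ne'
  calc N.relIndex A ≤ (F x).relIndex A := Subgroup.relIndex_le_of_le_left hx h6
    _ ≤ (Nat.card (S x)).factorial := h4 ▸ h5
    _ ≤ d.factorial := Nat.factorial_le hcard

/-- All levels. -/
private theorem tree_main (X : ℕ → Type) [∀ i, MulAction G (X i)]
    (par : ∀ i, X (i + 1) → X i) (hpar : ∀ (i : ℕ) (g : G) (x : X (i + 1)),
      par i (g • x) = g • par i x) (h0 : Subsingleton (X 0)) (d : ℕ) (hfin : ∀ i, Finite (X i))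
    (hd : ∀ (i : ℕ) (x : X i), {y : X (i + 1) | par i y = x}.Finite ∧
      Nat.card {y : X (i + 1) | par i y = x} ≤ d) (i : ℕ) :
    ∀ K N : Subgroup G, NM K N → K ⊓ (MulAction.toPermHom G (X i)).ker ≤ N →
      N.relIndex K ≤ d.factorial := by
  induction i with
  | zero =>
    intro K N h h1
    exfalso
    apply h.nab
    refine (Subgroup.commutator_le_self K).trans (le_trans ?_ h1)
    refine le_inf le_rfl fun g _ => ?_
    rw [MonoidHom.mem_ker]
    ext y
    exact Subsingleton.elim _ _
  | succ i ih =>
    intro K N h h1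
    set A : Subgroup G := K ⊓ (MulAction.toPermHom G (X i)).ker with hA
    by_cases hAN : A ≤ N
    · exact ih K N h hAN
    · have hnA : Nor K A := nor_inf (nor_self K) (nor_of_normal K inferInstance)
      have h2 : NM A (A ⊓ N) := nm_inf h inf_le_left hnA hAN
      have h3 : N.relIndex K = N.relIndex A := relIndex_suppl h inf_le_left hnA hAN
      rw [h3, ← Subgroup.inf_relIndex_left]
      refine tree_step (X i) (X (i + 1)) (par i) (hpar i) d (hfin i) (hd i) h2 ?_ ?_
      · intro a ha x
        have h4 := (Subgroup.mem_inf.1 ha).2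
        rw [MonoidHom.mem_ker] at h4
        have h5 := congrArg (fun e => e x) h4
        simpa using h5
      · refine le_inf inf_le_left ((inf_le_inf_right _ inf_le_left).trans h1)

end TreeAux

/-- Groups acting on a rooted tree of bounded valency: the quotient by the stabiliser of a level is
in the class. `X i` is the level `i`, `par` is the parent map. -/
theorem tree_cls (G : Type) [Group G] (X : ℕ → Type) [∀ i, MulAction G (X i)]
    (par : ∀ i, X (i + 1) → X i) (hpar : ∀ (i : ℕ) (g : G) (x : X (i + 1)),
      par i (g • x) = g • par i x) (h0 : Subsingleton (X 0)) (d : ℕ)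
    (hd : ∀ (i : ℕ) (x : X i), {y : X (i + 1) | par i y = x}.Finite ∧
      Nat.card {y : X (i + 1) | par i y = x} ≤ d)
    (hf : ∀ g : G, g ≠ 1 → ∃ (i : ℕ) (x : X i), g • x ≠ x) :
    ∀ g : G, g ≠ 1 → ∃ (N : Subgroup G) (_ : N.Normal), N.FiniteIndex ∧ g ∉ N ∧
      Cls d.factorial (G ⧸ N) := by
  have hfin : ∀ i, Finite (X i) := by
    intro i
    induction i with
    | zero => exact Finite.of_subsingleton
    | succ i ih =>
      have h1 : (Set.univ : Set (X (i + 1))).Finite := by
        have h2 : (Set.univ : Set (X (i + 1))) = ⋃ x : X i, {y : X (i + 1) | par i y = x} := by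
          ext y
          simp
        rw [h2]
        exact Set.finite_iUnion fun x => (hd i x).1
      exact Set.finite_univ_iff.1 h1
  intro g hg
  obtain ⟨i, x, hx⟩ := hf g hg
  have hfi := hfin i
  refine ⟨(MulAction.toPermHom G (X i)).ker, inferInstance, ⟨?_⟩, ?_, ?_⟩
  · rw [Subgroup.index_ker]
    exact Nat.card_pos.ne'
  · intro h1
    rw [MonoidHom.mem_ker] at h1
    have h2 := congrArg (fun e => e x) h1
    exact hx (by simpa using h2)
  · intro K N hKN
    have hsurj := QuotientGroup.mk'_surjective (MulAction.toPermHom G (X i)).ker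
    have h1 := nm_comap (QuotientGroup.mk' (MulAction.toPermHom G (X i)).ker) hsurj hKN
    have h2 := tree_main X par hpar h0 d hfin hd i _ _ h1 ?_
    · rwa [Subgroup.relIndex_comap, Subgroup.map_comap_eq_self_of_surjective hsurj] at h2
    · refine le_trans inf_le_right ?_
      intro z hz
      rw [Subgroup.mem_comap]
      have h3 : (QuotientGroup.mk' (MulAction.toPermHom G (X i)).ker) z = 1 := by
        rw [QuotientGroup.mk'_apply, QuotientGroup.eq_one_iff]
        exact hz
      rw [h3]
      exact N.one_mem

end Pool.Agent.Helper94.BC
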