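import Pool.Agent.Helper94.BC.Bridge
import Pool.Agent.Helper94.BC.TreeCor

set_option autoImplicit false

open scoped Pointwise

namespace Pool.Agent.Helper94.BC

/-- The two statements of the hand-in, from the theorem for the class `Cls`. -/
theorem all_of_final
    (hfin : ∀ B : ℕ, ∃ c : ℝ, 0 < c ∧ ∀ (G : Type) [Group G] (S : Set G), S.Finite →
      Subgroup.closure S = ⊤ →
      (∃ C : ℝ, 0 < C ∧ ∀ r : ℕ, (Nat.card (Bl S r) : ℝ) ≤ C * Real.exp ((C * r) ^ c)) →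
      (∀ x : G, x ≠ 1 → ∃ (N : Subgroup G) (_ : N.Normal), N.FiniteIndex ∧ x ∉ N ∧
        Cls B (G ⧸ N)) → ∃ H : Subgroup G, H.FiniteIndex ∧ Group.IsNilpotent H) :
    (∀ B : ℕ, ∃ c : ℝ, 0 < c ∧ ∀ (G : Type) [Group G] (S : Set G), S.Finite →
      Subgroup.closure S = ⊤ →
      (∃ C : ℝ, 0 < C ∧ ∀ r : ℕ, (Nat.card ↥((({1} : Set G) ∪ S ∪ S⁻¹) ^ r) : ℝ) ≤
        C * Real.exp ((C * r) ^ c)) →
      (∀ g : G, g ≠ 1 → ∃ (N : Subgroup G) (_ : N.Normal), N.FiniteIndex ∧ g ∉ N ∧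
        ∀ (K : Subgroup (G ⧸ N)) (L : Subgroup K) [L.Normal], IsSimpleGroup (K ⧸ L) →
          (∃ a b : K ⧸ L, a * b ≠ b * a) → Nat.card (K ⧸ L) ≤ B) →
      ∃ H : Subgroup G, H.FiniteIndex ∧ Group.IsNilpotent H) ∧
    (∀ d : ℕ, ∃ c : ℝ, 0 < c ∧ ∀ (G : Type) [Group G] (S : Set G), S.Finite →
      Subgroup.closure S = ⊤ →
      (∃ C : ℝ, 0 < C ∧ ∀ r : ℕ, (Nat.card ↥((({1} : Set G) ∪ S ∪ S⁻¹) ^ r) : ℝ) ≤
        C * Real.exp ((C * r) ^ c)) →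
      ∀ (X : ℕ → Type) [∀ i, MulAction G (X i)] (par : ∀ i, X (i + 1) → X i),
        (∀ (i : ℕ) (g : G) (x : X (i + 1)), par i (g • x) = g • par i x) →
        Subsingleton (X 0) →
        (∀ (i : ℕ) (x : X i), {y : X (i + 1) | par i y = x}.Finite ∧
          Nat.card {y : X (i + 1) | par i y = x} ≤ d) →
        (∀ g : G, g ≠ 1 → ∃ (i : ℕ) (x : X i), g • x ≠ x) →
        ∃ H : Subgroup G, H.FiniteIndex ∧ Group.IsNilpotent H) := by
  refine ⟨fun B => ?_, fun d => ?_⟩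
  · obtain ⟨c, hc, h⟩ := hfin B
    refine ⟨c, hc, fun G _ S hSf hS hgr hres => h G S hSf hS hgr fun g hg => ?_⟩
    obtain ⟨N, hN, hfi, hgN, hsec⟩ := hres g hg
    have : Finite (G ⧸ N) := Subgroup.finite_quotient_of_finiteIndex
    exact ⟨N, hN, hfi, hgN, cls_of_sections B (G ⧸ N) hsec⟩
  · obtain ⟨c, hc, h⟩ := hfin d.factorial
    refine ⟨c, hc, fun G _ S hSf hS hgr X _ par hpar h0 hd hf => h G S hSf hS hgr ?_⟩
    exact tree_cls G X par hpar h0 d hd hf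

end Pool.Agent.Helper94.BC
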