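import Mathlib

set_option autoImplicit false

open scoped Pointwise commutatorElement

namespace Pool.Agent.Helper94.BC

/-- The asymptotic step. -/
theorem asym (γ : ℝ) (h1 : γ < 1 / 3) (c : ℕ) (hc : 1 ≤ c) (gr : ℕ → ℕ)
    (hgr : ∃ r0 : ℕ, ∀ r : ℕ, r0 ≤ r →
      (gr r : ℝ) ≤ Real.exp (Real.exp (Real.log r ^ γ))) :
    ∃ k0 : ℕ, ∀ k : ℕ, 2 ^ k ≤ gr ((c * k) ^ (c * (Nat.log 2 k + 1) ^ 2)) → k ≤ k0 := by
  obtain ⟨r0, hr0⟩ := hgr
  obtain ⟨g, hg0, hg1, hgγ⟩ : ∃ g : ℝ, 0 ≤ g ∧ g < 1 / 3 ∧ γ ≤ g :=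
    ⟨max γ 0, le_max_right _ _, max_lt h1 (by norm_num), le_max_left _ _⟩
  have hc' : (1 : ℝ) ≤ c := by exact_mod_cast hc
  obtain ⟨A, hA⟩ : ∃ A : ℝ, A = (18 * (c : ℝ)) ^ g := ⟨_, rfl⟩
  have t1 : Filter.Tendsto (fun k : ℕ => Real.log (k : ℝ)) Filter.atTop Filter.atTop :=
    Real.tendsto_log_atTop.comp tendsto_natCast_atTop_atTop
  have t2 : Filter.Tendsto (fun x : ℝ => A * x ^ (-(1 - 3 * g))) Filter.atTop (nhds (A * 0)) :=
    (tendsto_rpow_neg_atTop (by linarith)).const_mul A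
  have e1 := (t2.comp t1).eventually (gt_mem_nhds (show A * 0 < 1 / 2 by norm_num))
  have e2 := t1.eventually (Filter.eventually_ge_atTop 2)
  have e3 := Filter.eventually_ge_atTop (α := ℕ) (max r0 (max c 1))
  obtain ⟨N, hN⟩ := Filter.eventually_atTop.1 (e1.and (e2.and e3))
  refine ⟨N, fun k hk => ?_⟩
  by_contra hlt
  push Not at hlt
  obtain ⟨h2, h3, h4⟩ := hN k hlt.le
  simp only [Function.comp] at h2
  have hkr : r0 ≤ k := (le_max_left _ _).trans h4
  have hkc : c ≤ k := ((le_max_left _ _).trans (le_max_right _ _)).trans h4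
  have hk1 : 1 ≤ k := ((le_max_right _ _).trans (le_max_right _ _)).trans h4
  have hk0 : (0 : ℝ) < k := by exact_mod_cast hk1
  set L : ℝ := Real.log k with hL
  have hLpos : 0 < L := by linarith
  set e : ℕ := c * (Nat.log 2 k + 1) ^ 2 with he
  have he1 : 1 ≤ e := Nat.one_le_iff_ne_zero.2 (by positivity)
  have hck : 1 ≤ c * k := Nat.one_le_iff_ne_zero.2 (by positivity)
  have hr1 : k ≤ (c * k) ^ e := by
    calc k = 1 * k := (one_mul k).symm
      _ ≤ c * k := Nat.mul_le_mul_right k hc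
      _ = (c * k) ^ 1 := (pow_one _).symm
      _ ≤ (c * k) ^ e := Nat.pow_le_pow_right hck he1
  have h5 := hr0 ((c * k) ^ e) (hkr.trans hr1)
  set R : ℝ := (((c * k) ^ e : ℕ) : ℝ) with hR
  have hlog2 : (1 : ℝ) / 2 ≤ Real.log 2 := by
    have := Real.log_two_gt_d9
    linarith
  -- bound for `Nat.log 2 k`
  have h6 : ((Nat.log 2 k : ℕ) : ℝ) ≤ 2 * L := by
    have h7 : (2 : ℝ) ^ (Nat.log 2 k) ≤ k := by exact_mod_cast Nat.pow_log_le_self 2 (by omega)
    have h8 := Real.log_le_log (by positivity) h7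
    rw [Real.log_pow] at h8
    have h9 : ((Nat.log 2 k : ℕ) : ℝ) * (1 / 2) ≤ ((Nat.log 2 k : ℕ) : ℝ) * Real.log 2 :=
      mul_le_mul_of_nonneg_left hlog2 (Nat.cast_nonneg _)
    linarith
  have h7 : Real.log ((c * k : ℕ) : ℝ) ≤ 2 * L := by
    rw [Nat.cast_mul, Real.log_mul (by positivity) (by positivity)]
    have : Real.log c ≤ L := Real.log_le_log (by positivity) (by exact_mod_cast hkc)
    linarith
  have h7' : 0 ≤ Real.log ((c * k : ℕ) : ℝ) := Real.log_nonneg (by exact_mod_cast hck)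
  have h8 : Real.log R ≤ 18 * c * L ^ 3 := by
    rw [hR, Nat.cast_pow, Real.log_pow, he]
    push_cast
    have h9 : ((Nat.log 2 k : ℕ) : ℝ) + 1 ≤ 3 * L := by linarith
    have h10 : (((Nat.log 2 k : ℕ) : ℝ) + 1) ^ 2 ≤ (3 * L) ^ 2 :=
      pow_le_pow_left₀ (by positivity) h9 2
    have h11 : (c : ℝ) * (((Nat.log 2 k : ℕ) : ℝ) + 1) ^ 2 ≤ c * (3 * L) ^ 2 :=
      mul_le_mul_of_nonneg_left h10 (by positivity)
    have h12 := h7
    have h12' := h7'
    push_cast at h12 h12'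
    calc (c : ℝ) * (((Nat.log 2 k : ℕ) : ℝ) + 1) ^ 2 * Real.log ((c : ℝ) * k)
        ≤ c * (3 * L) ^ 2 * (2 * L) := mul_le_mul h11 h12 h12' (by positivity)
      _ = 18 * c * L ^ 3 := by ring
  have hRk : (k : ℝ) ≤ R := by
    rw [hR]
    exact_mod_cast hr1
  have h9 : 1 ≤ Real.log R := by
    have : L ≤ Real.log R := Real.log_le_log hk0 hRk
    linarith
  have h10 : Real.log R ^ γ ≤ L / 2 := by
    calc Real.log R ^ γ ≤ Real.log R ^ g := Real.rpow_le_rpow_of_exponent_le h9 hgγ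
      _ ≤ (18 * c * L ^ 3) ^ g := Real.rpow_le_rpow (by linarith) h8 hg0
      _ = A * L ^ (3 * g) := by
          rw [Real.mul_rpow (by positivity) (by positivity), hA, ← Real.rpow_natCast L 3,
            ← Real.rpow_mul hLpos.le]
          norm_num
      _ = A * L ^ (-(1 - 3 * g)) * L := by
          rw [mul_assoc]
          congr 1
          conv_rhs => rw [← Real.rpow_one L, ← Real.rpow_mul hLpos.le, ← Real.rpow_add hLpos]
          congr 1
          ring
      _ ≤ L / 2 := by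
          have := mul_le_mul_of_nonneg_right h2.le hLpos.le
          linarith
  have h11 : (2 : ℝ) ^ k ≤ Real.exp (Real.exp (L / 2)) := by
    calc (2 : ℝ) ^ k ≤ (gr ((c * k) ^ e) : ℝ) := by exact_mod_cast hk
      _ ≤ Real.exp (Real.exp (Real.log R ^ γ)) := h5
      _ ≤ Real.exp (Real.exp (L / 2)) := Real.exp_le_exp.2 (Real.exp_le_exp.2 h10)
  have h12 : (k : ℝ) * Real.log 2 ≤ Real.exp (L / 2) := by
    have := Real.log_le_log (by positivity) h11
    rwa [Real.log_pow, Real.log_exp] at this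
  have h13 : (k : ℝ) = Real.exp (L / 2) * Real.exp (L / 2) := by
    rw [← Real.exp_add, add_halves, hL, Real.exp_log hk0]
  have h14 : 2 ≤ Real.exp (L / 2) := by
    have := Real.add_one_le_exp (L / 2)
    linarith
  rw [h13] at h12
  have h15 := Real.log_two_gt_d9
  nlinarith [mul_le_mul_of_nonneg_left h14 (by linarith : (0 : ℝ) ≤ Real.exp (L / 2)),
    mul_pos (show (0 : ℝ) < Real.exp (L / 2) by linarith)
      (show (0 : ℝ) < Real.log 2 by linarith)]

end Pool.Agent.Helper94.BC
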