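import Pool.Agent.Helper94.BC.Defs
import Pool.Agent.Helper52.BC.Blk

set_option autoImplicit false

open scoped Pointwise commutatorElement

namespace Pool.Agent.Helper94.BC

open Pool.Agent.Helper52.BC

/-- The largest subgroup of `Y` normalised by `Z` (for `Y ≤ Z`). -/
def coreIn {G : Type} [Group G] (Z Y : Subgroup G) : Subgroup G where
  carrier := {x | ∀ z ∈ Z, z * x * z⁻¹ ∈ Y}
  mul_mem' := by
    intro x y hx hy z hz
    have e : z * (x * y) * z⁻¹ = (z * x * z⁻¹) * (z * y * z⁻¹) := by group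
    rw [e]; exact Y.mul_mem (hx z hz) (hy z hz)
  one_mem' := fun z _ => by
    have e : z * 1 * z⁻¹ = 1 := by group
    rw [e]; exact Y.one_mem
  inv_mem' := by
    intro x hx z hz
    have e : z * x⁻¹ * z⁻¹ = (z * x * z⁻¹)⁻¹ := by group
    rw [e]; exact Y.inv_mem (hx z hz)

theorem mem_coreIn {G : Type} [Group G] {Z Y : Subgroup G} {x : G} : x ∈ coreIn Z Y ↔ ∀ z ∈ Z, z * x * z⁻¹ ∈ Y := Iff.rfl

theorem coreIn_le {G : Type} [Group G] (Z Y : Subgroup G) : coreIn Z Y ≤ Y := by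
  intro x hx
  have := hx 1 Z.one_mem
  simpa using this

theorem coreIn_nor {G : Type} [Group G] (Z Y : Subgroup G) : Nor Z (coreIn Z Y) := by
  intro h hh n hn z hz
  have e : z * (h * n * h⁻¹) * z⁻¹ = (z * h) * n * (z * h)⁻¹ := by group
  rw [e]; exact hn _ (Z.mul_mem hz hh)

/-- Arithmetic of the block lemma. -/
theorem block_arith (b w e : ℕ) (hb : 2 ≤ b) (hw : 1 ≤ w) (h : w ≤ b ^ (e + 1)) :
    w ^ Nat.log 2 w * b ≤ 2 ^ ((4 * (e + 1) ^ 2 + 2) * Nat.log 2 b ^ 2) := by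
  set l := Nat.log 2 b with hl
  have hl1 : 1 ≤ l := by
    rw [hl]; exact (Nat.le_log_iff_pow_le one_lt_two (by omega)).2 (by simpa using hb)
  have hb2 : b ≤ 2 ^ (2 * l) := by
    have h1 : b < 2 ^ (l + 1) := Nat.lt_pow_succ_log_self one_lt_two b
    exact h1.le.trans (Nat.pow_le_pow_right (by norm_num) (by omega))
  have hw2 : w ≤ 2 ^ (2 * l * (e + 1)) := by
    calc w ≤ b ^ (e + 1) := h
      _ ≤ (2 ^ (2 * l)) ^ (e + 1) := Nat.pow_le_pow_left hb2 _
      _ = 2 ^ (2 * l * (e + 1)) := by rw [← pow_mul]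
  have hlw : Nat.log 2 w ≤ 2 * l * (e + 1) := by
    calc Nat.log 2 w ≤ Nat.log 2 (2 ^ (2 * l * (e + 1))) := Nat.log_mono_right hw2
      _ = 2 * l * (e + 1) := Nat.log_pow one_lt_two _
  calc w ^ Nat.log 2 w * b ≤ (2 ^ (2 * l * (e + 1))) ^ (2 * l * (e + 1)) * 2 ^ (2 * l) := by
        refine Nat.mul_le_mul ?_ hb2
        exact (Nat.pow_le_pow_left hw2 _).trans (Nat.pow_le_pow_right (by positivity) hlw)
    _ = 2 ^ (2 * l * (e + 1) * (2 * l * (e + 1)) + 2 * l) := by rw [← pow_mul, ← pow_add]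
    _ ≤ 2 ^ ((4 * (e + 1) ^ 2 + 2) * l ^ 2) := by
        refine Nat.pow_le_pow_right (by norm_num) ?_
        nlinarith [Nat.mul_le_mul hl1 (le_refl l)]

/-- A finite group of the class: above every proper subgroup `Y` there is `Z > Y` such that the
group induced by `Z` on `Z / Y` has order at most `2 ^ (c (log₂ [Z : Y])²)`. -/
theorem block (B : ℕ) : ∃ c : ℕ, ∀ (G : Type) [Group G] [Finite G], Cls B G →
    ∀ Y : Subgroup G, Y ≠ ⊤ → ∃ Z Y0 : Subgroup G, Y < Z ∧ Y0 ≤ Y ∧ Nor Z Y0 ∧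
      Y0.relIndex Z ≤ 2 ^ (c * Nat.log 2 (Y.relIndex Z) ^ 2) := by
  refine ⟨4 * (B + 1 + 1) ^ 2 + 2, fun G _ _ hcls0 Y hY => ?_⟩
  have hcls : Cls (B + 1) G := fun K N h => (hcls0 K N h).trans (Nat.le_succ B)
  have hBe : B + 1 ≤ 2 ^ (B + 1) := Nat.lt_two_pow_self.le
  set K0 := Y.normalCore with hK0
  have hK0n : K0.Normal := Subgroup.normalCore_normal Y
  have hK0Y : K0 ≤ Y := Subgroup.normalCore_le Y
  obtain ⟨V, hVn, hKV, hVm⟩ : ∃ V : Subgroup G, V.Normal ∧ K0 < V ∧ ∀ M : Subgroup G, M.Normal → K0 ≤ M → M ≤ V → M = K0 ∨ M = V := by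
    have hfin : {M : Subgroup G | M.Normal ∧ K0 < M}.Finite := Set.toFinite _
    have hne : {M : Subgroup G | M.Normal ∧ K0 < M}.Nonempty :=
      ⟨⊤, inferInstance, lt_of_le_of_lt hK0Y (lt_top_iff_ne_top.2 hY)⟩
    obtain ⟨T, hT⟩ := hfin.exists_minimal hne
    refine ⟨T, hT.1.1, hT.1.2, fun M hM h1 h2 => ?_⟩
    by_cases h0 : M = K0
    · exact Or.inl h0
    · exact Or.inr (le_antisymm h2 (hT.2 ⟨hM, lt_of_le_of_ne h1 (Ne.symm h0)⟩ h2))
  have hVY : ¬ V ≤ Y := fun h => absurd (Subgroup.normal_le_normalCore.2 h) (not_le_of_gt hKV)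
  set Z := Y ⊔ V with hZ
  have hYZ : Y < Z := lt_of_le_of_ne le_sup_left fun h => hVY (by rw [h]; exact le_sup_right)
  have hVZ : V ≤ Z := le_sup_right
  set Y0 := coreIn Z Y with hY0
  have hY0Y : Y0 ≤ Y := coreIn_le Z Y
  have hnor : Nor Z Y0 := coreIn_nor Z Y
  have hK0Y0 : K0 ≤ Y0 := fun x hx z _ => hK0Y (hK0n.conj_mem x hx z)
  refine ⟨Z, Y0, hYZ, hY0Y, hnor, ?_⟩
  -- the criterion for Y0
  have hcrit : ∀ x : G, (∀ v ∈ V, v * x * v⁻¹ ∈ Y) → x ∈ Y0 := by
    intro x hx z hz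
    obtain ⟨y, hy, v, hv, rfl⟩ := Subgroup.mem_sup_of_normal_right.1 (show z ∈ Y ⊔ V from hz)
    have e : y * v * x * (y * v)⁻¹ = y * (v * x * v⁻¹) * y⁻¹ := by group
    rw [e]; exact Y.mul_mem (Y.mul_mem hy (hx v hv)) (Y.inv_mem hy)
  set N2 := Y0.subgroupOf V with hN2
  have hN2n : N2.Normal := ⟨fun n hn g => by
    rw [hN2, Subgroup.mem_subgroupOf] at hn ⊢
    exact hnor g (hVZ g.2) n hn⟩
  set f2 := QuotientGroup.mk' N2 with hf2
  have hf2s : Function.Surjective f2 := QuotientGroup.mk'_surjective N2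
  have hker2 : f2.ker = N2 := QuotientGroup.ker_mk' N2
  set Yw := (Y.subgroupOf V).map f2 with hYw
  have hN2Y : N2 ≤ Y.subgroupOf V := fun x hx => Subgroup.mem_subgroupOf.2 (hY0Y (Subgroup.mem_subgroupOf.1 hx))
  have hcomapYw : Yw.comap f2 = Y.subgroupOf V := Subgroup.comap_map_eq_self (by rw [hker2]; exact hN2Y)
  have hcore : Yw.normalCore = ⊥ := by
    rw [eq_bot_iff]
    intro q hq
    obtain ⟨x, rfl⟩ := hf2s q
    rw [Subgroup.mem_bot]
    have : (x : G) ∈ Y0 := by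
      refine hcrit x fun v hv => ?_
      have h1 : f2 ⟨v, hv⟩ * f2 x * (f2 ⟨v, hv⟩)⁻¹ ∈ Yw := hq (f2 ⟨v, hv⟩)
      rw [← map_mul, ← map_inv, ← map_mul] at h1
      have h2 : (⟨v, hv⟩ : V) * x * (⟨v, hv⟩ : V)⁻¹ ∈ Yw.comap f2 := h1
      rw [hcomapYw] at h2
      exact Subgroup.mem_subgroupOf.1 h2
    exact (QuotientGroup.eq_one_iff x).2 (Subgroup.mem_subgroupOf.2 this)
  set b := Y.relIndex Z with hb
  have hb0 : b ≠ 0 := relIndex_ne _ _
  have hb2 : 2 ≤ b := by
    have : b ≠ 1 := fun h => absurd (Subgroup.relIndex_eq_one.1 h) (not_le_of_gt hYZ)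
    omega
  have hYwi : Yw.index ≤ b := by
    have h1 : Yw.index = Y.relIndex V := by
      rw [← Subgroup.index_comap_of_surjective _ hf2s, hcomapYw]; rfl
    rw [h1]
    exact Subgroup.relIndex_le_of_le_right hVZ hb0
  have hW : Nat.card (V ⧸ N2) ≤ b ^ (B + 1 + 1) := by
    set V' := V.map (QuotientGroup.mk' K0) with hV'
    by_cases hab : ∀ a ∈ V', ∀ c ∈ V', a * c = c * a
    · -- abelian case
      have hYwb : Yw = ⊥ := by
        rw [eq_bot_iff, ← hcore]
        intro q hq r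
        obtain ⟨x, rfl⟩ := hf2s q
        obtain ⟨v, rfl⟩ := hf2s r
        have h1 := hab (QuotientGroup.mk' K0 v) ⟨v, v.2, rfl⟩ (QuotientGroup.mk' K0 x) ⟨x, x.2, rfl⟩
        have h2 : ((v : G) * x)⁻¹ * (x * v) ∈ K0 := by
          have h3 : ((v * x : G) : G ⧸ K0) = ((x * v : G) : G ⧸ K0) := by
            rw [QuotientGroup.mk_mul, QuotientGroup.mk_mul]; exact h1
          exact QuotientGroup.eq.1 h3
        have h3 : f2 v * f2 x = f2 x * f2 v := by
          rw [← map_mul, ← map_mul]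
          exact QuotientGroup.eq.2 (Subgroup.mem_subgroupOf.2 (hK0Y0 h2))
        rw [h3, mul_inv_cancel_right]
        exact hq
      rw [hYwb, Subgroup.index_bot] at hYwi
      refine hYwi.trans ?_
      calc b = b ^ 1 := (pow_one b).symm
        _ ≤ b ^ (B + 1 + 1) := Nat.pow_le_pow_right (by omega) (by omega)
    · -- non-abelian case
      have hV'n : V'.Normal := hVn.map _ (QuotientGroup.mk'_surjective K0)
      have hcomapV' : V'.comap (QuotientGroup.mk' K0) = V :=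
        Subgroup.comap_map_eq_self (by rw [QuotientGroup.ker_mk']; exact hKV.le)
      have hCR : CR V' := by
        refine cr_of_minimal V' ?_ hab
        intro N hN hNV
        have h1 := hVm (N.comap (QuotientGroup.mk' K0)) inferInstance (by
          conv_lhs => rw [← QuotientGroup.ker_mk' K0]
          exact (QuotientGroup.mk' K0).ker_le_comap N) (by
          rw [← hcomapV']; exact Subgroup.comap_mono hNV)
        have h2 := Subgroup.map_comap_eq_self_of_surjective (QuotientGroup.mk'_surjective K0) N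
        rcases h1 with h1 | h1
        · left
          rw [← h2, h1, QuotientGroup.map_mk'_self]
        · right
          rw [← h2, h1]
      have hf1s : Function.Surjective ((QuotientGroup.mk' K0).subgroupMap V) := MonoidHom.subgroupMap_surjective _ _
      have hle : ((QuotientGroup.mk' K0).subgroupMap V).ker ≤ f2.ker := by
        intro x hx
        rw [hker2, hN2, Subgroup.mem_subgroupOf]
        apply hK0Y0
        rw [MonoidHom.mem_ker] at hx
        have := congrArg Subtype.val hx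
        exact (QuotientGroup.eq_one_iff (x : G)).1 this
      set g := ((QuotientGroup.mk' K0).subgroupMap V).liftOfSurjective hf1s ⟨f2, hle⟩ with hg
      have hgs : Function.Surjective g := by
        intro q
        obtain ⟨x, rfl⟩ := hf2s q
        refine ⟨(QuotientGroup.mk' K0).subgroupMap V x, ?_⟩
        rw [hg]
        exact MonoidHom.liftOfRightInverse_comp_apply _ _ _ ⟨f2, hle⟩ x
      have hCRW : CR (V ⧸ N2) := hCR.of_surjective g hgs
      have hclsW : Cls (B + 1) (V ⧸ N2) := cls_surj (cls_subgroup hcls V) f2 hf2s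
      have := card_le_index_pow (B + 1) (B + 1) hBe _ (V ⧸ N2) rfl hCRW (hCRW.chiefLe' (by omega) hclsW) Yw hcore
      exact this.trans (Nat.pow_le_pow_left hYwi _)
  -- the action of Y
  have hmapN2 : ∀ y : Y, N2.map (MulAut.conjNormal (H := V) (y : G)).toMonoidHom = N2 := by
    intro y
    have hy : (y : G) ∈ Z := hYZ.le y.2
    ext x
    constructor
    · rintro ⟨n, hn, rfl⟩
      rw [hN2, Subgroup.mem_subgroupOf]
      have := hnor y hy n (Subgroup.mem_subgroupOf.1 hn)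
      simpa [MulAut.conjNormal_apply] using this
    · intro hx
      refine ⟨(MulAut.conjNormal (H := V) (y : G)).symm x, ?_, ?_⟩
      · show (MulAut.conjNormal (H := V) (y : G)).symm x ∈ N2
        rw [hN2, Subgroup.mem_subgroupOf]
        have := hnor (y : G)⁻¹ (Z.inv_mem hy) x (Subgroup.mem_subgroupOf.1 hx)
        simpa [MulAut.conjNormal_symm_apply] using this
      · exact (MulAut.conjNormal (H := V) (y : G)).apply_symm_apply x
  set F : Y → MulAut (V ⧸ N2) := fun y => QuotientGroup.congr N2 N2 (MulAut.conjNormal (H := V) (y : G)) (hmapN2 y) with hF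
  have hFv : ∀ (y : Y) (v : V), F y (f2 v) = f2 (MulAut.conjNormal (H := V) (y : G) v) := fun y v => rfl
  have hFinj : ∀ y y' : Y, F y = F y' → y⁻¹ * y' ∈ Y0.subgroupOf Y := by
    intro y y' h
    rw [Subgroup.mem_subgroupOf]
    refine hcrit _ fun v hv => ?_
    have h1 : f2 (MulAut.conjNormal (H := V) (y : G) ⟨v, hv⟩⁻¹) = f2 (MulAut.conjNormal (H := V) (y' : G) ⟨v, hv⟩⁻¹) := by
      rw [← hFv, ← hFv, h]
    have h2 := Subgroup.mem_subgroupOf.1 (QuotientGroup.eq.1 h1)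
    have h3 : (y : G) * v * (y : G)⁻¹ * (y' * v⁻¹ * (y' : G)⁻¹) ∈ Y0 := by
      simpa [MulAut.conjNormal_apply, mul_assoc] using h2
    have h4 := hnor (y : G)⁻¹ (Z.inv_mem (hYZ.le y.2)) _ h3
    have h5 : v * ((y : G)⁻¹ * y') * v⁻¹ = ((y : G)⁻¹ * ((y : G) * v * (y : G)⁻¹ * (y' * v⁻¹ * (y' : G)⁻¹)) * (y : G)⁻¹⁻¹) * ((y : G)⁻¹ * y') := by
      group
    have h6 : v * ((y⁻¹ * y' : Y) : G) * v⁻¹ ∈ Y := by
      show v * ((y : G)⁻¹ * y') * v⁻¹ ∈ Y
      rw [h5]
      exact Y.mul_mem (hY0Y h4) (Y.mul_mem (Y.inv_mem y.2) y'.2)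
    exact h6
  have hYY0 : Y0.relIndex Y ≤ Nat.card (MulAut (V ⧸ N2)) := by
    have h1 : Y0.relIndex Y = Nat.card (Y ⧸ Y0.subgroupOf Y) := rfl
    rw [h1]
    refine Nat.card_le_card_of_injective (fun q => F q.out) ?_
    intro q r h
    have := hFinj _ _ h
    rw [← QuotientGroup.out_eq' q, ← QuotientGroup.out_eq' r]
    exact QuotientGroup.eq.2 this
  have hmul : Y0.relIndex Z = Y0.relIndex Y * b := by
    rw [hb, Subgroup.relIndex_mul_relIndex Y0 Y Z hY0Y hYZ.le]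
  rw [hmul]
  have hpos : 1 ≤ Nat.card (V ⧸ N2) := Nat.card_pos
  calc Y0.relIndex Y * b ≤ Nat.card (V ⧸ N2) ^ Nat.log 2 (Nat.card (V ⧸ N2)) * b :=
        Nat.mul_le_mul (hYY0.trans (card_mulAut_le _)) le_rfl
    _ ≤ _ := block_arith b _ (B + 1) hb2 hpos hW

end Pool.Agent.Helper94.BC
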