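import Pool.Agent.Helper94.BC.Defs

set_option autoImplicit false

open scoped Pointwise commutatorElement

namespace Pool.Agent.Helper94.BC

theorem subgroupOf_normal_of_nor {H : Type} [Group H] {K N : Subgroup H} (h : Nor K N) :
    (N.subgroupOf K).Normal := by
  refine ⟨fun n hn g => ?_⟩
  rw [Subgroup.mem_subgroupOf] at hn ⊢
  exact h g g.2 n hn

theorem simple_of_nm {H : Type} [Group H] {K N : Subgroup H} (h : NM K N) :
    ∃ _ : (N.subgroupOf K).Normal, IsSimpleGroup (K ⧸ N.subgroupOf K) ∧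
      ∃ a b : K ⧸ N.subgroupOf K, a * b ≠ b * a := by
  have hn : (N.subgroupOf K).Normal := subgroupOf_normal_of_nor h.nor
  refine ⟨hn, ?_, ?_⟩
  · have hnt : Nontrivial (K ⧸ N.subgroupOf K) := by
      rw [QuotientGroup.nontrivial_iff]
      intro h1
      apply h.nab
      rw [Subgroup.subgroupOf_eq_top] at h1
      exact (Subgroup.commutator_le_self K).trans h1
    refine ⟨fun M hM => ?_⟩
    have h1 : N ≤ (M.comap (QuotientGroup.mk' (N.subgroupOf K))).map K.subtype := by
      intro n hn'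
      refine ⟨⟨n, h.le hn'⟩, ?_, rfl⟩
      show QuotientGroup.mk' (N.subgroupOf K) ⟨n, h.le hn'⟩ ∈ M
      have : QuotientGroup.mk' (N.subgroupOf K) ⟨n, h.le hn'⟩ = 1 :=
        (QuotientGroup.eq_one_iff _).2 (Subgroup.mem_subgroupOf.2 hn')
      rw [this]
      exact M.one_mem
    have h2 : (M.comap (QuotientGroup.mk' (N.subgroupOf K))).map K.subtype ≤ K := by
      rintro _ ⟨x, -, rfl⟩
      exact x.2
    have h3 : Nor K ((M.comap (QuotientGroup.mk' (N.subgroupOf K))).map K.subtype) := by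
      rintro g hg _ ⟨x, hx, rfl⟩
      have hc : (M.comap (QuotientGroup.mk' (N.subgroupOf K))).Normal := inferInstance
      exact ⟨⟨g, hg⟩ * x * ⟨g, hg⟩⁻¹, hc.conj_mem x hx _, rfl⟩
    have h5 : ∀ x : K, (x : H) ∈ (M.comap (QuotientGroup.mk' (N.subgroupOf K))).map K.subtype →
        QuotientGroup.mk' (N.subgroupOf K) x ∈ M := by
      rintro x ⟨y, hy, hyx⟩
      have : y = x := Subtype.ext hyx
      rw [← this]
      exact hy
    rcases h.max _ h1 h2 h3 with h4 | h4
    · left
      rw [eq_bot_iff]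
      intro q hq
      obtain ⟨x, rfl⟩ := QuotientGroup.mk'_surjective (N.subgroupOf K) q
      rw [Subgroup.mem_bot]
      refine (QuotientGroup.eq_one_iff _).2 (Subgroup.mem_subgroupOf.2 ?_)
      rw [← h4]
      exact ⟨x, hq, rfl⟩
    · right
      rw [eq_top_iff]
      intro q _
      obtain ⟨x, rfl⟩ := QuotientGroup.mk'_surjective (N.subgroupOf K) q
      exact h5 x (h4.symm ▸ x.2)
  · by_contra hcon
    push Not at hcon
    apply h.nab
    rw [Subgroup.commutator_le]
    intro x hx y hy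
    have h1 := hcon (QuotientGroup.mk' _ ⟨x, hx⟩) (QuotientGroup.mk' _ ⟨y, hy⟩)
    have h2 : QuotientGroup.mk' (N.subgroupOf K) ⁅(⟨x, hx⟩ : K), ⟨y, hy⟩⁆ = 1 := by
      rw [map_commutatorElement]
      exact commutatorElement_eq_one_iff_mul_comm.2 h1
    have h3 := (QuotientGroup.eq_one_iff _).1 h2
    exact Subgroup.mem_subgroupOf.1 h3

/-- The class in terms of quotient groups. -/
theorem cls_of_sections (B : ℕ) (H : Type) [Group H] [Finite H]
    (h : ∀ (K : Subgroup H) (L : Subgroup K) [L.Normal], IsSimpleGroup (K ⧸ L) →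
      (∃ a b : K ⧸ L, a * b ≠ b * a) → Nat.card (K ⧸ L) ≤ B) : Cls B H := by
  intro K N hN
  obtain ⟨hn, hs, hab⟩ := simple_of_nm hN
  exact h K (N.subgroupOf K) hs hab

end Pool.Agent.Helper94.BC
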