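import Pool.Agent.Helper94.BC.Defs

set_option autoImplicit false

open scoped Pointwise commutatorElement

namespace Pool.Agent.Helper94.BC

/-- The subgroup of the products of an element of `K` and a power of `x`, when `K` contains the
commutators of `H` and `x` is in `H`. -/
private def ext {P : Type} [Group P] (H K : Subgroup P) (hK : ⁅H, H⁆ ≤ K) (hKH : K ≤ H) (x : P)
    (hx : x ∈ H) : Subgroup P where
  carrier := {g | ∃ k ∈ K, ∃ n : ℤ, g = k * x ^ n}
  mul_mem' := by
    rintro _ _ ⟨k, hk, n, rfl⟩ ⟨l, hl, m, rfl⟩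
    refine ⟨k * (⁅x ^ n, l⁆ * l), K.mul_mem hk (K.mul_mem (hK
      (Subgroup.commutator_mem_commutator (H.zpow_mem hx n) (hKH hl))) hl), n + m, ?_⟩
    rw [zpow_add, commutatorElement_def]
    group
  one_mem' := ⟨1, K.one_mem, 0, by simp⟩
  inv_mem' := by
    rintro _ ⟨k, hk, n, rfl⟩
    refine ⟨⁅x ^ (-n), k⁻¹⁆ * k⁻¹, K.mul_mem (hK (Subgroup.commutator_mem_commutator
      (H.zpow_mem hx _) (H.inv_mem (hKH hk)))) (K.inv_mem hk), -n, ?_⟩
    rw [commutatorElement_def]
    group

/-- Diameter of the abelian layer. -/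
theorem diamP {P : Type} [Group P] [Finite P] (p : ℕ) (hp : 1 ≤ p) (H : Subgroup P)
    (X : Set P) (hXH : Subgroup.closure X = H) (m : ℕ) (hm : Nat.card H ≤ 2 ^ m) :
    ∀ h ∈ H, ∃ y ∈ Bl X (m * p), h * y⁻¹ ∈ PhiP p H := by
  have hcomm : ⁅H, H⁆ ≤ PhiP p H := le_sup_left
  have hpow : ∀ x ∈ H, x ^ p ∈ PhiP p H := fun x hx =>
    (le_sup_right : Subgroup.closure {x : P | ∃ h ∈ H, x = h ^ p} ≤ PhiP p H)
      (Subgroup.subset_closure ⟨x, hx, rfl⟩)
  have key : ∀ n : ℕ, ∀ (K : Subgroup P) (j : ℕ), PhiP p H ≤ K → K ≤ H → 2 ^ j ≤ Nat.card K →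
      (∀ k ∈ K, ∃ y ∈ Bl X (j * p), k * y⁻¹ ∈ PhiP p H) → Nat.card H - Nat.card K ≤ n →
      ∀ h ∈ H, ∃ y ∈ Bl X (m * p), h * y⁻¹ ∈ PhiP p H := by
    intro n
    induction n with
    | zero =>
      intro K j h1 h2 h3 h4 h5 h hh
      have hc : Nat.card H ≤ Nat.card K := by omega
      have hKH : K = H := Subgroup.eq_of_le_of_card_ge h2 hc
      subst hKH
      obtain ⟨y, hy, hy'⟩ := h4 h hh
      have hjm : j ≤ m := by
        have : 2 ^ j ≤ 2 ^ m := h3.trans hm
        exact (Nat.pow_le_pow_iff_right (by norm_num)).1 this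
      exact ⟨y, bl_mono X (Nat.mul_le_mul_right p hjm) hy, hy'⟩
    | succ n ih =>
      intro K j h1 h2 h3 h4 h5
      by_cases hX : X ⊆ K
      · have hKH : K = H := le_antisymm h2 (by rw [← hXH, Subgroup.closure_le]; exact hX)
        subst hKH
        intro h hh
        obtain ⟨y, hy, hy'⟩ := h4 h hh
        have hjm : j ≤ m := by
          have : 2 ^ j ≤ 2 ^ m := h3.trans hm
          exact (Nat.pow_le_pow_iff_right (by norm_num)).1 this
        exact ⟨y, bl_mono X (Nat.mul_le_mul_right p hjm) hy, hy'⟩
      · obtain ⟨x, hxX, hxK⟩ := Set.not_subset.1 hX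
        have hxH : x ∈ H := by
          rw [← hXH]
          exact Subgroup.subset_closure hxX
        obtain ⟨L, hL⟩ : ∃ L : Subgroup P, L = ext H K (hcomm.trans h1) h2 x hxH := ⟨_, rfl⟩
        have hKL : K ≤ L := by
          intro k hk
          rw [hL]
          exact ⟨k, hk, 0, by simp⟩
        have hxL : x ∈ L := by
          rw [hL]
          exact ⟨1, K.one_mem, 1, by simp⟩
        have hLH : L ≤ H := by
          rw [hL]
          rintro _ ⟨k, hk, n, rfl⟩
          exact H.mul_mem (h2 hk) (H.zpow_mem hxH n)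
        have hdvd : Nat.card K ∣ Nat.card L := Subgroup.card_dvd_of_le hKL
        have hne : Nat.card K ≠ Nat.card L := by
          intro he
          apply hxK
          have hKL2 : K = L := Subgroup.eq_of_le_of_card_ge hKL he.ge
          rw [hKL2]
          exact hxL
        have hKpos : 0 < Nat.card K := Nat.card_pos
        have hLpos : 0 < Nat.card L := Nat.card_pos
        have hLHc : Nat.card L ≤ Nat.card H := Nat.le_of_dvd Nat.card_pos
          (Subgroup.card_dvd_of_le hLH)
        have h2K : 2 * Nat.card K ≤ Nat.card L := by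
          obtain ⟨c, hc⟩ := hdvd
          have hc2 : 2 ≤ c := by
            rcases c with _ | _ | c
            · simp at hc
              omega
            · exfalso
              apply hne
              rw [hc]
              ring
            · omega
          rw [hc, mul_comm]
          exact Nat.mul_le_mul_left _ hc2
        refine ih L (j + 1) (h1.trans hKL) hLH ?_ ?_ (by omega)
        · calc 2 ^ (j + 1) = 2 * 2 ^ j := by ring
            _ ≤ 2 * Nat.card K := Nat.mul_le_mul_left 2 h3
            _ ≤ Nat.card L := h2K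
        · intro g hg
          rw [hL] at hg
          obtain ⟨k, hk, n, rfl⟩ := hg
          obtain ⟨a, ha⟩ : ∃ a : ℕ, (a : ℤ) = n % p :=
            ⟨(n % p).toNat, Int.toNat_of_nonneg (Int.emod_nonneg n (by omega))⟩
          have hap : a < p := by
            have := Int.emod_lt_of_pos n (show (0 : ℤ) < p by omega)
            omega
          have hn : n = p * (n / p) + a := by
            rw [ha]
            exact (Int.mul_ediv_add_emod n p).symm
          have hxn : x ^ n = (x ^ p) ^ (n / p) * x ^ a := by
            conv_lhs => rw [hn]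
            rw [zpow_add, zpow_mul, zpow_natCast, zpow_natCast]
          obtain ⟨y, hy, hy'⟩ := h4 (k * (x ^ p) ^ (n / p))
            (K.mul_mem hk (K.zpow_mem (h1 (hpow x hxH)) _))
          refine ⟨y * x ^ a, ?_, ?_⟩
          · have hxa : x ^ a ∈ Bl X a := by
              have := Set.pow_mem_pow (n := a) (show x ∈ (({1} : Set P) ∪ X ∪ X⁻¹) from
                Or.inl (Or.inr hxX))
              exact this
            have := mul_mem_bl hy hxa
            refine bl_mono X ?_ this
            calc j * p + a ≤ j * p + p := by omega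
              _ = (j + 1) * p := by ring
          · have e : k * x ^ n * (y * x ^ a)⁻¹ = k * (x ^ p) ^ (n / p) * y⁻¹ := by
              rw [hxn]
              group
            rw [e]
            exact hy'
  refine key (Nat.card H) (PhiP p H) 0 le_rfl (phiP_le p H) ?_ ?_ (by omega)
  · rw [pow_zero]
    exact Nat.card_pos
  · intro k hk
    refine ⟨1, one_mem_bl X _, ?_⟩
    simpa using hk

end Pool.Agent.Helper94.BC
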