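import Pool.Agent.Helper94.BC.Defs

set_option autoImplicit false

open scoped Pointwise commutatorElement

namespace Pool.Agent.Helper94.BC

/-- Schreier's lemma with radii. -/
theorem schreier {G : Type} [Group G] (S : Set G) (A K : Subgroup G) (hKA : K ≤ A) (R D : ℕ)
    (hA : Gn S A R) (hD : ∀ a ∈ A, ∃ y ∈ Bl ((A : Set G) ∩ Bl S R) D, a * y⁻¹ ∈ K) :
    Gn S K ((2 * D + 1) * R) := by
  have hT : Bl ((A : Set G) ∩ Bl S R) D ⊆ Bl S (R * D) := bl_trans Set.inter_subset_right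
  -- a product of a coset representative, a letter and the inverse of a representative
  have hmid : ∀ y ∈ Bl S (R * D), ∀ t ∈ Bl S R, ∀ z ∈ Bl S (R * D), y * t * z⁻¹ ∈ K →
      y * t * z⁻¹ ∈ Subgroup.closure ((K : Set G) ∩ Bl S ((2 * D + 1) * R)) := by
    intro y hy t ht z hz hK
    refine Subgroup.subset_closure ⟨hK, ?_⟩
    have h := mul_mem_bl (mul_mem_bl hy ht) (inv_mem_bl hz)
    have e : R * D + R + R * D = (2 * D + 1) * R := by ring
    rwa [e] at h
  have hstep : ∀ x : G, x ∈ A →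
      (∀ y ∈ Bl ((A : Set G) ∩ Bl S R) D, x * y⁻¹ ∈ K →
        x * y⁻¹ ∈ Subgroup.closure ((K : Set G) ∩ Bl S ((2 * D + 1) * R))) →
      ∀ t ∈ Bl S R, ∀ y ∈ Bl ((A : Set G) ∩ Bl S R) D, x * t * y⁻¹ ∈ K →
        x * t * y⁻¹ ∈ Subgroup.closure ((K : Set G) ∩ Bl S ((2 * D + 1) * R)) := by
    intro x hx ih t ht y hy hK
    obtain ⟨z, hz, hzK⟩ := hD x hx
    have e : x * t * y⁻¹ = (x * z⁻¹) * (z * t * y⁻¹) := by group
    have hK2 : z * t * y⁻¹ ∈ K := by
      have e2 : z * t * y⁻¹ = (x * z⁻¹)⁻¹ * (x * t * y⁻¹) := by group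
      rw [e2]
      exact K.mul_mem (K.inv_mem hzK) hK
    rw [e]
    exact Subgroup.mul_mem _ (ih z hz hzK) (hmid z (hT hz) t ht y (hT hy) hK2)
  have hmain : ∀ x ∈ Subgroup.closure ((A : Set G) ∩ Bl S R),
      ∀ y ∈ Bl ((A : Set G) ∩ Bl S R) D, x * y⁻¹ ∈ K →
        x * y⁻¹ ∈ Subgroup.closure ((K : Set G) ∩ Bl S ((2 * D + 1) * R)) := by
    have hle : Subgroup.closure ((A : Set G) ∩ Bl S R) ≤ A := by
      rw [Subgroup.closure_le]
      exact Set.inter_subset_left
    intro x hx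
    induction hx using Subgroup.closure_induction_right with
    | one =>
      intro y hy hK
      have h := hmid 1 (one_mem_bl S _) 1 (one_mem_bl S _) y (hT hy) (by simpa using hK)
      simpa using h
    | mul_right x hx t ht ih =>
      intro y hy hK
      exact hstep x (hle hx) ih t ht.2 y hy hK
    | mul_inv_cancel x hx t ht ih =>
      intro y hy hK
      exact hstep x (hle hx) ih t⁻¹ (inv_mem_bl ht.2) y hy hK
  intro k hk
  have h := hmain k (hA (hKA hk)) 1 (one_mem_bl _ _) (by simpa using hk)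
  simpa using h

end Pool.Agent.Helper94.BC
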