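import Pool.Agent.Helper94.BC.DiamT
import Pool.Agent.Helper94.BC.DiamP
import Pool.Agent.Helper94.BC.Sch

set_option autoImplicit false

open scoped Pointwise commutatorElement

namespace Pool.Agent.Helper94.BC

/-- The kernel of a homomorphism onto a finite group of order at most `2 ^ (k ^ 2)` killed by the
list `s` is generated by elements of length at most `(31 B³ k⁶) ^ |s|`. -/
theorem chain {G P : Type} [Group G] [Group P] [Finite P] (S : Set G)
    (hS : Subgroup.closure S = ⊤) (f : G →* P) (hf : Function.Surjective f) (B : ℕ) (hB : 1 ≤ B)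
    (hcls : Cls B P) (k : ℕ) (hk : 1 ≤ k) (hcard : Nat.card P ≤ 2 ^ (k ^ 2))
    (s : List (Option ℕ)) (hs : ∀ p, some p ∈ s → 1 ≤ p ∧ p ≤ k)
    (hbot : Ser s (⊤ : Subgroup P) = ⊥) : Gn S f.ker ((31 * B ^ 3 * k ^ 6) ^ s.length) := by
  have hone : 1 ≤ B ^ 3 * k ^ 6 := Nat.one_le_iff_ne_zero.2 (by positivity)
  -- one letter
  have hstep : ∀ (H : Subgroup P) (R : ℕ) (c : Option ℕ), (∀ p, c = some p → 1 ≤ p ∧ p ≤ k) →
      Gn S (H.comap f) R → Gn S ((Phi c H).comap f) ((31 * B ^ 3 * k ^ 6) * R) := by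
    intro H R c hc hR
    have hcl : Subgroup.closure (f '' (((H.comap f : Subgroup G) : Set G) ∩ Bl S R)) = H := by
      rw [← MonoidHom.map_closure]
      have h1 : Subgroup.closure (((H.comap f : Subgroup G) : Set G) ∩ Bl S R) = H.comap f := by
        refine le_antisymm ?_ hR
        rw [Subgroup.closure_le]
        exact Set.inter_subset_left
      rw [h1]
      exact Subgroup.map_comap_eq_self_of_surjective hf H
    have hHc : Nat.card H ≤ 2 ^ (k ^ 2) := (Nat.le_of_dvd Nat.card_pos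
      (Subgroup.card_subgroup_dvd_card H)).trans hcard
    have hD : ∃ D : ℕ, 2 * D + 1 ≤ 31 * B ^ 3 * k ^ 6 ∧ ∀ h ∈ H,
        ∃ y ∈ Bl (f '' (((H.comap f : Subgroup G) : Set G) ∩ Bl S R)) D, h * y⁻¹ ∈ Phi c H := by
      cases c with
      | none =>
        refine ⟨14 * B ^ 3 * (k ^ 2) ^ 3, ?_, diamT B hcls H _ hcl (k ^ 2) hHc⟩
        have e : 14 * B ^ 3 * (k ^ 2) ^ 3 = 14 * (B ^ 3 * k ^ 6) := by ring
        rw [e, mul_assoc 31]
        omega
      | some p =>
        obtain ⟨hp1, hpk⟩ := hc p rfl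
        refine ⟨k ^ 2 * p, ?_, diamP p hp1 H _ hcl (k ^ 2) hHc⟩
        have h1 : k ^ 2 * p ≤ k ^ 3 := by
          calc k ^ 2 * p ≤ k ^ 2 * k := Nat.mul_le_mul_left _ hpk
            _ = k ^ 3 := by ring
        have h2 : k ^ 3 ≤ k ^ 6 := Nat.pow_le_pow_right hk (by norm_num)
        have h3 : k ^ 6 ≤ B ^ 3 * k ^ 6 :=
          Nat.le_mul_of_pos_left _ (by positivity)
        rw [mul_assoc 31]
        omega
    obtain ⟨D, hD1, hD2⟩ := hD
    have h := schreier S (H.comap f) ((Phi c H).comap f)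
      (Subgroup.comap_mono (phi_le c H)) R D hR ?_
    · refine h.trans (Subgroup.closure_mono ?_)
      exact Set.inter_subset_inter_right _ (bl_mono S (Nat.mul_le_mul_right R hD1))
    · intro a ha
      obtain ⟨y, hy, hy'⟩ := hD2 (f a) ha
      rw [← image_bl] at hy
      obtain ⟨z, hz, rfl⟩ := hy
      refine ⟨z, hz, ?_⟩
      rw [Subgroup.mem_comap, map_mul, map_inv]
      exact hy'
  have hall : ∀ (t : List (Option ℕ)) (H : Subgroup P) (R : ℕ),
      (∀ p, some p ∈ t → 1 ≤ p ∧ p ≤ k) → Gn S (H.comap f) R →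
      Gn S ((Ser t H).comap f) ((31 * B ^ 3 * k ^ 6) ^ t.length * R) := by
    intro t
    induction t with
    | nil =>
      intro H R _ hR
      simpa [Ser] using hR
    | cons c t ih =>
      intro H R ht hR
      have h1 := hstep H R c (fun p hp => ht p (by rw [hp]; exact List.mem_cons_self)) hR
      have h2 := ih (Phi c H) _ (fun p hp => ht p (List.mem_cons_of_mem _ hp)) h1
      rw [List.length_cons, pow_succ]
      rw [← mul_assoc] at h2
      exact h2
  have h0 : Gn S ((⊤ : Subgroup P).comap f) 1 := by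
    intro x _
    have hx : x ∈ Subgroup.closure S := by
      rw [hS]
      exact Subgroup.mem_top x
    refine Subgroup.closure_mono ?_ hx
    intro y hy
    exact ⟨Subgroup.mem_comap.2 (Subgroup.mem_top _), subset_bl_one S hy⟩
  have h := hall s ⊤ 1 hs h0
  rw [hbot, mul_one, MonoidHom.comap_bot] at h
  exact h

end Pool.Agent.Helper94.BC
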