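import Pool.Agent.Helper94.BC.Pr

set_option autoImplicit false

open scoped Pointwise commutatorElement

namespace Pool.Agent.Helper94.BC

/-- The order of `E`. -/
theorem Pr.card_E {G : Type} [Group G] [Finite G] {B : ℕ} {E : Subgroup G} {k : ℕ}
    {M : Fin k → Subgroup G} {C : Subgroup G} (h : Pr B E M C) : Nat.card E ≤ B ^ k := by
  have h1 := Subgroup.relIndex_iInf_le (L := E) M
  rw [h.bot, Subgroup.relIndex_bot_left] at h1
  refine h1.trans ?_
  have h2 : ∏ i, (M i).relIndex E ≤ ∏ _i : Fin k, B :=
    Finset.prod_le_prod' fun i _ => h.card i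
  rwa [Finset.prod_const, Finset.card_univ, Fintype.card_fin] at h2

end Pool.Agent.Helper94.BC
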