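import Pool.Agent.Helper94.BC.Sub

set_option autoImplicit false

open scoped Pointwise commutatorElement

namespace Pool.Agent.Helper94.BC

/-- A maximal normal subgroup of `E` above `N`, if `E / N` is a non-abelian chief factor. -/
theorem fam_one (G : Type) [Group G] [Finite G] {N E : Subgroup G} (hN : N.Normal) (hE : E.Normal)
    (hNE : N < E) (hmin : ∀ L : Subgroup G, L.Normal → N ≤ L → L ≤ E → L = N ∨ L = E)
    (hab : ¬ ⁅E, E⁆ ≤ N) : ∃ M : Subgroup G, NM E M ∧ N ≤ M ∧ M ≠ E := by
  classical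
  have hperf : ⁅E, E⁆ ⊔ N = E := by
    rcases hmin (⁅E, E⁆ ⊔ N) inferInstance le_sup_right
      (sup_le (Subgroup.commutator_le_self E) hNE.le) with h | h
    · exact absurd (le_sup_left.trans h.le) hab
    · exact h
  have hfin : Finite (Subgroup G) := inferInstance
  let S : Set (Subgroup G) := {L | N ≤ L ∧ L ≤ E ∧ L ≠ E ∧ Nor E L}
  have hSN : N ∈ S := ⟨le_rfl, hNE.le, hNE.ne, nor_of_normal E hN⟩
  obtain ⟨M, hNM, hM⟩ := (Set.toFinite S).exists_le_maximal hSN
  obtain ⟨h1, h2, h3, h4⟩ := hM.prop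
  refine ⟨M, ⟨h2, h4, ?_, ?_⟩, h1, h3⟩
  · intro h
    apply h3
    refine le_antisymm h2 ?_
    calc E = ⁅E, E⁆ ⊔ N := hperf.symm
      _ ≤ M := sup_le h h1
  · intro L hL hLE hnor
    by_cases hLE' : L = E
    · exact Or.inr hLE'
    · left
      exact le_antisymm (hM.le_of_ge ⟨h1.trans hL, hLE, hLE', hnor⟩ hL) hL

/-- The conjugates of one maximal normal subgroup. -/
theorem fam_conj (G : Type) [Group G] [Finite G] {N E : Subgroup G} (hN : N.Normal)
    (hE : E.Normal)
    (hNE : N < E) (hmin : ∀ L : Subgroup G, L.Normal → N ≤ L → L ≤ E → L = N ∨ L = E)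
    (hab : ¬ ⁅E, E⁆ ≤ N) : ∃ (k : ℕ) (M : Fin k → Subgroup G) (Y : Subgroup G), 1 ≤ k ∧
      Y.index = k ∧ Function.Injective M ∧ (∀ i, NM E (M i)) ∧ (⨅ i, M i) = N ∧
      (∀ g : G, ∀ i, ∃ j, (M i).map (MulAut.conj g).toMonoidHom = M j) ∧
      (∀ g : G, g ∈ Y.normalCore ↔ ∀ i, (M i).map (MulAut.conj g).toMonoidHom = M i) := by
  classical
  obtain ⟨M1, hM1, hNM1, hne⟩ := fam_one G hN hE hNE hmin hab
  let act : MulAction G (Subgroup G) :=
    { smul := fun g A => A.map (MulAut.conj g).toMonoidHom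
      one_smul := by
        intro A
        change A.map (MulAut.conj (1 : G)).toMonoidHom = A
        ext x
        rw [conj_map_mem]
        simp
      mul_smul := by
        intro g h A
        change A.map (MulAut.conj (g * h)).toMonoidHom =
          (A.map (MulAut.conj h).toMonoidHom).map (MulAut.conj g).toMonoidHom
        ext x
        rw [conj_map_mem, conj_map_mem, conj_map_mem]
        simp [mul_assoc] }
  have hsm : ∀ (g : G) (A : Subgroup G), g • A = A.map (MulAut.conj g).toMonoidHom :=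
    fun _ _ => rfl
  have hfinO : Finite (MulAction.orbit G M1) := Finite.of_surjective
    (fun g : G => (⟨g • M1, g, rfl⟩ : MulAction.orbit G M1)) (by
      rintro ⟨_, g, rfl⟩
      exact ⟨g, rfl⟩)
  let k := Nat.card (MulAction.orbit G M1)
  have hkpos : 1 ≤ k := by
    have : Nonempty (MulAction.orbit G M1) := ⟨⟨M1, MulAction.mem_orbit_self M1⟩⟩
    exact Nat.card_pos
  let e : Fin k ≃ MulAction.orbit G M1 := (Finite.equivFin _).symm
  have hEconj : ∀ g : G, E.map (MulAut.conj g).toMonoidHom = E :=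
    fun g => nor_iff_map.1 (nor_of_normal ⊤ hE) g (Subgroup.mem_top g)
  have hall : ∀ i, ∃ g : G, ((e i : MulAction.orbit G M1) : Subgroup G) = g • M1 := by
    intro i
    obtain ⟨g, hg⟩ := (e i).2
    exact ⟨g, hg.symm⟩
  have hev : ∀ g : G, ∃ i, ((e i : MulAction.orbit G M1) : Subgroup G) = g • M1 := by
    intro g
    refine ⟨e.symm ⟨g • M1, g, rfl⟩, ?_⟩
    rw [e.apply_symm_apply]
  refine ⟨k, fun i => ((e i : MulAction.orbit G M1) : Subgroup G),
    MulAction.stabilizer G M1, hkpos, ?_, ?_, ?_, ?_, ?_, ?_⟩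
  · rw [MulAction.index_stabilizer]
    rfl
  · intro i j hij
    exact e.injective (Subtype.ext hij)
  · intro i
    obtain ⟨g, hg⟩ := hall i
    have := nm_map (MulAut.conj g) hM1
    rw [hEconj g] at this
    change NM E ((e i : MulAction.orbit G M1) : Subgroup G)
    rw [hg]
    exact this
  · -- the intersection
    have hle : ∀ i, ((e i : MulAction.orbit G M1) : Subgroup G) ≤ E := by
      intro i
      obtain ⟨g, hg⟩ := hall i
      rw [hg, hsm, ← hEconj g]
      exact Subgroup.map_mono hM1.le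
    have hge : N ≤ ⨅ i, ((e i : MulAction.orbit G M1) : Subgroup G) := by
      refine le_iInf fun i => ?_
      obtain ⟨g, hg⟩ := hall i
      have h1 : N.map (MulAut.conj g).toMonoidHom = N :=
        nor_iff_map.1 (nor_of_normal ⊤ hN) g (Subgroup.mem_top g)
      rw [hg, hsm]
      calc N = N.map (MulAut.conj g).toMonoidHom := h1.symm
        _ ≤ _ := Subgroup.map_mono hNM1
    have hnorm : (⨅ i, ((e i : MulAction.orbit G M1) : Subgroup G)).Normal := by
      constructor
      intro n hn g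
      rw [Subgroup.mem_iInf] at hn ⊢
      intro i
      obtain ⟨h, hh⟩ := hall i
      obtain ⟨j, hj⟩ := hev (g⁻¹ * h)
      have h2 := hn j
      rw [hj, mul_smul] at h2
      have h3 : ((e i : MulAction.orbit G M1) : Subgroup G) = g • (g⁻¹ • h • M1) := by
        rw [smul_inv_smul, hh]
      rw [h3, hsm, conj_map_mem]
      simpa [mul_assoc] using h2
    have hle1 : (⨅ i, ((e i : MulAction.orbit G M1) : Subgroup G)) ≤ M1 := by
      obtain ⟨i, hi⟩ := hev 1
      rw [one_smul] at hi
      exact (iInf_le _ i).trans hi.le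
    rcases hmin _ hnorm hge (hle1.trans hM1.le) with h | h
    · exact h
    · exfalso
      apply hne
      refine le_antisymm hM1.le ?_
      calc E = _ := h.symm
        _ ≤ M1 := hle1
  · intro g i
    obtain ⟨h, hh⟩ := hall i
    obtain ⟨j, hj⟩ := hev (g * h)
    refine ⟨j, ?_⟩
    change g • ((e i : MulAction.orbit G M1) : Subgroup G) =
      ((e j : MulAction.orbit G M1) : Subgroup G)
    rw [hj, hh, mul_smul]
  · intro g
    constructor
    · intro hg i
      obtain ⟨h, hh⟩ := hall i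
      change g • ((e i : MulAction.orbit G M1) : Subgroup G) =
        ((e i : MulAction.orbit G M1) : Subgroup G)
      rw [hh]
      have h1 : h⁻¹ * g * h⁻¹⁻¹ ∈ MulAction.stabilizer G M1 := hg h⁻¹
      rw [MulAction.mem_stabilizer_iff, inv_inv, mul_smul, mul_smul, inv_smul_eq_iff] at h1
      exact h1
    · intro hg h
      obtain ⟨i, hi⟩ := hev h⁻¹
      have h1 : g • h⁻¹ • M1 = h⁻¹ • M1 := by
        rw [← hi]
        exact hg i
      rw [MulAction.mem_stabilizer_iff, mul_smul, mul_smul, h1, smul_inv_smul]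

/-- The maximal normal subgroups of a non-abelian chief factor `E / N`: the conjugates of one. -/
theorem fam (G : Type) [Group G] [Finite G] {N E : Subgroup G} (hN : N.Normal) (hE : E.Normal)
    (hNE : N < E) (hmin : ∀ L : Subgroup G, L.Normal → N ≤ L → L ≤ E → L = N ∨ L = E)
    (hab : ¬ ⁅E, E⁆ ≤ N) : ∃ (k : ℕ) (M : Fin k → Subgroup G) (Y : Subgroup G), 1 ≤ k ∧
      Y.index = k ∧ Function.Injective M ∧ (∀ i, NM E (M i)) ∧ (⨅ i, M i) = N ∧
      (∀ i, Nor Y.normalCore (M i)) ∧ E ≤ Y.normalCore := by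
  obtain ⟨k, M, Y, h1, h2, h3, h4, h5, h6, h7⟩ := fam_conj G hN hE hNE hmin hab
  refine ⟨k, M, Y, h1, h2, h3, h4, h5, ?_, ?_⟩
  · intro i
    rw [nor_iff_map]
    exact fun g hg => (h7 g).1 hg i
  · intro e he
    rw [h7]
    exact fun i => nor_iff_map.1 (h4 i).nor e he

end Pool.Agent.Helper94.BC
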