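import Pool.Agent.Helper94.BC.Pr
import Pool.Agent.Helper94.BC.Fam

set_option autoImplicit false

open scoped Pointwise commutatorElement

namespace Pool.Agent.Helper94.BC

/-- A non-abelian minimal normal subgroup with trivial centraliser. -/
theorem pr_exists (B : ℕ) (G : Type) [Group G] [Finite G] (hcls : Cls B G) (E : Subgroup G)
    (hE : E.Normal) (hmin : ∀ L : Subgroup G, L.Normal → L ≤ E → L = ⊥ ∨ L = E)
    (hab : ¬ ⁅E, E⁆ ≤ ⊥) (hcent : ∀ g : G, (∀ e ∈ E, g * e = e * g) → g = 1) :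
    ∃ (k : ℕ) (M : Fin k → Subgroup G) (C : Subgroup G), Pr B E M C := by
  have hne : (⊥ : Subgroup G) < E := by
    rw [bot_lt_iff_ne_bot]
    rintro rfl
    apply hab
    exact Subgroup.commutator_le_self _
  obtain ⟨k, M, Y, h1, h2, h3, h4, h5, h6, h7⟩ := fam_conj G (N := ⊥) inferInstance hE hne
    (fun L hL _ hLE => hmin L hL hLE) hab
  exact ⟨k, M, Y.normalCore, ⟨h1, hE, hmin, hab, hcent, h4, h3, h5, h6, h7, ⟨Y, h2, rfl⟩,
    fun i => hcls E (M i) (h4 i)⟩⟩

end Pool.Agent.Helper94.BC
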