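import Pool.Agent.Helper94.BC.Iter
import Pool.Agent.Helper94.BC.PrEx
import Pool.Agent.Helper94.BC.PrCard

set_option autoImplicit false

open scoped Pointwise commutatorElement

namespace Pool.Agent.Helper94.BC

open Pool.Agent.Helper39.BC

/-- The main estimate, from the theorem on rounds. -/
theorem chiefP_of_rounds (B : ℕ) (c1 : ℕ) (hr : ∀ (P : Type) [Group P] [Finite P], Cls B P →
    ∀ Y : Subgroup P, PsiS (c1 * Nat.log 2 Y.index) (⊤ : Subgroup P) ≤ Y) :
    ∃ c : ℕ, 1 ≤ c ∧ ∀ (G : Type) [Group G] [Finite G] (S : Set G),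
    Cls B G → Subgroup.closure S = ⊤ → ∀ N E : Subgroup G, N.Normal → E.Normal → N < E →
      (∀ L : Subgroup G, L.Normal → N ≤ L → L ≤ E → L = N ∨ L = E) → ¬ ⁅E, E⁆ ≤ N →
      ∃ k : ℕ, 1 ≤ k ∧ 2 ^ k ≤ Nat.card (Bl S ((c * k) ^ c)) ∧ N.relIndex E ≤ B ^ k := by
  obtain ⟨c, hc, h0⟩ := chief0 B c1 hr
  refine ⟨c, hc, ?_⟩
  intro G _ _ S hcls hS N E hN hE hNE hmin hab
  have hnor : Nor ⊤ N := nor_of_normal ⊤ hN
  have hnorE : Nor ⊤ E := nor_of_normal ⊤ hE
  set K : Subgroup G := cen ⊤ N E hnor with hKdef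
  have hK : K.Normal := normal_of_nor (cen_nor hnor hnorE)
  have hNK : N ≤ K := le_cen hnor le_top le_top
  -- `K ⊓ E = N`
  have hKE : K ⊓ E = N := by
    rcases hmin (K ⊓ E) inferInstance (le_inf hNK hNE.le) inf_le_right with h | h
    · exact h
    · exfalso
      apply hab
      rw [Subgroup.commutator_le]
      intro x hx y hy
      have hxK : x ∈ K ⊓ E := by
        rw [h]
        exact hx
      exact (hxK.1).2 y hy
  let f : G →* G ⧸ K := QuotientGroup.mk' K
  have hf : Function.Surjective f := QuotientGroup.mk'_surjective K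
  have hker : f.ker = K := QuotientGroup.ker_mk' K
  have hf1 : ∀ x : G, f x = 1 ↔ x ∈ K := fun x => QuotientGroup.eq_one_iff x
  have hcls' : Cls B (G ⧸ K) := cls_map f hf hcls
  have hS' : Subgroup.closure (f '' S) = ⊤ := by
    rw [← MonoidHom.map_closure, hS, ← MonoidHom.range_eq_map]
    exact MonoidHom.range_eq_top.2 hf
  have hE' : (E.map f).Normal := hE.map f hf
  have hmin' : ∀ L : Subgroup (G ⧸ K), L.Normal → L ≤ E.map f → L = ⊥ ∨ L = E.map f := by
    intro L hL hLE
    have hNL : N ≤ L.comap f ⊓ E := by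
      refine le_inf (fun x hx => ?_) hNE.le
      rw [Subgroup.mem_comap, (hf1 x).2 (hNK hx)]
      exact L.one_mem
    have hLn : (L.comap f ⊓ E).Normal := by
      have := hL.comap f
      infer_instance
    rcases hmin _ hLn hNL inf_le_right with h | h
    · left
      rw [eq_bot_iff]
      intro y hy
      obtain ⟨e, he, rfl⟩ := hLE hy
      have h1 : e ∈ L.comap f ⊓ E := ⟨hy, he⟩
      rw [h] at h1
      rw [Subgroup.mem_bot]
      exact (hf1 e).2 (hNK h1)
    · right
      refine le_antisymm hLE ?_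
      rintro _ ⟨e, he, rfl⟩
      have h1 : e ∈ L.comap f ⊓ E := by
        rw [h]
        exact he
      exact h1.1
  have hab' : ¬ ⁅E.map f, E.map f⁆ ≤ ⊥ := by
    intro h
    apply hab
    rw [← Subgroup.map_commutator, le_bot_iff, Subgroup.map_eq_bot_iff, hker] at h
    rw [← hKE]
    exact le_inf h (Subgroup.commutator_le_self E)
  have hcent' : ∀ g : G ⧸ K, (∀ e ∈ E.map f, g * e = e * g) → g = 1 := by
    intro g hg
    obtain ⟨x, rfl⟩ := hf g
    rw [hf1]
    refine ⟨Subgroup.mem_top x, fun e he => ?_⟩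
    have h1 := hg (f e) ⟨e, he, rfl⟩
    have h2 : ⁅x, e⁆ ∈ K := by
      rw [← hf1, map_commutatorElement]
      exact commutatorElement_eq_one_iff_mul_comm.2 h1
    have h3 : ⁅x, e⁆ ∈ E := by
      rw [commutatorElement_def]
      exact E.mul_mem (hE.conj_mem e he x) (E.inv_mem he)
    rw [← hKE]
    exact ⟨h2, h3⟩
  obtain ⟨k, M, C, hPr⟩ := pr_exists B (G ⧸ K) hcls' (E.map f) hE' hmin' hab' hcent'
  refine ⟨k, hPr.pos, ?_, ?_⟩
  · refine (h0 (G ⧸ K) (f '' S) hS' hcls' (E.map f) k M C hPr).trans ?_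
    rw [← image_bl]
    exact Nat.card_image_le (Set.toFinite _)
  · refine le_trans ?_ hPr.card_E
    have h1 : Nat.card (E.map f) = N.relIndex E := by
      rw [← hKE, Subgroup.inf_relIndex_right]
      have h2 := Subgroup.relIndex_ker f (K := E)
      rw [hker] at h2
      exact h2.symm
    exact h1.symm.le

end Pool.Agent.Helper94.BC
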