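import Pool.Agent.Helper94.BC.Defs

set_option autoImplicit false

open scoped Pointwise commutatorElement

namespace Pool.Agent.Helper94.BC

/-- The class is closed under quotients. -/
theorem cls_map {G P : Type} [Group G] [Group P] (f : G →* P) (hf : Function.Surjective f)
    {B : ℕ} (h : Cls B G) : Cls B P := by
  intro K N hKN
  have hmc := fun A : Subgroup P => Subgroup.map_comap_eq_self_of_surjective hf A
  have h1 : NM (K.comap f) (N.comap f) := by
    refine ⟨Subgroup.comap_mono hKN.le, ?_, ?_, ?_⟩
    · intro x hx n hn
      rw [Subgroup.mem_comap] at hx hn ⊢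
      rw [map_mul, map_mul, map_inv]
      exact hKN.nor _ hx _ hn
    · intro hle
      apply hKN.nab
      have := Subgroup.map_mono (f := f) hle
      rwa [Subgroup.map_commutator, hmc, hmc] at this
    · intro L h2 h3 h4
      have hL : (L.map f).comap f = L :=
        Subgroup.comap_map_eq_self ((f.ker_le_comap N).trans h2)
      have h6 := hKN.max (L.map f) ?_ ?_ ?_
      · rcases h6 with h5 | h5
        · left; rw [← hL, h5]
        · right; rw [← hL, h5]
      · rw [← hmc N]; exact Subgroup.map_mono h2
      · rw [← hmc K]; exact Subgroup.map_mono h3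
      · rintro k hk _ ⟨l, hl, rfl⟩
        obtain ⟨k, rfl⟩ := hf k
        exact ⟨k * l * k⁻¹, h4 k hk l hl, by simp⟩
  have h2 := h _ _ h1
  rwa [Subgroup.relIndex_comap, hmc] at h2

theorem cls_mono {G : Type} [Group G] {B B' : ℕ} (hB : B ≤ B') (h : Cls B G) : Cls B' G :=
  fun K N hN => (h K N hN).trans hB

end Pool.Agent.Helper94.BC
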