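import Pool.Agent.Helper94.BC.Defs

set_option autoImplicit false

open scoped Pointwise commutatorElement

namespace Pool.Agent.Helper94.BC

section ListAux

variable {G : Type} [Group G] [Finite G]

/-- The letter of an abelian layer. -/
theorem listL_p {L D : Subgroup G} (hD : D ≤ L) (hc : ⁅L, L⁆ ≤ D) (hne : ¬ L ≤ D) :
    ∃ p : ℕ, p.Prime ∧ p ∣ Nat.card G ∧ ∃ N : Subgroup G, D ≤ N ∧ ¬ L ≤ N ∧ PhiP p L ≤ N := by
  classical
  have hfin : ({M : Subgroup G | D ≤ M ∧ M ≤ L ∧ ¬ L ≤ M} : Set (Subgroup G)).Finite :=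
    Set.toFinite _
  obtain ⟨N, hDN, hN⟩ := hfin.exists_le_maximal (a := D) ⟨le_rfl, hD, hne⟩
  obtain ⟨_, hNL, hLN⟩ := hN.prop
  have hmax : ∀ M : Subgroup G, N ≤ M → M ≤ L → ¬ L ≤ M → M ≤ N := fun M h1 h2 h3 =>
    hN.le_of_ge (y := M) ⟨hDN.trans h1, h2, h3⟩ h1
  have hnorm : (N.subgroupOf L).Normal := by
    constructor
    intro n hn g
    rw [Subgroup.mem_subgroupOf] at hn ⊢
    have e : ((g * n * g⁻¹ : L) : G) = ⁅(g : G), (n : G)⁆ * (n : G) := by
      rw [commutatorElement_def]
      push_cast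
      group
    rw [e]
    exact N.mul_mem (hDN (hc (Subgroup.commutator_mem_commutator g.2 n.2))) hn
  have hidx : (N.subgroupOf L).index ≠ 1 := by
    intro h
    apply hLN
    exact Subgroup.relIndex_eq_one.mp h
  obtain ⟨p, hp, hpd⟩ := Nat.exists_prime_and_dvd hidx
  have hpQ : p ∣ Nat.card (L ⧸ N.subgroupOf L) := hpd
  have : Fact p.Prime := ⟨hp⟩
  obtain ⟨x, hx⟩ := exists_prime_orderOf_dvd_card' p hpQ
  -- the group generated by `x` is everything
  have htop : Subgroup.zpowers x = ⊤ := by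
    set M' := (Subgroup.zpowers x).comap (QuotientGroup.mk' (N.subgroupOf L)) with hM'
    have h1 : N ≤ M'.map L.subtype := by
      intro n hn
      refine ⟨⟨n, hNL hn⟩, ?_, rfl⟩
      rw [SetLike.mem_coe, hM', Subgroup.mem_comap]
      have h2 : (QuotientGroup.mk' (N.subgroupOf L)) ⟨n, hNL hn⟩ = 1 := by
        rw [QuotientGroup.mk'_apply, QuotientGroup.eq_one_iff]
        exact hn
      rw [h2]
      exact Subgroup.one_mem _
    have h2 : M'.map L.subtype ≤ L := by
      rintro _ ⟨y, _, rfl⟩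
      exact y.2
    by_cases h3 : L ≤ M'.map L.subtype
    · rw [Subgroup.eq_top_iff']
      intro q
      obtain ⟨y, rfl⟩ := QuotientGroup.mk'_surjective (N.subgroupOf L) q
      obtain ⟨z, hz, hzy⟩ := h3 y.2
      have : z = y := Subtype.ext hzy
      rw [← this]
      exact hz
    · exfalso
      have h4 := hmax _ h1 h2 h3
      obtain ⟨y, hy⟩ := QuotientGroup.mk'_surjective (N.subgroupOf L) x
      have h5 : (y : G) ∈ M'.map L.subtype := by
        refine ⟨y, ?_, rfl⟩
        rw [SetLike.mem_coe, hM', Subgroup.mem_comap, hy]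
        exact Subgroup.mem_zpowers x
      have h6 : x = 1 := by
        rw [← hy, QuotientGroup.mk'_apply, QuotientGroup.eq_one_iff]
        exact h4 h5
      rw [h6, orderOf_one] at hx
      exact hp.one_lt.ne hx
  have hcard : (N.subgroupOf L).index = p := by
    have h1 : Nat.card (Subgroup.zpowers x) = p := by rw [Nat.card_zpowers, hx]
    rw [htop, Subgroup.card_top] at h1
    exact h1
  refine ⟨p, hp, ?_, N, hDN, hLN, ?_⟩
  · have h1 : p ∣ Nat.card L := by
      have := Subgroup.index_dvd_card (N.subgroupOf L)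
      rwa [hcard] at this
    exact h1.trans (Subgroup.card_subgroup_dvd_card L)
  · refine sup_le (hc.trans hDN) ?_
    rw [Subgroup.closure_le]
    rintro _ ⟨h, hh, rfl⟩
    have h1 := Subgroup.pow_index_mem (N.subgroupOf L) (⟨h, hh⟩ : L)
    rw [hcard] at h1
    exact h1

/-- The letter of a non-trivial layer. -/
theorem listL_step {L L0 : Subgroup G} (h : L0 ≤ L) (hn : Nor L L0) (hne : ¬ L ≤ L0) :
    ∃ c : Option ℕ, (∀ p, c = some p → p.Prime ∧ p ∣ Nat.card G) ∧
      ∃ N : Subgroup G, ¬ L ≤ N ∧ L0 ≤ N ∧ Phi c L ≤ N := by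
  classical
  by_cases hp : L ≤ ⁅L, L⁆ ⊔ L0
  · -- perfect case
    have hfin : ({M : Subgroup G | L0 ≤ M ∧ M ≤ L ∧ ¬ L ≤ M ∧ Nor L M} : Set (Subgroup G)).Finite :=
      Set.toFinite _
    obtain ⟨N, hLN0, hN⟩ := hfin.exists_le_maximal (a := L0) ⟨le_rfl, h, hne, hn⟩
    obtain ⟨_, hNL, hLN, hNn⟩ := hN.prop
    have hNM : NM L N := by
      refine ⟨hNL, hNn, ?_, ?_⟩
      · intro h1
        exact hLN (hp.trans (sup_le h1 hLN0))
      · intro M h1 h2 h3
        by_cases h4 : L ≤ M
        · exact Or.inr (le_antisymm h2 h4)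
        · exact Or.inl (le_antisymm (hN.le_of_ge (y := M) ⟨hLN0.trans h1, h2, h4, h3⟩ h1) h1)
    refine ⟨none, fun p hp => by simp at hp, N, hLN, hLN0, ?_⟩
    exact inf_le_right.trans (sInf_le hNM)
  · obtain ⟨p, hp1, hp2, N, hDN, hLN, hph⟩ := listL_p (L := L) (D := ⁅L, L⁆ ⊔ L0)
      (sup_le (Subgroup.commutator_le_self L) h) le_sup_left hp
    refine ⟨some p, ?_, N, hLN, le_sup_right.trans hDN, hph⟩
    intro q hq
    have : p = q := by simpa using hq
    rw [← this]
    exact ⟨hp1, hp2⟩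

end ListAux

/-- A finite group mod a normal subgroup is killed by a list of length at most `log₂` of the
order. -/
theorem list_exists {G : Type} [Group G] [Finite G] (L L0 : Subgroup G) (h : L0 ≤ L)
    (hn : Nor L L0) : ∃ t : List (Option ℕ), t.length ≤ Nat.log 2 (L0.relIndex L) ∧
      Ser t L ≤ L0 ∧ ∀ p, some p ∈ t → p.Prime ∧ p ∣ Nat.card G := by
  have key : ∀ n : ℕ, ∀ L L0 : Subgroup G, L0 ≤ L → Nor L L0 → L0.relIndex L = n →
      ∃ t : List (Option ℕ), t.length ≤ Nat.log 2 (L0.relIndex L) ∧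
      Ser t L ≤ L0 ∧ ∀ p, some p ∈ t → p.Prime ∧ p ∣ Nat.card G := by
    intro n
    induction n using Nat.strong_induction_on with
    | _ n ih =>
      intro L L0 h hn hrel
      by_cases hle : L ≤ L0
      · exact ⟨[], by simp, hle, by simp⟩
      · obtain ⟨c, hc, N, hLN, hL0N, hPN⟩ := listL_step h hn hle
        set L1 := Phi c L with hL1
        have hL1L : L1 ≤ L := phi_le c L
        have hsup : ¬ L ≤ L1 ⊔ L0 := fun h1 => hLN (h1.trans (sup_le hPN hL0N))
        have hfin : ∀ A C : Subgroup G, A.relIndex C ≠ 0 := fun A C =>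
          Subgroup.index_ne_zero_of_finite
        have e1 : L0.relIndex L1 ≤ L0.relIndex (L1 ⊔ L0) :=
          Subgroup.relIndex_le_of_le_right le_sup_left (hfin _ _)
        have e2 : L0.relIndex (L1 ⊔ L0) * (L1 ⊔ L0).relIndex L = L0.relIndex L :=
          Subgroup.relIndex_mul_relIndex _ _ _ le_sup_right (sup_le hL1L h)
        have e3 : (L1 ⊔ L0).relIndex L ≠ 1 := by
          intro h1
          rw [Subgroup.relIndex_eq_one] at h1
          exact hsup h1
        have e4 : 2 ≤ (L1 ⊔ L0).relIndex L := by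
          have := hfin (L1 ⊔ L0) L
          omega
        have e5 : L0.relIndex L1 * 2 ≤ L0.relIndex L := by
          rw [← e2]
          exact Nat.mul_le_mul e1 e4
        have e6 := hfin L0 L1
        have hn1 : Nor L1 (L1 ⊓ L0) := nor_inf (nor_self L1) (nor_mono hL1L hn)
        have e7 : (L1 ⊓ L0).relIndex L1 = L0.relIndex L1 := Subgroup.inf_relIndex_left _ _
        obtain ⟨t, t1, t2, t3⟩ := ih (L0.relIndex L1) (by omega) L1 (L1 ⊓ L0) inf_le_left hn1 e7
        refine ⟨c :: t, ?_, t2.trans inf_le_right, ?_⟩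
        · rw [List.length_cons]
          rw [e7] at t1
          have e8 : Nat.log 2 (L0.relIndex L1 * 2) = Nat.log 2 (L0.relIndex L1) + 1 :=
            Nat.log_mul_base (by norm_num) e6
          have e9 := Nat.log_mono_right (b := 2) e5
          omega
        · intro p hp
          rw [List.mem_cons] at hp
          rcases hp with hp | hp
          · exact hc p hp.symm
          · exact t3 p hp
  exact key _ L L0 h hn rfl

end Pool.Agent.Helper94.BC
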