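import Pool.Agent.Helper94.BC.Block
import Pool.Agent.Helper94.BC.ListL

set_option autoImplicit false

open scoped Pointwise commutatorElement

namespace Pool.Agent.Helper94.BC

/-- In a finite group of the class every subgroup of index `k` contains `Ser s ⊤` for a list `s` of
length at most `c (log₂ k)²`. -/
theorem trans_list (B : ℕ) : ∃ c : ℕ, ∀ (G : Type) [Group G] [Finite G], Cls B G →
    ∀ Y : Subgroup G, ∃ s : List (Option ℕ), s.length ≤ c * Nat.log 2 Y.index ^ 2 ∧
      Ser s (⊤ : Subgroup G) ≤ Y ∧ ∀ p, some p ∈ s → p.Prime ∧ p ∣ Nat.card G := by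
  obtain ⟨c, hc⟩ := block B
  refine ⟨c, ?_⟩
  intro G _ _ hcls
  have key : ∀ n : ℕ, ∀ Y : Subgroup G, Y.index = n → ∃ s : List (Option ℕ),
      s.length ≤ c * Nat.log 2 Y.index ^ 2 ∧
      Ser s (⊤ : Subgroup G) ≤ Y ∧ ∀ p, some p ∈ s → p.Prime ∧ p ∣ Nat.card G := by
    intro n
    induction n using Nat.strong_induction_on with
    | _ n ih =>
      intro Y hYn
      by_cases hY : Y = ⊤
      · refine ⟨[], by simp, ?_, ?_⟩
        · rw [hY]; exact le_top
        · intro p hp
          simp at hp
      · obtain ⟨Z, Y0, hYZ, hY0, hnor, hle⟩ := hc G hcls Y hY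
        have hmul : Y.relIndex Z * Z.index = Y.index := Subgroup.relIndex_mul_index hYZ.le
        have hZ0 : Z.index ≠ 0 := Subgroup.index_ne_zero_of_finite
        have hR0 : Y.relIndex Z ≠ 0 := Subgroup.index_ne_zero_of_finite
        have hR1 : Y.relIndex Z ≠ 1 := by
          intro h
          rw [Subgroup.relIndex_eq_one] at h
          exact absurd h (not_le_of_gt hYZ)
        have hlt : Z.index < n := by
          rw [← hYn, ← hmul]
          calc Z.index = 1 * Z.index := (one_mul _).symm
            _ < Y.relIndex Z * Z.index :=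
              Nat.mul_lt_mul_of_pos_right (by omega) (Nat.pos_of_ne_zero hZ0)
        obtain ⟨s1, h1, h2, h3⟩ := ih Z.index hlt Z rfl
        set L := Ser s1 (⊤ : Subgroup G) with hL
        have hLn : Nor L (L ⊓ Y0) := nor_inf (nor_self L) (nor_mono h2 hnor)
        obtain ⟨t, t1, t2, t3⟩ := list_exists L (L ⊓ Y0) inf_le_left hLn
        refine ⟨s1 ++ t, ?_, ?_, ?_⟩
        · have e1 : (L ⊓ Y0).relIndex L ≤ Y0.relIndex Z := by
            rw [Subgroup.inf_relIndex_left]
            exact Subgroup.relIndex_le_of_le_right h2 Subgroup.index_ne_zero_of_finite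
          have e2 : Nat.log 2 ((L ⊓ Y0).relIndex L) ≤ c * Nat.log 2 (Y.relIndex Z) ^ 2 := by
            have := Nat.log_mono_right (b := 2) (e1.trans hle)
            rwa [Nat.log_pow (by norm_num)] at this
          have e3 : Nat.log 2 (Y.relIndex Z) + Nat.log 2 Z.index ≤ Nat.log 2 Y.index := by
            rw [← hmul]
            refine Nat.le_log_of_pow_le (by norm_num) ?_
            rw [pow_add]
            exact Nat.mul_le_mul (Nat.pow_log_le_self 2 hR0) (Nat.pow_log_le_self 2 hZ0)
          rw [List.length_append]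
          calc s1.length + t.length
              ≤ c * Nat.log 2 Z.index ^ 2 + c * Nat.log 2 (Y.relIndex Z) ^ 2 :=
                Nat.add_le_add h1 (t1.trans e2)
            _ = c * (Nat.log 2 Z.index ^ 2 + Nat.log 2 (Y.relIndex Z) ^ 2) := by ring
            _ ≤ c * (Nat.log 2 (Y.relIndex Z) + Nat.log 2 Z.index) ^ 2 := by
                apply Nat.mul_le_mul_left
                nlinarith [Nat.zero_le (Nat.log 2 (Y.relIndex Z) * Nat.log 2 Z.index)]
            _ ≤ c * Nat.log 2 Y.index ^ 2 :=
                Nat.mul_le_mul_left _ (Nat.pow_le_pow_left e3 2)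
        · rw [ser_append, ← hL]
          exact t2.trans (inf_le_right.trans hY0)
        · intro p hp
          rw [List.mem_append] at hp
          rcases hp with hp | hp
          · exact h3 p hp
          · exact t3 p hp
  exact fun Y => key Y.index Y rfl

end Pool.Agent.Helper94.BC
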