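import Pool.Agent.Helper94.BC.Chain
import Pool.Agent.Helper94.BC.Trans
import Pool.Agent.Helper94.BC.ClsQ

set_option autoImplicit false

open scoped Pointwise commutatorElement

namespace Pool.Agent.Helper94.BC

private theorem factorial_le_two_pow (k : ℕ) : k.factorial ≤ 2 ^ (k ^ 2) := by
  calc k.factorial ≤ k ^ k := Nat.factorial_le_pow k
    _ ≤ (2 ^ k) ^ k := Nat.pow_le_pow_left (Nat.lt_two_pow_self).le k
    _ = 2 ^ (k ^ 2) := by rw [← pow_mul, sq]

private theorem gn_mono {G : Type} [Group G] {X : Set G} {A : Subgroup G} {R R' : ℕ}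
    (h : R ≤ R') (hA : Gn X A R) : Gn X A R' :=
  hA.trans (Subgroup.closure_mono (Set.inter_subset_inter_right _ (bl_mono X h)))

/-- The normal core of a subgroup of index `k` is generated by short elements. -/
theorem core_gen (B : ℕ) (hB : 1 ≤ B) : ∃ c : ℕ, ∀ (G : Type) [Group G] [Finite G] (S : Set G),
    Cls B G → Subgroup.closure S = ⊤ → ∀ Y : Subgroup G,
      Gn S Y.normalCore ((31 * B ^ 3 * Y.index ^ 6) ^ (c * Nat.log 2 Y.index ^ 2)) := by
  obtain ⟨c, hc⟩ := trans_list B
  refine ⟨c, fun G _ _ S hcls hS Y => ?_⟩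
  have hk0 : Y.index ≠ 0 := Subgroup.index_ne_zero_of_finite
  have hk : 1 ≤ Y.index := Nat.one_le_iff_ne_zero.2 hk0
  set F : G →* Equiv.Perm (G ⧸ Y) := MulAction.toPermHom G (G ⧸ Y) with hF
  set f : G →* F.range := F.rangeRestrict with hf
  have hsurj : Function.Surjective f := F.rangeRestrict_surjective
  have hker : f.ker = Y.normalCore := by
    rw [hf, MonoidHom.ker_rangeRestrict, hF, ← Subgroup.normalCore_eq_ker]
  have hkerY : f.ker ≤ Y := by
    rw [hker]
    exact Subgroup.normalCore_le Y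
  have hdvd : Nat.card F.range ∣ Y.index.factorial := by
    have h1 : Nat.card F.range ∣ Nat.card (Equiv.Perm (G ⧸ Y)) := Subgroup.card_subgroup_dvd_card _
    rwa [Nat.card_perm] at h1
  have hcard : Nat.card F.range ≤ 2 ^ (Y.index ^ 2) :=
    (Nat.le_of_dvd (Nat.factorial_pos _) hdvd).trans (factorial_le_two_pow _)
  have hclsP : Cls B F.range := cls_map f hsurj hcls
  obtain ⟨s, hs1, hs2, hs3⟩ := hc F.range hclsP (Y.map f)
  have hidx : (Y.map f).index = Y.index := Subgroup.index_map_eq Y hsurj hkerY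
  rw [hidx] at hs1
  have hbot : Ser s (⊤ : Subgroup F.range) = ⊥ := by
    have hn : (Ser s (⊤ : Subgroup F.range)).Normal := ser_normal s
    have h1 : (Ser s (⊤ : Subgroup F.range)).comap f ≤ Y.normalCore := by
      have hn2 : ((Ser s (⊤ : Subgroup F.range)).comap f).Normal := hn.comap f
      rw [Subgroup.normal_le_normalCore]
      refine (Subgroup.comap_mono hs2).trans ?_
      rw [Subgroup.comap_map_eq]
      exact sup_le le_rfl hkerY
    rw [← hker] at h1
    rw [eq_bot_iff]
    intro x hx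
    obtain ⟨g, rfl⟩ := hsurj x
    exact h1 hx
  have hlet : ∀ p, some p ∈ s → 1 ≤ p ∧ p ≤ Y.index := by
    intro p hp
    obtain ⟨h1, h2⟩ := hs3 p hp
    exact ⟨h1.one_lt.le, (h1.dvd_factorial).1 (h2.trans hdvd)⟩
  have h := chain S hS f hsurj B hB hclsP Y.index hk hcard s hlet hbot
  rw [hker] at h
  refine gn_mono ?_ h
  refine Nat.pow_le_pow_right ?_ hs1
  have h3 : 0 < 31 * B ^ 3 * Y.index ^ 6 := by positivity
  exact h3

end Pool.Agent.Helper94.BC
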