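import Pool.Agent.Helper94.BC.Defs
import Pool.Agent.Helper39.BC.Tree

set_option autoImplicit false

open scoped Pointwise commutatorElement

namespace Pool.Agent.Helper94.BC

/-- Balanced commutator trees: short elements outside of exactly one member of a family of
prime normal subgroups of bounded index. -/
theorem tree {A : Type} [Group A] (X : Set A) (hX : Subgroup.closure X = ⊤) {ι : Type} [Finite ι]
    (N : ι → Subgroup A) (hN : ∀ i, (N i).Normal) (D : ℕ)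
    (hD : ∀ i, (N i).index ≠ 0 ∧ (N i).index ≤ D) (hne : ∀ i, N i ≠ ⊤)
    (hpr : ∀ i, ∀ a b : A, a ∉ N i → b ∉ N i → ∃ g : A, ⁅a, g * b * g⁻¹⁆ ∉ N i)
    (hinc : ∀ i j, i ≠ j → ¬ N j ≤ N i) (i : ι) :
    ∃ y ∈ Bl X (12 * D ^ 2 * Nat.card ι ^ 2), y ∉ N i ∧ ∀ j, j ≠ i → y ∈ N j := by
  classical
  have := Fintype.ofFinite ι
  set k := Fintype.card ι with hk
  have hk1 : 1 ≤ k := Fintype.card_pos_iff.2 ⟨i⟩
  have hcl : k ≤ 2 ^ Nat.clog 2 k := Nat.le_pow_clog (by norm_num) k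
  have hcl2 : 2 ^ Nat.clog 2 k ≤ 2 * k := by
    rcases Nat.lt_or_ge 1 k with h | h
    · have h1 := Nat.pow_pred_clog_lt_self (b := 2) (by norm_num) h
      have h2 : 0 < Nat.clog 2 k := Nat.clog_pos (by norm_num) h
      obtain ⟨e, he⟩ : ∃ e, Nat.clog 2 k = e + 1 := ⟨Nat.clog 2 k - 1, by omega⟩
      rw [he] at h1 ⊢
      rw [Nat.pred_succ] at h1
      rw [pow_succ]
      omega
    · have h3 : k = 1 := by omega
      rw [h3]
      simp
  have hbase : ∀ x ∈ (({1} : Set A) ∪ X ∪ X⁻¹), x⁻¹ ∈ (({1} : Set A) ∪ X ∪ X⁻¹) := by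
    rintro x ((h | h) | h)
    · rw [Set.mem_singleton_iff] at h
      rw [h, inv_one]
      exact one_mem_base X
    · exact Or.inr (by rwa [Set.mem_inv, inv_inv])
    · exact Or.inl (Or.inr h)
  have hclo : Subgroup.closure (({1} : Set A) ∪ X ∪ X⁻¹) = ⊤ := by
    rw [eq_top_iff, ← hX]
    exact Subgroup.closure_mono fun x hx => Or.inl (Or.inr hx)
  obtain ⟨y, hy, h1, h2⟩ := Pool.Agent.Helper39.BC.tree N _ (one_mem_base X) hbase hclo hN D hD
    (fun v => by
      by_contra hcon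
      push Not at hcon
      exact hne v (eq_top_iff.2 fun x _ => hcon x))
    (fun v a b ha hb => by
      obtain ⟨g, hg⟩ := hpr v a b ha hb
      exact ⟨g, by rwa [commutatorElement_def] at hg⟩)
    (fun v v' hvv => Set.not_subset.1 (hinc v v' hvv)) (Nat.clog 2 k) i (Finset.univ.erase i)
    ((Finset.card_le_univ _).trans hcl) (Finset.notMem_erase _ _)
  refine ⟨y, bl_mono X ?_ hy, h1, fun j hj => h2 j (Finset.mem_erase.2 ⟨hj, Finset.mem_univ _⟩)⟩
  rw [Nat.card_eq_fintype_card, ← hk]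
  calc 4 ^ Nat.clog 2 k * (3 * D ^ 2) = (2 ^ Nat.clog 2 k) ^ 2 * (3 * D ^ 2) := by
        rw [← pow_mul, mul_comm (Nat.clog 2 k) 2, pow_mul]
        norm_num
    _ ≤ (2 * k) ^ 2 * (3 * D ^ 2) := Nat.mul_le_mul_right _ (Nat.pow_le_pow_left hcl2 2)
    _ = 12 * D ^ 2 * k ^ 2 := by ring

end Pool.Agent.Helper94.BC
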