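import Pool.Agent.Helper94.BC.Sub
import Pool.Agent.Helper94.BC.Tree

set_option autoImplicit false

open scoped Pointwise commutatorElement

namespace Pool.Agent.Helper94.BC

/-- `N` is a maximal normal subgroup with non-abelian quotient -/
private structure MX {A : Type} [Group A] (N : Subgroup A) : Prop where
  nor : N.Normal
  max : ∀ L : Subgroup A, L.Normal → N ≤ L → L = N ∨ L = ⊤
  nab : ¬ ∀ a b : A, ⁅a, b⁆ ∈ N

private theorem mx_of_nm {P : Type} [Group P] {H N : Subgroup P} (h : NM H N) :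
    MX (N.subgroupOf H) where
  nor := by
    constructor
    intro n hn g
    rw [Subgroup.mem_subgroupOf] at hn ⊢
    exact h.nor g g.2 n hn
  max := by
    intro L hL hNL
    have h1 : N ≤ L.map H.subtype := by
      intro x hx
      exact ⟨⟨x, h.le hx⟩, hNL (Subgroup.mem_subgroupOf.2 hx), rfl⟩
    have h2 : L.map H.subtype ≤ H := by
      rintro _ ⟨x, _, rfl⟩
      exact x.2
    have h3 : Nor H (L.map H.subtype) := by
      rintro g hg _ ⟨x, hx, rfl⟩
      exact ⟨⟨g, hg⟩ * x * ⟨g, hg⟩⁻¹, hL.conj_mem x hx ⟨g, hg⟩, by simp⟩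
    rcases h.max _ h1 h2 h3 with h4 | h4
    · left
      ext x
      rw [Subgroup.mem_subgroupOf]
      constructor
      · intro hx
        rw [← h4]
        exact ⟨x, hx, rfl⟩
      · intro hx
        rw [← h4] at hx
        obtain ⟨y, hy, hyx⟩ := hx
        have : y = x := Subtype.ext hyx
        rwa [← this]
    · right
      rw [eq_top_iff]
      intro x _
      have hx : (x : P) ∈ L.map H.subtype := by
        rw [h4]
        exact x.2
      obtain ⟨y, hy, hyx⟩ := hx
      have : y = x := Subtype.ext hyx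
      rwa [← this]
  nab := by
    intro hcon
    apply h.nab
    rw [Subgroup.commutator_le]
    intro a ha b hb
    have := hcon ⟨a, ha⟩ ⟨b, hb⟩
    rw [Subgroup.mem_subgroupOf] at this
    simpa [commutatorElement_def] using this

private theorem MX.ne_top {A : Type} [Group A] {N : Subgroup A} (h : MX N) : N ≠ ⊤ := by
  intro h1
  apply h.nab
  intro a b
  rw [h1]
  trivial

private theorem MX.prime {A : Type} [Group A] {N : Subgroup A} (h : MX N) (a b : A) (ha : a ∉ N)
    (hb : b ∉ N) : ∃ g : A, ⁅a, g * b * g⁻¹⁆ ∉ N := by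
  by_contra hcon
  push Not at hcon
  have hn := h.nor
  -- the normal closure of `b` and `N`
  have hT : Subgroup.normalClosure {b} ⊔ N = ⊤ := by
    rcases h.max (Subgroup.normalClosure {b} ⊔ N) inferInstance le_sup_right with h1 | h1
    · exfalso
      apply hb
      rw [← h1]
      exact Subgroup.mem_sup_left (Subgroup.subset_normalClosure (Set.mem_singleton b))
    · exact h1
  have hmk : ∀ x y : A, ⁅x, y⁆ ∈ N ↔ (x : A ⧸ N) * y = y * x := by
    intro x y
    rw [← QuotientGroup.eq_one_iff, commutatorElement_def]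
    simp only [QuotientGroup.mk_mul, QuotientGroup.mk_inv]
    rw [mul_inv_eq_one, mul_inv_eq_iff_eq_mul]
  have hZ : ∀ x : A, ⁅a, x⁆ ∈ N := by
    have h2 : Subgroup.normalClosure {b} ⊔ N ≤
        (Subgroup.centralizer {(a : A ⧸ N)}).comap (QuotientGroup.mk' N) := by
      refine sup_le ?_ ?_
      · rw [Subgroup.normalClosure, Subgroup.closure_le]
        intro x hx
        rw [Group.mem_conjugatesOfSet_iff] at hx
        obtain ⟨b', hb', hx'⟩ := hx
        rw [Set.mem_singleton_iff] at hb'
        rw [hb', isConj_iff] at hx'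
        obtain ⟨g, hg⟩ := hx'
        rw [SetLike.mem_coe, Subgroup.mem_comap, Subgroup.mem_centralizer_iff]
        intro y hy
        rw [Set.mem_singleton_iff] at hy
        rw [hy, QuotientGroup.mk'_apply, ← hg]
        exact (hmk _ _).1 (hcon g)
      · intro x hx
        rw [Subgroup.mem_comap, QuotientGroup.mk'_apply, (QuotientGroup.eq_one_iff x).2 hx]
        exact Subgroup.one_mem _
    rw [hT] at h2
    intro x
    have h3 := h2 (Subgroup.mem_top x)
    rw [Subgroup.mem_comap, Subgroup.mem_centralizer_iff] at h3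
    exact (hmk _ _).2 (h3 _ rfl)
  -- the centre
  have h4 : N ≤ (Subgroup.center (A ⧸ N)).comap (QuotientGroup.mk' N) := by
    intro x hx
    rw [Subgroup.mem_comap, QuotientGroup.mk'_apply, (QuotientGroup.eq_one_iff x).2 hx]
    exact Subgroup.one_mem _
  have h5 : a ∈ (Subgroup.center (A ⧸ N)).comap (QuotientGroup.mk' N) := by
    rw [Subgroup.mem_comap, Subgroup.mem_center_iff]
    intro y
    obtain ⟨y, rfl⟩ := QuotientGroup.mk_surjective y
    exact ((hmk _ _).1 (hZ y)).symm
  rcases h.max _ inferInstance h4 with h6 | h6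
  · rw [h6] at h5
    exact ha h5
  · apply h.nab
    intro x y
    have h7 : x ∈ (Subgroup.center (A ⧸ N)).comap (QuotientGroup.mk' N) := by
      rw [h6]
      trivial
    rw [Subgroup.mem_comap, Subgroup.mem_center_iff] at h7
    exact (hmk _ _).2 (h7 y).symm

/-- an element which is trivial modulo the other normal subgroups gives all elements of the
quotient with the same property -/
private theorem conj_gen {A : Type} [Group A] (X : Set A) (hX : Subgroup.closure X = ⊤)
    {N : Subgroup A} (h : MX N) (B : ℕ) (hB : N.index ≠ 0) (hB' : N.index ≤ B) (M : ℕ) (y : A)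
    (hy : y ∈ Bl X M) (hyN : y ∉ N) (g : A) :
    ∃ z ∈ Bl X ((M + 2 * B) * B), g * z⁻¹ ∈ N ∧
      ∀ L : Subgroup A, L.Normal → y ∈ L → z ∈ L := by
  have hn := h.nor
  have hbinv : ∀ x ∈ (({1} : Set A) ∪ X ∪ X⁻¹), x⁻¹ ∈ (({1} : Set A) ∪ X ∪ X⁻¹) := by
    rintro x ((h | h) | h)
    · rw [Set.mem_singleton_iff] at h
      rw [h, inv_one]
      exact one_mem_base X
    · exact Or.inr (by rwa [Set.mem_inv, inv_inv])
    · exact Or.inl (Or.inr h)
  have hclo : Subgroup.closure (({1} : Set A) ∪ X ∪ X⁻¹) = ⊤ := by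
    rw [eq_top_iff, ← hX]
    exact Subgroup.closure_mono fun x hx => Or.inl (Or.inr hx)
  have hrep : ∀ x : A, ∃ c ∈ Bl X B, c⁻¹ * x ∈ N := fun x =>
    Pool.Agent.Helper39.BC.exists_short' _ (one_mem_base X) hbinv hclo N hB B hB' x
  let S : Set A := {x | x = 1 ∨ ∃ c ∈ Bl X B, x = c * y * c⁻¹ ∨ x = c * y⁻¹ * c⁻¹}
  have hSB : S ⊆ Bl X (M + 2 * B) := by
    rintro x (hx | ⟨c, hc, hx | hx⟩)
    · rw [hx]
      exact one_mem_bl X _
    · rw [hx]
      exact conj_mem_bl hc hy
    · rw [hx]
      exact conj_mem_bl hc (inv_mem_bl hy)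
  have hSL : ∀ L : Subgroup A, L.Normal → y ∈ L → S ⊆ L := by
    intro L hL hyL
    rintro x (hx | ⟨c, hc, hx | hx⟩)
    · rw [hx]
      exact L.one_mem
    · rw [hx]
      exact hL.conj_mem y hyL c
    · rw [hx]
      exact hL.conj_mem _ (L.inv_mem hyL) c
  let S' : Set (A ⧸ N) := (QuotientGroup.mk' N) '' S
  have h1 : (1 : A ⧸ N) ∈ S' := ⟨1, Or.inl rfl, by simp⟩
  have hinv : ∀ x ∈ S', x⁻¹ ∈ S' := by
    rintro _ ⟨x, hx, rfl⟩
    refine ⟨x⁻¹, ?_, by simp⟩
    rcases hx with hx | ⟨c, hc, hx | hx⟩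
    · left
      rw [hx, inv_one]
    · right
      refine ⟨c, hc, Or.inr ?_⟩
      rw [hx]
      group
    · right
      refine ⟨c, hc, Or.inl ?_⟩
      rw [hx]
      group
  have hall : ∀ x : A, ((x * y * x⁻¹ : A) : A ⧸ N) ∈ S' := by
    intro x
    obtain ⟨c, hc, hcx⟩ := hrep x
    refine ⟨c * y * c⁻¹, Or.inr ⟨c, hc, Or.inl rfl⟩, ?_⟩
    have e : (c : A ⧸ N) = x := QuotientGroup.eq.2 hcx
    rw [QuotientGroup.mk'_apply]
    simp only [QuotientGroup.mk_mul, QuotientGroup.mk_inv]
    rw [e]
  have hgen : Subgroup.closure S' = ⊤ := by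
    let T : Subgroup A := (Subgroup.closure S').comap (QuotientGroup.mk' N)
    have hNT : N ≤ T := by
      intro x hx
      rw [Subgroup.mem_comap, QuotientGroup.mk'_apply, (QuotientGroup.eq_one_iff x).2 hx]
      exact Subgroup.one_mem _
    have hTn : T.Normal := by
      constructor
      intro t ht x
      rw [Subgroup.mem_comap] at ht ⊢
      -- conjugation by `x` maps `S'` into its closure
      have hmap : Subgroup.closure S' ≤
          (Subgroup.closure S').comap (MulAut.conj (x : A ⧸ N)).toMonoidHom := by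
        rw [Subgroup.closure_le]
        rintro _ ⟨s, hs, rfl⟩
        rw [SetLike.mem_coe, Subgroup.mem_comap]
        have hs' : (x * s * x⁻¹ : A) ∈ T := by
          rw [Subgroup.mem_comap, QuotientGroup.mk'_apply]
          rcases hs with hs | ⟨c, hc, hs | hs⟩
          · rw [hs]
            simp only [mul_one, mul_inv_cancel]
            exact Subgroup.one_mem _
          · have e : x * s * x⁻¹ = (x * c) * y * (x * c)⁻¹ := by
              rw [hs]
              group
            rw [e]
            exact Subgroup.subset_closure (hall _)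
          · have e : x * s * x⁻¹ = ((x * c) * y * (x * c)⁻¹)⁻¹ := by
              rw [hs]
              group
            rw [e, QuotientGroup.mk_inv]
            exact Subgroup.inv_mem _ (Subgroup.subset_closure (hall _))
        rw [Subgroup.mem_comap] at hs'
        simpa using hs'
      have := hmap ht
      rw [Subgroup.mem_comap] at this
      simpa using this
    have hyT : y ∈ T := by
      rw [Subgroup.mem_comap, QuotientGroup.mk'_apply]
      have := hall 1
      rw [one_mul, inv_one, mul_one] at this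
      exact Subgroup.subset_closure this
    have hT : T = ⊤ := by
      rcases h.max T hTn hNT with h2 | h2
      · exact absurd (h2 ▸ hyT) hyN
      · exact h2
    rw [eq_top_iff]
    intro q _
    obtain ⟨x, rfl⟩ := QuotientGroup.mk_surjective q
    have hx : x ∈ T := by
      rw [hT]
      trivial
    exact hx
  have hcard : (⊥ : Subgroup (A ⧸ N)).index = N.index := by
    rw [Subgroup.index_bot, Subgroup.index_eq_card]
  obtain ⟨q, hq, hqg⟩ := Pool.Agent.Helper39.BC.exists_short' S' h1 hinv hgen ⊥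
    (by rw [hcard]; exact hB) B (by rw [hcard]; exact hB') (g : A ⧸ N)
  rw [Subgroup.mem_bot, inv_mul_eq_one] at hqg
  rw [← Set.image_pow] at hq
  obtain ⟨z, hz, hzq⟩ := hq
  refine ⟨z, ?_, ?_, ?_⟩
  · have h2 : S ^ B ⊆ (Bl X (M + 2 * B)) ^ B := Set.pow_subset_pow_left hSB
    have h3 := h2 hz
    rw [Bl, ← pow_mul] at h3
    exact h3
  · rw [← QuotientGroup.eq_one_iff]
    simp only [QuotientGroup.mk_mul, QuotientGroup.mk_inv]
    rw [← hqg, ← hzq, QuotientGroup.mk'_apply, mul_inv_cancel]
  · intro L hL hyL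
    have h2 : ∀ n : ℕ, S ^ n ⊆ L := by
      intro n
      induction n with
      | zero =>
        rw [pow_zero]
        intro x hx
        rw [Set.mem_one] at hx
        rw [hx]
        exact L.one_mem
      | succ n ih =>
        rw [pow_succ]
        rintro _ ⟨a, ha, b, hb, rfl⟩
        exact L.mul_mem (ih ha) (hSL L hL hyL hb)
    exact h2 B hz

/-- Diameter of the non-abelian layer. -/
theorem diamT {P : Type} [Group P] [Finite P] (B : ℕ) (hcls : Cls B P) (H : Subgroup P)
    (X : Set P) (hXH : Subgroup.closure X = H) (m : ℕ) (hm : Nat.card H ≤ 2 ^ m) :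
    ∀ h ∈ H, ∃ y ∈ Bl X (14 * B ^ 3 * m ^ 3), h * y⁻¹ ∈ PhiT H := by
  classical
  subst hXH
  set H := Subgroup.closure X with hH
  let ι : Type := {N : Subgroup P // NM H N}
  have hfin : Fintype (Subgroup P) := Fintype.ofFinite _
  let F : Finset (Subgroup P) := Finset.univ.filter fun N => NM H N
  have hF : ∀ N ∈ F, NM H N := fun N hN => (Finset.mem_filter.1 hN).2
  have hcardι : Nat.card ι = F.card := by
    rw [Nat.card_eq_fintype_card, Fintype.card_subtype]
  have hjm : Nat.card ι ≤ m := by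
    rw [hcardι]
    have h1 := two_pow_card_le F hF
    have h2 : (H ⊓ F.inf id).relIndex H ≤ Nat.card H :=
      Nat.le_of_dvd Nat.card_pos (Subgroup.relIndex_dvd_card _ _)
    exact (Nat.pow_le_pow_iff_right (by norm_num : 1 < 2)).1 ((h1.trans h2).trans hm)
  let A : Type := H
  let X' : Set H := (fun x : H => (x : P)) ⁻¹' X
  have hX' : Subgroup.closure X' = ⊤ := Subgroup.closure_closure_coe_preimage
  let N : ι → Subgroup H := fun i => i.1.subgroupOf H
  have hMX : ∀ i, MX (N i) := fun i => mx_of_nm i.2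
  have hidx : ∀ i, (N i).index ≠ 0 ∧ (N i).index ≤ B := by
    intro i
    refine ⟨Subgroup.index_ne_zero_of_finite, ?_⟩
    exact hcls H i.1 i.2
  have hinc : ∀ i j, i ≠ j → ¬ N j ≤ N i := by
    intro i j hij hle
    rcases (hMX j).max (N i) (hMX i).nor hle with h1 | h1
    · apply hij
      apply Subtype.ext
      have h2 : (N i).map H.subtype = (N j).map H.subtype := by rw [h1]
      simp only [N] at h2
      rw [Subgroup.subgroupOf_map_subtype, Subgroup.subgroupOf_map_subtype,
        inf_eq_left.2 i.2.le, inf_eq_left.2 j.2.le] at h2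
      exact h2
    · exact (hMX i).ne_top h1
  have htree := fun i => tree X' hX' N (fun i => (hMX i).nor) B hidx (fun i => (hMX i).ne_top)
    (fun i => (hMX i).prime) hinc i
  set j := Nat.card ι with hj
  have hz : ∀ (i : ι) (g : H), ∃ z ∈ Bl X' ((12 * B ^ 2 * j ^ 2 + 2 * B) * B),
      g * z⁻¹ ∈ N i ∧ ∀ k, k ≠ i → z ∈ N k := by
    intro i g
    obtain ⟨y, hy, hyi, hyj⟩ := htree i
    obtain ⟨z, hz1, hz2, hz3⟩ := conj_gen X' hX' (hMX i) B (hidx i).1 (hidx i).2 _ y hy hyi g
    exact ⟨z, hz1, hz2, fun k hk => hz3 (N k) (hMX k).nor (hyj k hk)⟩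
  have hprod : ∀ (g : H) (J : Finset ι), ∃ y ∈ Bl X' (J.card * ((12 * B ^ 2 * j ^ 2 + 2 * B) * B)),
      (∀ i ∈ J, g * y⁻¹ ∈ N i) ∧ ∀ i, i ∉ J → y ∈ N i := by
    intro g J
    induction J using Finset.induction_on with
    | empty =>
      exact ⟨1, one_mem_bl _ _, fun i hi => absurd hi (Finset.notMem_empty i),
        fun i _ => Subgroup.one_mem _⟩
    | insert i J hi ih =>
      obtain ⟨y, hy, hy1, hy2⟩ := ih
      obtain ⟨z, hz1, hz2, hz3⟩ := hz i g
      refine ⟨z * y, ?_, ?_, ?_⟩
      · have := mul_mem_bl hz1 hy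
        refine bl_mono _ (le_of_eq ?_) this
        rw [Finset.card_insert_of_notMem hi]
        ring
      · intro k hk
        by_cases hki : k = i
        · subst hki
          have e : g * (z * y)⁻¹ = (g * y⁻¹ * g⁻¹) * (g * z⁻¹) := by group
          rw [e]
          exact (N k).mul_mem ((hMX k).nor.conj_mem _ ((N k).inv_mem (hy2 k hi)) g) hz2
        · have hkJ : k ∈ J := by
            rcases Finset.mem_insert.1 hk with h | h
            · exact absurd h hki
            · exact h
          have e : g * (z * y)⁻¹ = (g * y⁻¹) * z⁻¹ := by group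
          rw [e]
          exact (N k).mul_mem (hy1 k hkJ) ((N k).inv_mem (hz3 k hki))
      · intro k hk
        rw [Finset.mem_insert, not_or] at hk
        exact (N k).mul_mem (hz3 k hk.1) (hy2 k hk.2)
  intro h hh
  have hFι : Fintype ι := Fintype.ofFinite ι
  obtain ⟨y, hy, hy1, _⟩ := hprod ⟨h, hh⟩ Finset.univ
  refine ⟨y, ?_, ?_⟩
  · have h1 : (y : P) ∈ H.subtype '' (Bl X' ((Finset.univ : Finset ι).card *
        ((12 * B ^ 2 * j ^ 2 + 2 * B) * B))) := ⟨y, hy, rfl⟩
    rw [image_bl] at h1
    have h2 : H.subtype '' X' ⊆ X := by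
      rintro _ ⟨x, hx, rfl⟩
      exact hx
    refine bl_mono _ ?_ (bl_mono_set h2 _ h1)
    rw [Finset.card_univ, ← Nat.card_eq_fintype_card, ← hj]
    rcases Nat.eq_zero_or_pos j with h0 | h0
    · rw [h0]
      omega
    rcases Nat.eq_zero_or_pos B with hB0 | hB0
    · rw [hB0]
      simp
    have h3 : j * ((12 * B ^ 2 * j ^ 2 + 2 * B) * B) = 12 * (B ^ 3 * j ^ 3) + 2 * (B ^ 2 * j) := by
      ring
    have h4 : B ^ 2 * j ≤ B ^ 3 * j ^ 3 := by
      refine Nat.mul_le_mul (Nat.pow_le_pow_right hB0 (by norm_num)) ?_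
      calc j = j ^ 1 := (pow_one j).symm
        _ ≤ j ^ 3 := Nat.pow_le_pow_right h0 (by norm_num)
    have h5 : B ^ 3 * j ^ 3 ≤ B ^ 3 * m ^ 3 :=
      Nat.mul_le_mul_left _ (Nat.pow_le_pow_left hjm 3)
    rw [h3]
    calc 12 * (B ^ 3 * j ^ 3) + 2 * (B ^ 2 * j) ≤ 14 * (B ^ 3 * m ^ 3) := by omega
      _ = 14 * B ^ 3 * m ^ 3 := by ring
  · refine ⟨H.mul_mem hh (H.inv_mem y.2), Subgroup.mem_sInf.2 ?_⟩
    intro N' hN'
    have := hy1 ⟨N', hN'⟩ (Finset.mem_univ _)
    simp only [N] at this
    rw [Subgroup.mem_subgroupOf] at this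
    simpa using this

end Pool.Agent.Helper94.BC
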