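import Pool.Agent.Helper94.BC.Pr
import Pool.Agent.Helper83.BCP.Leaf

set_option autoImplicit false

open scoped Pointwise commutatorElement

namespace Pool.Agent.Helper94.BC

/-- The end: a short non-trivial element of `C` gives `2 ^ k` short elements. -/
theorem final_elt (B : ℕ) : ∃ c : ℕ, 1 ≤ c ∧ ∀ (G : Type) [Group G] [Finite G] (S : Set G),
    Subgroup.closure S = ⊤ → ∀ (E : Subgroup G) (k : ℕ) (M : Fin k → Subgroup G)
      (C : Subgroup G), Pr B E M C → ∀ (l : ℕ) (y : G), y ∈ C → y ≠ 1 → y ∈ Bl S l →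
      2 ^ k ≤ Nat.card (Bl S ((c * k) ^ c * (l + 1))) := by
  set D : ℕ := B ^ B with hD
  refine ⟨36 * (D + 1) ^ 4 + 5, by omega, ?_⟩
  intro G _ _ S hS E k M C h l y hyC hy1 hyl
  have hne : (⊥ : Subgroup G) < E := by
    rw [bot_lt_iff_ne_bot]
    intro h1
    apply h.nab
    rw [h1]
    exact Subgroup.commutator_le_self ⊥
  have hyE : ¬ ∀ e ∈ E, ⁅y, e⁆ ∈ (⊥ : Subgroup G) := by
    intro h1
    apply hy1
    apply h.cent
    intro e he
    have h2 := h1 e he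
    rw [Subgroup.mem_bot] at h2
    exact commutatorElement_eq_one_iff_mul_comm.1 h2
  have h1 := Pool.Agent.Helper83.BCP.pow_count (S := S) hS (N := ⊥) (E := E) inferInstance h.nE hne
    (fun L hL _ hLE => h.min L hL hLE) M (C := C) h.nC h.inj h.nm h.bot h.nor_C h.card hyC hyE hyl
  refine h1.trans (Nat.card_mono (Set.toFinite _) (bl_mono S ?_))
  have hk := h.pos
  set c : ℕ := 36 * (D + 1) ^ 4 + 5 with hc
  have h3 : k * ((l + 2 * (k * D) ^ 2) * (12 * D ^ 2 * k ^ 2)) ≤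
      (36 * (D + 1) ^ 4) * k ^ 5 * (l + 1) := by
    have e1 : l + 2 * (k * D) ^ 2 ≤ 3 * (D + 1) ^ 2 * k ^ 2 * (l + 1) := by
      have e2 : 1 ≤ (D + 1) ^ 2 * k ^ 2 := Nat.one_le_iff_ne_zero.2 (by positivity)
      have e3 : (k * D) ^ 2 ≤ (D + 1) ^ 2 * k ^ 2 := by
        rw [mul_pow, mul_comm]
        exact Nat.mul_le_mul_right _ (Nat.pow_le_pow_left (Nat.le_succ D) 2)
      set Z := (D + 1) ^ 2 * k ^ 2 with hZ
      have e4 : 3 * (D + 1) ^ 2 * k ^ 2 * (l + 1) = 3 * (Z * (l + 1)) := by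
        rw [hZ]; ring
      rw [e4]
      have e5 : l ≤ Z * l := Nat.le_mul_of_pos_left _ (by omega)
      have e6 : Z * (l + 1) = Z * l + Z := by ring
      rw [e6]
      omega
    calc k * ((l + 2 * (k * D) ^ 2) * (12 * D ^ 2 * k ^ 2))
        ≤ k * ((3 * (D + 1) ^ 2 * k ^ 2 * (l + 1)) * (12 * (D + 1) ^ 2 * k ^ 2)) := by
          refine Nat.mul_le_mul_left _ (Nat.mul_le_mul e1 ?_)
          refine Nat.mul_le_mul_right _ (Nat.mul_le_mul_left _ ?_)
          exact Nat.pow_le_pow_left (Nat.le_succ D) 2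
      _ = (36 * (D + 1) ^ 4) * k ^ 5 * (l + 1) := by ring
  refine h3.trans (Nat.mul_le_mul_right _ ?_)
  have h4 : 1 ≤ c * k := Nat.one_le_iff_ne_zero.2 (by positivity)
  calc 36 * (D + 1) ^ 4 * k ^ 5 ≤ c ^ 5 * k ^ 5 := by
        refine Nat.mul_le_mul_right _ ?_
        calc 36 * (D + 1) ^ 4 ≤ c := by omega
          _ = c ^ 1 := (pow_one c).symm
          _ ≤ c ^ 5 := Nat.pow_le_pow_right (by omega) (by omega)
    _ = (c * k) ^ 5 := (mul_pow _ _ _).symm
    _ ≤ (c * k) ^ c := Nat.pow_le_pow_right h4 (by omega)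

end Pool.Agent.Helper94.BC
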