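import Pool.Agent.Helper94.BC.TreeCor

set_option autoImplicit false

open scoped Pointwise commutatorElement

namespace Pool.Agent.Helper94.BC

section

variable {G : Type} [Group G]

/-- The image of a pair whose kernel part is small. -/
theorem nm_map_ker {P : Type} [Group P] (f : G →* P) {K N : Subgroup G} (h : NM K N)
    (hker : f.ker ⊓ K ≤ N) :
    NM (K.map f) (N.map f) ∧ (N.map f).relIndex (K.map f) = N.relIndex K := by
  have hmem : ∀ x ∈ K, f x ∈ N.map f → x ∈ N := by
    rintro x hx ⟨n, hn, hnx⟩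
    have h1 : x * n⁻¹ ∈ f.ker ⊓ K := by
      refine ⟨?_, K.mul_mem hx (K.inv_mem (h.le hn))⟩
      show x * n⁻¹ ∈ f.ker
      rw [MonoidHom.mem_ker, map_mul, map_inv, hnx, mul_inv_cancel]
    have h2 := N.mul_mem (hker h1) hn
    simpa using h2
  refine ⟨⟨Subgroup.map_mono h.le, ?_, ?_, ?_⟩, ?_⟩
  · rintro _ ⟨x, hx, rfl⟩ _ ⟨n, hn, rfl⟩
    exact ⟨x * n * x⁻¹, h.nor x hx n hn, by simp⟩
  · intro h1
    apply h.nab
    intro x hx
    refine hmem x (Subgroup.commutator_le_self K hx) (h1 ?_)
    rw [← Subgroup.map_commutator]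
    exact ⟨x, hx, rfl⟩
  · intro L h1 h2 h3
    have h4 : N ≤ L.comap f ⊓ K := le_inf (Subgroup.map_le_iff_le_comap.1 h1) h.le
    have h5 : Nor K (L.comap f ⊓ K) := by
      refine nor_inf ?_ (nor_self K)
      intro g hg n hn
      rw [Subgroup.mem_comap] at hn ⊢
      rw [map_mul, map_mul, map_inv]
      exact h3 (f g) ⟨g, hg, rfl⟩ _ hn
    have h6 : L ≤ (L.comap f ⊓ K).map f := by
      intro l hl
      obtain ⟨k, hk, rfl⟩ := h2 hl
      exact ⟨k, ⟨hl, hk⟩, rfl⟩
    rcases h.max _ h4 inf_le_right h5 with h7 | h7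
    · left
      rw [h7] at h6
      exact le_antisymm h6 h1
    · right
      refine le_antisymm h2 ?_
      rintro _ ⟨k, hk, rfl⟩
      rw [SetLike.mem_coe, ← h7] at hk
      exact hk.1
  · rw [← Subgroup.relIndex_comap, ← Subgroup.inf_relIndex_right]
    congr 1
    refine le_antisymm ?_ (le_inf (Subgroup.le_comap_map f N) h.le)
    rintro x ⟨hx1, hx2⟩
    exact hmem x hx2 hx1

/-- The class for a quotient. -/
theorem cls_quot_iff {B : ℕ} (A : Subgroup G) [A.Normal] : Cls B (G ⧸ A) ↔
    ∀ K N : Subgroup G, NM K N → A ⊓ K ≤ N → N.relIndex K ≤ B := by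
  have hf := QuotientGroup.mk'_surjective A
  constructor
  · intro h K N hKN hA
    have h1 := nm_map_ker (QuotientGroup.mk' A) hKN (by rwa [QuotientGroup.ker_mk'])
    rw [← h1.2]
    exact h _ _ h1.1
  · intro h K N hKN
    have h1 := h _ _ (nm_comap (QuotientGroup.mk' A) hf hKN) (by
      intro x hx
      have h2 : QuotientGroup.mk' A x = 1 := (QuotientGroup.eq_one_iff x).2 hx.1
      rw [Subgroup.mem_comap, h2]
      exact N.one_mem)
    rwa [Subgroup.relIndex_comap, Subgroup.map_comap_eq_self_of_surjective hf] at h1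

theorem cls_quot_mono {B : ℕ} {A A' : Subgroup G} [A.Normal] [A'.Normal] (hAA : A ≤ A')
    (h : Cls B (G ⧸ A)) : Cls B (G ⧸ A') := by
  rw [cls_quot_iff] at h ⊢
  exact fun K N hKN hA => h K N hKN ((inf_le_inf_right _ hAA).trans hA)

/-- The class is closed under subdirect products. -/
theorem cls_inf {B : ℕ} (A A' : Subgroup G) [A.Normal] [A'.Normal] (h : Cls B (G ⧸ A))
    (h' : Cls B (G ⧸ A')) : Cls B (G ⧸ (A ⊓ A')) := by
  rw [cls_quot_iff] at h h' ⊢
  intro K N hKN hA
  have hn : Nor K (A ⊓ K) := nor_inf (nor_of_normal K inferInstance) (nor_self K)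
  have hn' : Nor K (A' ⊓ K) := nor_inf (nor_of_normal K inferInstance) (nor_self K)
  have hc : ⁅A ⊓ K, A' ⊓ K⁆ ≤ N := by
    refine le_trans ?_ hA
    rw [Subgroup.commutator_le]
    intro x hx y hy
    have hxA : A.Normal := inferInstance
    have hyA : A'.Normal := inferInstance
    refine ⟨⟨?_, ?_⟩, ?_⟩
    · have h1 := A.mul_mem hx.1 (hxA.conj_mem _ (A.inv_mem hx.1) y)
      have e : x * (y * x⁻¹ * y⁻¹) = ⁅x, y⁆ := by
        rw [commutatorElement_def]
        group
      rwa [e] at h1
    · exact A'.mul_mem (hyA.conj_mem y hy.1 x) (A'.inv_mem hy.1)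
    · exact K.mul_mem (K.mul_mem (K.mul_mem hx.2 hy.2) (K.inv_mem hx.2)) (K.inv_mem hy.2)
  rcases hKN.prime inf_le_right inf_le_right hn hn' hc with h1 | h1
  · exact h K N hKN h1
  · exact h' K N hKN h1

/-- A pair inside a subgroup of the class. -/
theorem relIndex_le_of_cls_sub {B : ℕ} {A K N : Subgroup G} (hA : Cls B A) (h : NM K N)
    (hK : K ≤ A) : N.relIndex K ≤ B := by
  have h1 : NM (K.subgroupOf A) (N.subgroupOf A) := by
    refine ⟨Subgroup.comap_mono h.le, ?_, ?_, ?_⟩
    · intro g hg n hn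
      rw [Subgroup.mem_subgroupOf] at hg hn ⊢
      exact h.nor _ hg _ hn
    · intro h2
      apply h.nab
      have h3 := Subgroup.map_mono (f := A.subtype) h2
      rwa [Subgroup.map_commutator, Subgroup.map_subgroupOf_eq_of_le hK,
        Subgroup.map_subgroupOf_eq_of_le (h.le.trans hK)] at h3
    · intro L h2 h3 h4
      have h5 : N ≤ L.map A.subtype := by
        have := Subgroup.map_mono (f := A.subtype) h2
        rwa [Subgroup.map_subgroupOf_eq_of_le (h.le.trans hK)] at this
      have h6 : L.map A.subtype ≤ K := by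
        have := Subgroup.map_mono (f := A.subtype) h3
        rwa [Subgroup.map_subgroupOf_eq_of_le hK] at this
      have h7 : Nor K (L.map A.subtype) := by
        rintro g hg _ ⟨l, hl, rfl⟩
        exact ⟨⟨g, hK hg⟩ * l * ⟨g, hK hg⟩⁻¹, h4 _ (Subgroup.mem_subgroupOf.2 hg) l hl, rfl⟩
      have h8 : (L.map A.subtype).subgroupOf A = L := by
        rw [Subgroup.subgroupOf]
        exact Subgroup.comap_map_eq_self_of_injective A.subtype_injective L
      rcases h.max _ h5 h6 h7 with h9 | h9
      · left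
        rw [← h8, h9]
      · right
        rw [← h8, h9]
  have h2 := hA _ _ h1
  rwa [Subgroup.relIndex_subgroupOf hK] at h2

/-- The class is closed under extensions. -/
theorem cls_ext {B : ℕ} (A : Subgroup G) [A.Normal] (hA : Cls B A) (hQ : Cls B (G ⧸ A)) :
    Cls B G := by
  rw [cls_quot_iff] at hQ
  intro K N hKN
  by_cases h : A ⊓ K ≤ N
  · exact hQ K N hKN h
  · have hn : Nor K (A ⊓ K) := nor_inf (nor_of_normal K inferInstance) (nor_self K)
    rw [relIndex_suppl hKN inf_le_right hn h, ← Subgroup.inf_relIndex_left]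
    exact relIndex_le_of_cls_sub hA (nm_inf hKN inf_le_right hn h) inf_le_left

/-- Soluble groups are in the class. -/
theorem cls_sol {B : ℕ} (h : Group.IsSolvable G) : Cls B G := by
  intro K N hKN
  exfalso
  obtain ⟨n, hn⟩ := (Group.isSolvable_def G).1 h
  have key : ∀ m, ¬ derivedSeries G m ⊓ K ≤ N := by
    intro m
    induction m with
    | zero =>
      intro h1
      apply hKN.nab
      refine (Subgroup.commutator_le_self K).trans (le_trans ?_ h1)
      exact le_inf (by rw [derivedSeries_zero]; exact le_top) le_rfl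
    | succ m ih =>
      intro h1
      apply ih
      have hnor : Nor K (derivedSeries G m ⊓ K) :=
        nor_inf (nor_of_normal K (derivedSeries_normal G m)) (nor_self K)
      have hc : ⁅derivedSeries G m ⊓ K, derivedSeries G m ⊓ K⁆ ≤ N := by
        refine le_trans (le_inf ?_ ?_) h1
        · rw [derivedSeries_succ]
          exact Subgroup.commutator_mono inf_le_left inf_le_left
        · exact (Subgroup.commutator_mono inf_le_right inf_le_right).trans
            (Subgroup.commutator_le_self K)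
      rcases hKN.prime inf_le_right inf_le_right hnor hnor hc with h2 | h2 <;> exact h2
  apply key n
  rw [hn]
  intro x hx
  have : x = 1 := hx.1
  rw [this]
  exact N.one_mem

end

end Pool.Agent.Helper94.BC
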