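import Pool.Agent.Helper94.RS4.FinalVN
import Pool.Agent.Helper94.BC.Defs

set_option autoImplicit false

open scoped Pointwise commutatorElement

namespace Pool.Agent.Helper94.BC

theorem gr_log (γ ε : ℝ) (h1 : γ < 1) (hε : 0 < ε) :
    ∃ n0 : ℕ, ∀ n : ℕ, n0 ≤ n → Real.exp (Real.log n ^ γ) ≤ (n : ℝ) ^ ε := by
  have h2 : Filter.Tendsto (fun x : ℝ => x ^ (-(1 - γ))) Filter.atTop (nhds 0) :=
    tendsto_rpow_neg_atTop (by linarith)
  have h3 : Filter.Tendsto (fun n : ℕ => Real.log (n : ℝ)) Filter.atTop Filter.atTop :=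
    Real.tendsto_log_atTop.comp tendsto_natCast_atTop_atTop
  have h4 := (h2.comp h3).eventually (gt_mem_nhds hε)
  have h5 := h3.eventually (Filter.eventually_ge_atTop 1)
  have h6 := Filter.eventually_ge_atTop (α := ℕ) 1
  obtain ⟨n0, hn0⟩ := Filter.eventually_atTop.1 (h4.and (h5.and h6))
  refine ⟨n0, fun n hn => ?_⟩
  obtain ⟨h7, h8, h9⟩ := hn0 n hn
  have hn1 : (0 : ℝ) < n := by exact_mod_cast h9
  have hl : 0 < Real.log n := by linarith
  simp only [Function.comp] at h7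
  rw [Real.rpow_def_of_pos hn1]
  apply Real.exp_le_exp.2
  have h10 : Real.log n ^ γ = Real.log n ^ (-(1 - γ)) * Real.log n := by
    conv_lhs => rw [show γ = -(1 - γ) + 1 by ring]
    rw [Real.rpow_add hl, Real.rpow_one]
  rw [h10, mul_comm]
  exact mul_le_mul_of_nonneg_left h7.le hl.le

/-- A group of growth at most `exp (exp ((log r) ^ γ))` with a residually soluble subgroup of finite
index is virtually nilpotent. -/
theorem growth_final (G : Type) [Group G] (S : Set G) (hSf : S.Finite)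
    (hS : Subgroup.closure S = ⊤) (γ : ℝ) (h1 : γ < 1)
    (hgr : ∃ r0 : ℕ, ∀ r : ℕ, r0 ≤ r →
      (Nat.card (Bl S r) : ℝ) ≤ Real.exp (Real.exp (Real.log r ^ γ)))
    (F : Subgroup G) (hF : F.FiniteIndex)
    (hres : ∀ g : F, g ≠ 1 →
      ∃ (N : Subgroup F) (_ : N.Normal), g ∉ N ∧ Group.IsSolvable (F ⧸ N)) :
    ∃ H : Subgroup G, H.FiniteIndex ∧ Group.IsNilpotent H := by
  have hGB : Pool.Agent.Helper98.RS.GB S (1 / 16) := by
    obtain ⟨r0, hr0⟩ := hgr
    obtain ⟨n0, hn0⟩ := gr_log γ (1 / 16) h1 (by norm_num)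
    refine ⟨max r0 n0, fun n hn => ?_⟩
    refine (hr0 n ((le_max_left _ _).trans hn)).trans ?_
    exact Real.exp_le_exp.2 (hn0 n ((le_max_right _ _).trans hn))
  obtain ⟨T, hTf, hT, hGT⟩ := Pool.Agent.Helper75.LS.gb_subgroup S hSf hS (1 / 16) (1 / 8)
    (by norm_num) (by norm_num) hGB F hF
  refine Pool.Agent.Helper75.LS.vn_of_subgroup F hF ?_
  refine Pool.Agent.Helper94.RS4.final_vn F T hTf hT hres (1 / 8) (by norm_num) ?_
  obtain ⟨n0, hn0⟩ := hGT
  refine ⟨1 + ∑ i ∈ Finset.range n0, (Nat.card (Bl T i) : ℝ), ?_, fun n => ?_⟩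
  · have : 0 ≤ ∑ i ∈ Finset.range n0, (Nat.card (Bl T i) : ℝ) :=
      Finset.sum_nonneg fun i _ => Nat.cast_nonneg _
    linarith
  set C : ℝ := 1 + ∑ i ∈ Finset.range n0, (Nat.card (Bl T i) : ℝ) with hC
  have hC1 : 1 ≤ C := by
    have : 0 ≤ ∑ i ∈ Finset.range n0, (Nat.card (Bl T i) : ℝ) :=
      Finset.sum_nonneg fun i _ => Nat.cast_nonneg _
    linarith
  have hn : (0 : ℝ) ≤ n := Nat.cast_nonneg n
  rcases lt_or_ge n n0 with h | h
  · have h2 : (Nat.card (Bl T n) : ℝ) ≤ ∑ i ∈ Finset.range n0, (Nat.card (Bl T i) : ℝ) :=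
      Finset.single_le_sum (f := fun i => (Nat.card (Bl T i) : ℝ)) (fun i _ => Nat.cast_nonneg _)
        (Finset.mem_range.2 h)
    have h3 : 1 ≤ Real.exp ((C * n) ^ (1 / 8 : ℝ)) := by
      rw [Real.one_le_exp_iff]
      positivity
    calc (Nat.card ↥((({1} : Set F) ∪ T ∪ T⁻¹) ^ n) : ℝ) = Nat.card (Bl T n) := rfl
      _ ≤ C := by linarith
      _ ≤ C * Real.exp ((C * n) ^ (1 / 8 : ℝ)) := le_mul_of_one_le_right (by linarith) h3
  · refine (hn0 n h).trans ?_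
    have h2 : Real.exp ((n : ℝ) ^ (1 / 8 : ℝ)) ≤ Real.exp ((C * n) ^ (1 / 8 : ℝ)) := by
      apply Real.exp_le_exp.2
      exact Real.rpow_le_rpow hn (le_mul_of_one_le_left hn hC1) (by norm_num)
    exact h2.trans (le_mul_of_one_le_left (Real.exp_pos _).le hC1)

end Pool.Agent.Helper94.BC
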