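import Pool.Agent.Helper94.BC.Push
import Pool.Agent.Helper94.BC.Elt
import Pool.Agent.Helper39.BC.PsiDefs
import Pool.Agent.Helper94.BC.ClsQ

set_option autoImplicit false

open scoped Pointwise commutatorElement

namespace Pool.Agent.Helper94.BC

open Pool.Agent.Helper39.BC

theorem nm_comap_surj {G P : Type} [Group G] [Group P] (f : G →* P)
    (hf : Function.Surjective f) {H N : Subgroup P} (h : NM H N) :
    NM (H.comap f) (N.comap f) where
  le := Subgroup.comap_mono h.le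
  nor := by
    intro g hg n hn
    rw [Subgroup.mem_comap] at hg hn ⊢
    rw [map_mul, map_mul, map_inv]
    exact h.nor _ hg _ hn
  nab := by
    intro h1
    apply h.nab
    have h2 := Subgroup.map_mono (f := f) h1
    rwa [Subgroup.map_commutator, Subgroup.map_comap_eq_self_of_surjective hf,
      Subgroup.map_comap_eq_self_of_surjective hf] at h2
  max := by
    intro L h1 h2 h3
    have hker : f.ker ≤ L := by
      intro x hx
      apply h1
      rw [Subgroup.mem_comap, (MonoidHom.mem_ker).1 hx]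
      exact N.one_mem
    have h4 : (L.map f).comap f = L := Subgroup.comap_map_eq_self hker
    have h5 : N ≤ L.map f := by
      have := Subgroup.map_mono (f := f) h1
      rwa [Subgroup.map_comap_eq_self_of_surjective hf] at this
    have h6 : L.map f ≤ H := by
      have := Subgroup.map_mono (f := f) h2
      rwa [Subgroup.map_comap_eq_self_of_surjective hf] at this
    have h7 : Nor H (L.map f) := by
      rintro x hx _ ⟨n, hn, rfl⟩
      obtain ⟨y, rfl⟩ := hf x
      exact ⟨y * n * y⁻¹, h3 y hx n hn, by simp⟩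
    rcases h.max _ h5 h6 h7 with h8 | h8
    · left
      rw [← h4, h8]
    · right
      rw [← h4, h8]

/-- The iteration of the rounds. -/
theorem iter (B : ℕ) : ∃ c : ℕ, 1 ≤ c ∧ ∀ (G : Type) [Group G] [Finite G] (S : Set G),
    Subgroup.closure S = ⊤ → Cls B G → ∀ (E : Subgroup G) (k : ℕ) (M : Fin k → Subgroup G)
      (C : Subgroup G), Pr B E M C → ∀ (P : Type) [Group P] (f : G →* P),
      Function.Surjective f → f.ker = C → ∀ (n : ℕ) (H : Subgroup P), H.Normal →
      ∀ (l : ℕ) (x : G), x ∈ H.comap f → x ≠ 1 → x ∈ Bl S l →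
      ∃ x' ∈ (PsiS n H).comap f, x' ≠ 1 ∧ x' ∈ Bl S ((c + 1) ^ n * (l + (c * k) ^ c)) := by
  obtain ⟨c, hc, hpush⟩ := push_round B
  refine ⟨c, hc, ?_⟩
  intro G _ _ S hS hcls E k M C hPr P _ f hf hker n
  induction n with
  | zero =>
    intro H hH l x hx hx1 hxl
    refine ⟨x, hx, hx1, bl_mono S ?_ hxl⟩
    rw [pow_zero, one_mul]
    exact Nat.le_add_right _ _
  | succ n ih =>
    intro H hH l x hx hx1 hxl
    have hCK : C ≤ H.comap f := by
      rw [← hker]
      intro y hy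
      rw [Subgroup.mem_comap, (MonoidHom.mem_ker).1 hy]
      exact H.one_mem
    obtain ⟨x', hx1', hxl', hcomm, hnm⟩ := hpush G S hS hcls E k M C hPr (H.comap f)
      (hH.comap f) hCK l x hx hx1 hxl
    have hx' : x' ∈ (Psi H).comap f := by
      rw [Subgroup.mem_comap]
      refine ⟨?_, ?_, ?_⟩
      · have := Subgroup.mem_map_of_mem f hcomm
        rwa [Subgroup.map_commutator, Subgroup.map_comap_eq_self_of_surjective hf] at this
      · have := Subgroup.mem_map_of_mem f hcomm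
        rw [Subgroup.map_commutator, Subgroup.map_comap_eq_self_of_surjective hf] at this
        exact Subgroup.commutator_le_self H this
      · show f x' ∈ sInf {N : Subgroup P | NM H N}
        rw [Subgroup.mem_sInf]
        intro N hN
        have h1 := nm_comap_surj f hf hN
        have h2 := hnm _ h1 (by
          rw [← hker]
          intro y hy
          rw [Subgroup.mem_comap, (MonoidHom.mem_ker).1 hy]
          exact N.one_mem)
        exact h2
    have hPsi : (Psi H).Normal := by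
      refine normal_of_nor (psi_nor ?_)
      exact nor_of_normal ⊤ hH
    obtain ⟨x'', h1, h2, h3⟩ := ih (Psi H) hPsi _ x' hx' hx1' hxl'
    refine ⟨x'', h1, h2, bl_mono S ?_ h3⟩
    rw [pow_succ, mul_assoc]
    refine Nat.mul_le_mul_left _ ?_
    have h4 : (c + 1) * (l + (c * k) ^ c) = c * l + l + (c * (c * k) ^ c + (c * k) ^ c) := by ring
    have h5 : (c * k) ^ c ≤ c * (c * k) ^ c := Nat.le_mul_of_pos_left _ hc
    rw [h4]
    omega

theorem iter_num (c1 c c2 k : ℕ) (hk : 1 ≤ k) (hc2 : 1 ≤ c2) :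
    (c2 * k) ^ c2 * ((c + 1) ^ (c1 * Nat.log 2 k) * (1 + (c * k) ^ c) + 1) ≤
      ((c2 + (c + 1) * c1 + c + 3) * k) ^ (c2 + (c + 1) * c1 + c + 3) := by
  set a := (c + 1) * c1 with ha
  set X := (c2 + a + c + 3) * k with hX
  have hX3 : 3 ≤ X := by
    calc 3 ≤ (c2 + a + c + 3) * 1 := by omega
      _ ≤ X := Nat.mul_le_mul_left _ hk
  have hkX : k ≤ X := by
    calc k = 1 * k := (one_mul k).symm
      _ ≤ X := Nat.mul_le_mul_right _ (by omega)
  have h1 : (c2 * k) ^ c2 ≤ X ^ c2 := Nat.pow_le_pow_left (Nat.mul_le_mul_right _ (by omega)) _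
  have h2 : (c * k) ^ c ≤ X ^ c := Nat.pow_le_pow_left (Nat.mul_le_mul_right _ (by omega)) _
  have h3 : (c + 1) ^ (c1 * Nat.log 2 k) ≤ X ^ a := by
    calc (c + 1) ^ (c1 * Nat.log 2 k) ≤ (2 ^ (c + 1)) ^ (c1 * Nat.log 2 k) :=
          Nat.pow_le_pow_left (Nat.lt_two_pow_self).le _
      _ = (2 ^ Nat.log 2 k) ^ a := by
          rw [ha, ← pow_mul, ← pow_mul]
          congr 1
          ring
      _ ≤ k ^ a := Nat.pow_le_pow_left (Nat.pow_log_le_self 2 (by omega)) _
      _ ≤ X ^ a := Nat.pow_le_pow_left hkX _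
  have hX1 : 1 ≤ X := by omega
  have h4 : 1 + (c * k) ^ c ≤ X ^ (c + 1) := by
    have h5 : 1 ≤ X ^ c := Nat.one_le_pow _ _ hX1
    calc 1 + (c * k) ^ c ≤ X ^ c + X ^ c := Nat.add_le_add h5 h2
      _ = X ^ c * 2 := by ring
      _ ≤ X ^ c * X := Nat.mul_le_mul_left _ (by omega)
      _ = X ^ (c + 1) := (pow_succ _ _).symm
  have h6 : (c + 1) ^ (c1 * Nat.log 2 k) * (1 + (c * k) ^ c) + 1 ≤ X ^ (a + c + 2) := by
    have h7 : (c + 1) ^ (c1 * Nat.log 2 k) * (1 + (c * k) ^ c) ≤ X ^ (a + c + 1) := by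
      calc (c + 1) ^ (c1 * Nat.log 2 k) * (1 + (c * k) ^ c) ≤ X ^ a * X ^ (c + 1) :=
            Nat.mul_le_mul h3 h4
        _ = X ^ (a + c + 1) := by rw [← pow_add]; rfl
    have h8 : 1 ≤ X ^ (a + c + 1) := Nat.one_le_pow _ _ hX1
    calc (c + 1) ^ (c1 * Nat.log 2 k) * (1 + (c * k) ^ c) + 1
        ≤ X ^ (a + c + 1) + X ^ (a + c + 1) := Nat.add_le_add h7 h8
      _ = X ^ (a + c + 1) * 2 := by ring
      _ ≤ X ^ (a + c + 1) * X := Nat.mul_le_mul_left _ (by omega)
      _ = X ^ (a + c + 2) := (pow_succ _ _).symm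
  calc (c2 * k) ^ c2 * ((c + 1) ^ (c1 * Nat.log 2 k) * (1 + (c * k) ^ c) + 1)
      ≤ X ^ c2 * X ^ (a + c + 2) := Nat.mul_le_mul h1 h6
    _ = X ^ (c2 + (a + c + 2)) := (pow_add _ _ _).symm
    _ ≤ X ^ (c2 + a + c + 3) := Nat.pow_le_pow_right hX1 (by omega)

/-- The main estimate for a minimal normal subgroup with trivial centraliser. -/
theorem chief0 (B : ℕ) (c1 : ℕ) (hr : ∀ (P : Type) [Group P] [Finite P], Cls B P →
    ∀ Y : Subgroup P, PsiS (c1 * Nat.log 2 Y.index) (⊤ : Subgroup P) ≤ Y) :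
    ∃ c : ℕ, 1 ≤ c ∧ ∀ (G : Type) [Group G] [Finite G] (S : Set G),
      Subgroup.closure S = ⊤ → Cls B G → ∀ (E : Subgroup G) (k : ℕ) (M : Fin k → Subgroup G)
        (C : Subgroup G), Pr B E M C → 2 ^ k ≤ Nat.card (Bl S ((c * k) ^ c)) := by
  obtain ⟨c, hc, hiter⟩ := iter B
  obtain ⟨c2, hc2, hfin⟩ := final_elt B
  refine ⟨c2 + (c + 1) * c1 + c + 3, by omega, ?_⟩
  intro G _ _ S hS hcls E k M C hPr
  have hnC : C.Normal := hPr.nC
  obtain ⟨Y, hYk, hYC⟩ := hPr.core
  have hCY : C ≤ Y := by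
    rw [← hYC]
    exact Subgroup.normalCore_le Y
  have hclsP : Cls B (G ⧸ C) := cls_map (QuotientGroup.mk' C) (QuotientGroup.mk'_surjective C) hcls
  have h1 := hr (G ⧸ C) hclsP (Y.map (QuotientGroup.mk' C))
  have hidx : (Y.map (QuotientGroup.mk' C)).index = k := by
    rw [Subgroup.index_map_eq _ (QuotientGroup.mk'_surjective C)]
    · exact hYk
    · rw [QuotientGroup.ker_mk']
      exact hCY
  rw [hidx] at h1
  have h2 : (PsiS (c1 * Nat.log 2 k) (⊤ : Subgroup (G ⧸ C))).comap (QuotientGroup.mk' C) ≤ C := by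
    have hn := (psiS_normal (G := G ⧸ C) (c1 * Nat.log 2 k)).comap (QuotientGroup.mk' C)
    have h3 : (PsiS (c1 * Nat.log 2 k) (⊤ : Subgroup (G ⧸ C))).comap (QuotientGroup.mk' C) ≤
        Y := by
      refine (Subgroup.comap_mono h1).trans ?_
      rw [Subgroup.comap_map_eq_self]
      rw [QuotientGroup.ker_mk']
      exact hCY
    exact ((Subgroup.normal_le_normalCore).2 h3).trans hYC.le
  have hex : ∃ s ∈ S, s ≠ 1 := by
    by_contra hcon
    push Not at hcon
    apply hPr.nab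
    have h4 : (⊤ : Subgroup G) = ⊥ := by
      rw [← hS, eq_bot_iff, Subgroup.closure_le]
      intro s hs
      exact hcon s hs
    refine le_trans ?_ h4.le
    exact le_top
  obtain ⟨s, hs, hs1⟩ := hex
  obtain ⟨y, hy, hy1, hyl⟩ := hiter G S hS hcls E k M C hPr (G ⧸ C) (QuotientGroup.mk' C)
    (QuotientGroup.mk'_surjective C) (QuotientGroup.ker_mk' C) (c1 * Nat.log 2 k) ⊤
    inferInstance 1 s (Subgroup.mem_top _) hs1 (subset_bl_one S hs)
  refine (hfin G S hS E k M C hPr _ y (h2 hy) hy1 hyl).trans ?_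
  refine Nat.card_mono (Set.toFinite _) (bl_mono S ?_)
  exact iter_num c1 c c2 k hPr.pos hc2

end Pool.Agent.Helper94.BC
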