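import Pool.Agent.Helper94.BC.ChiefP
import Pool.Agent.Helper94.BC.All
import Pool.Agent.Helper39.BC.Rounds
import Pool.Agent.Helper41.BCP.FinalP

set_option autoImplicit false

open scoped Pointwise commutatorElement

namespace Pool.Agent.Helper94.BC

/-- The main estimate. -/
theorem chiefP (B : ℕ) : ∃ c : ℕ, 1 ≤ c ∧ ∀ (G : Type) [Group G] [Finite G] (S : Set G),
    Cls B G → Subgroup.closure S = ⊤ → ∀ N E : Subgroup G, N.Normal → E.Normal → N < E →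
      (∀ L : Subgroup G, L.Normal → N ≤ L → L ≤ E → L = N ∨ L = E) → ¬ ⁅E, E⁆ ≤ N →
      ∃ k : ℕ, 1 ≤ k ∧ 2 ^ k ≤ Nat.card (Bl S ((c * k) ^ c)) ∧ N.relIndex E ≤ B ^ k := by
  obtain ⟨c1, -, hr⟩ := Pool.Agent.Helper39.BC.rounds_core B
  exact chiefP_of_rounds B c1 fun P _ _ hP Y => (hr P hP Y).trans (Subgroup.normalCore_le Y)

theorem main : (∀ B : ℕ, ∃ c : ℝ, 0 < c ∧ ∀ (G : Type) [Group G] (S : Set G), S.Finite →
      Subgroup.closure S = ⊤ →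
      (∃ C : ℝ, 0 < C ∧ ∀ r : ℕ, (Nat.card ↥((({1} : Set G) ∪ S ∪ S⁻¹) ^ r) : ℝ) ≤
        C * Real.exp ((C * r) ^ c)) →
      (∀ g : G, g ≠ 1 → ∃ (N : Subgroup G) (_ : N.Normal), N.FiniteIndex ∧ g ∉ N ∧
        ∀ (K : Subgroup (G ⧸ N)) (L : Subgroup K) [L.Normal], IsSimpleGroup (K ⧸ L) →
          (∃ a b : K ⧸ L, a * b ≠ b * a) → Nat.card (K ⧸ L) ≤ B) →
      ∃ H : Subgroup G, H.FiniteIndex ∧ Group.IsNilpotent H) ∧
    (∀ d : ℕ, ∃ c : ℝ, 0 < c ∧ ∀ (G : Type) [Group G] (S : Set G), S.Finite →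
      Subgroup.closure S = ⊤ →
      (∃ C : ℝ, 0 < C ∧ ∀ r : ℕ, (Nat.card ↥((({1} : Set G) ∪ S ∪ S⁻¹) ^ r) : ℝ) ≤
        C * Real.exp ((C * r) ^ c)) →
      ∀ (X : ℕ → Type) [∀ i, MulAction G (X i)] (par : ∀ i, X (i + 1) → X i),
        (∀ (i : ℕ) (g : G) (x : X (i + 1)), par i (g • x) = g • par i x) →
        Subsingleton (X 0) →
        (∀ (i : ℕ) (x : X i), {y : X (i + 1) | par i y = x}.Finite ∧
          Nat.card {y : X (i + 1) | par i y = x} ≤ d) →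
        (∀ g : G, g ≠ 1 → ∃ (i : ℕ) (x : X i), g • x ≠ x) →
        ∃ H : Subgroup G, H.FiniteIndex ∧ Group.IsNilpotent H) :=
  all_of_final fun B => Pool.Agent.Helper41.BCP.finalP_of_chief B (chiefP B)

end Pool.Agent.Helper94.BC
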