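import Pool.Agent.Helper94.BC.Sub

set_option autoImplicit false

open scoped Pointwise commutatorElement

namespace Pool.Agent.Helper94.BC

/-- The situation of the main estimate: `E` is a non-abelian minimal normal subgroup of `G` with
trivial centraliser, `M i`, `i < k`, are its maximal normal subgroups, permuted by `G`, and `C` is
the kernel of the permutation action. -/
structure Pr {G : Type} [Group G] (B : ℕ) (E : Subgroup G) {k : ℕ} (M : Fin k → Subgroup G)
    (C : Subgroup G) : Prop where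
  pos : 1 ≤ k
  nE : E.Normal
  min : ∀ L : Subgroup G, L.Normal → L ≤ E → L = ⊥ ∨ L = E
  nab : ¬ ⁅E, E⁆ ≤ ⊥
  cent : ∀ g : G, (∀ e ∈ E, g * e = e * g) → g = 1
  nm : ∀ i, NM E (M i)
  inj : Function.Injective M
  bot : (⨅ i, M i) = ⊥
  conj : ∀ g : G, ∀ i, ∃ j, (M i).map (MulAut.conj g).toMonoidHom = M j
  memC : ∀ g : G, g ∈ C ↔ ∀ i, (M i).map (MulAut.conj g).toMonoidHom = M i
  core : ∃ Y : Subgroup G, Y.index = k ∧ Y.normalCore = C
  card : ∀ i, (M i).relIndex E ≤ B

section

variable {G : Type} [Group G] {B : ℕ} {E : Subgroup G} {k : ℕ} {M : Fin k → Subgroup G}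
  {C : Subgroup G}

theorem Pr.nC (h : Pr B E M C) : C.Normal := by
  obtain ⟨Y, -, hY⟩ := h.core
  rw [← hY]
  infer_instance

/-- Every non-trivial normal subgroup contains `E`. -/
theorem Pr.le_of_normal (h : Pr B E M C) {L : Subgroup G} (hL : L.Normal) (hne : L ≠ ⊥) :
    E ≤ L := by
  have hE := h.nE
  rcases h.min (L ⊓ E) inferInstance inf_le_right with h1 | h1
  · exfalso
    apply hne
    rw [eq_bot_iff]
    intro l hl
    rw [Subgroup.mem_bot]
    apply h.cent
    intro e he
    have h2 : l * e * l⁻¹ * e⁻¹ ∈ L ⊓ E := by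
      refine ⟨?_, ?_⟩
      · have := L.mul_mem hl (hL.conj_mem _ (L.inv_mem hl) e)
        simpa [mul_assoc] using this
      · exact E.mul_mem (hE.conj_mem e he l) (E.inv_mem he)
    rw [h1, Subgroup.mem_bot] at h2
    have h3 : l * e * l⁻¹ = e := mul_inv_eq_one.1 h2
    exact mul_inv_eq_iff_eq_mul.1 h3
  · rw [← h1]
    exact inf_le_left

theorem Pr.nor_C (h : Pr B E M C) (i : Fin k) : Nor C (M i) := by
  rw [nor_iff_map]
  exact fun g hg => (h.memC g).1 hg i

theorem Pr.E_le_C (h : Pr B E M C) : E ≤ C := by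
  intro e he
  rw [h.memC]
  intro i
  exact nor_iff_map.1 (h.nm i).nor e he

end

end Pool.Agent.Helper94.BC
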