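import Pool.Agent.Helper94.BC.Pr
import Pool.Agent.Helper7.BCP.Push
import Pool.Agent.Helper7.BCP.Omega
import Pool.Agent.Helper52.RB.Letter

set_option autoImplicit false

open scoped Pointwise commutatorElement

namespace Pool.Agent.Helper94.BC

private theorem pow_le_pow_aux {q m a b : ℕ} (h : q ≤ m) (ha : 1 ≤ a) (hab : a ≤ b) :
    q ^ a ≤ m ^ b := by
  rcases Nat.eq_zero_or_pos m with hm | hm
  · have hq : q = 0 := by omega
    rw [hq, zero_pow (by omega)]
    exact Nat.zero_le _
  · exact (Nat.pow_le_pow_left h a).trans (Nat.pow_le_pow_right hm hab)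

/-- The family of the maximal normal subgroups of `K` above `C` is invariant under conjugation. -/
private theorem conj_family {G : Type} [Group G] {K C L : Subgroup G} (hK : K.Normal)
    (hC : C.Normal) (g : G) (hL : NM K L) (hCL : C ≤ L) :
    NM K (L.map (MulAut.conj g).toMonoidHom) ∧ C ≤ L.map (MulAut.conj g).toMonoidHom ∧
      (L.map (MulAut.conj g).toMonoidHom).relIndex K = L.relIndex K := by
  have hKm : K.map (MulAut.conj g).toMonoidHom = K :=
    nor_iff_map.1 (nor_of_normal ⊤ hK) g (Subgroup.mem_top g)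
  have hCm : C.map (MulAut.conj g).toMonoidHom = C :=
    nor_iff_map.1 (nor_of_normal ⊤ hC) g (Subgroup.mem_top g)
  refine ⟨?_, ?_, ?_⟩
  · have h1 := nm_map (MulAut.conj g) hL
    rwa [hKm] at h1
  · calc C = C.map (MulAut.conj g).toMonoidHom := hCm.symm
      _ ≤ L.map (MulAut.conj g).toMonoidHom := Subgroup.map_mono hCL
  · have h1 : (L.map (MulAut.conj g).toMonoidHom).relIndex
        (K.map (MulAut.conj g).toMonoidHom) = L.relIndex K :=
      Subgroup.relIndex_map_map_of_injective _ _ (MulAut.conj g).injective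
    rwa [hKm] at h1

/-- One round: a non-trivial short element of `K` gives a non-trivial short element of the next term
of the series. -/
theorem push_round (B : ℕ) : ∃ c : ℕ, 1 ≤ c ∧ ∀ (G : Type) [Group G] [Finite G] (S : Set G),
    Subgroup.closure S = ⊤ → Cls B G → ∀ (E : Subgroup G) (k : ℕ) (M : Fin k → Subgroup G)
      (C : Subgroup G), Pr B E M C → ∀ K : Subgroup G, K.Normal → C ≤ K →
      ∀ (l : ℕ) (x : G), x ∈ K → x ≠ 1 → x ∈ Bl S l →
      ∃ x' : G, x' ≠ 1 ∧ x' ∈ Bl S (c * l + (c * k) ^ c) ∧ x' ∈ ⁅K, K⁆ ∧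
        ∀ L : Subgroup G, NM K L → C ≤ L → x' ∈ L := by
  classical
  choose n W hlaw hlet using Pool.Agent.Helper52.RB.letterT
  set N : ℕ := 5 + ∑ j ∈ Finset.range (B + 1), ∑ w ∈ W j, w.norm with hN
  have hN5 : 5 ≤ N := by omega
  have hnorm : ∀ j, j ≤ B → ∀ w ∈ W j, w.norm ≤ N := by
    intro j hj w hw
    have h1 : w.norm ≤ ∑ w ∈ W j, w.norm :=
      Finset.single_le_sum (f := fun w : FreeGroup (Fin (n j)) => w.norm)
        (fun _ _ => Nat.zero_le _) hw
    have h2 : ∑ w ∈ W j, w.norm ≤ ∑ j ∈ Finset.range (B + 1), ∑ w ∈ W j, w.norm :=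
      Finset.single_le_sum (f := fun j => ∑ w ∈ W j, w.norm)
        (fun _ _ => Nat.zero_le _) (Finset.mem_range.2 (by omega))
    omega
  set A : ℕ := (N + 1) ^ (B + 1) * 2 with hA
  refine ⟨A * (B + 1) + N + 2, by omega, ?_⟩
  intro G _ _ S hS hcls E k M C h K hK hCK l x hx hx1 hxl
  obtain ⟨U, hUf, hUi, hUc, hUn⟩ := Pool.Agent.Helper7.BCP.omega h
  set T : ℕ := 2 * (k * B) ^ (N + 1) with hT
  have hEne : E ≠ ⊥ := by
    intro h1
    apply h.nab
    rw [h1]
    exact Subgroup.commutator_le_self ⊥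
  have hcent : Subgroup.centralizer (E : Set G) = ⊥ := by
    rw [eq_bot_iff]
    intro g hg
    rw [Subgroup.mem_bot]
    refine h.cent g fun e he => ?_
    exact (Subgroup.mem_centralizer_iff.1 hg e he).symm
  have hKK : (⁅K, K⁆ : Subgroup G).Normal := inferInstance
  have key : ∀ j, j ≤ B → ∃ y : G, y ≠ 1 ∧ y ∈ ⁅K, K⁆ ∧
      (∀ L : Subgroup G, NM K L → C ≤ L → L.relIndex K ≤ j → y ∈ L) ∧
      ∃ r : ℕ, y ∈ Bl S r ∧ r + T ≤ (N + 1) ^ (j + 1) * (l + T) := by
    intro j
    induction j with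
    | zero =>
      intro _
      obtain ⟨g, g', h1, h2⟩ := Pool.Agent.Helper7.BCP.comm_push E h.nE hEne h.min hcent U hUf
        hUi hUc S hS x l hxl hx1
      refine ⟨_, h1, ?_, ?_, _, h2, ?_⟩
      · exact Subgroup.commutator_mem_commutator (hK.conj_mem x hx g) (hK.conj_mem x hx g')
      · intro L _ _ h3
        exfalso
        have h4 : L.relIndex K ≠ 0 := Subgroup.index_ne_zero_of_finite
        omega
      · have h3 : U.ncard ^ 5 ≤ (k * B) ^ (N + 1) := pow_le_pow_aux hUn (by omega) (by omega)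
        have h4 : (l + 2 * U.ncard ^ 5) * 4 + T ≤ (l + T) * 5 := by
          rw [hT]
          omega
        calc (l + 2 * U.ncard ^ 5) * 4 + T ≤ (l + T) * 5 := h4
          _ ≤ (l + T) * (N + 1) := Nat.mul_le_mul_left _ (by omega)
          _ = (N + 1) ^ (0 + 1) * (l + T) := by ring
    | succ j ih =>
      intro hj
      obtain ⟨y, hy1, hyK, hyL, r, hyr, hr⟩ := ih (by omega)
      by_cases hall : ∀ L : Subgroup G, NM K L → C ≤ L → L.relIndex K = j + 1 → y ∈ L
      · refine ⟨y, hy1, hyK, ?_, r, hyr, ?_⟩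
        · intro L hL hCL hLj
          rcases Nat.lt_or_ge (L.relIndex K) (j + 1) with h1 | h1
          · exact hyL L hL hCL (by omega)
          · exact hall L hL hCL (le_antisymm hLj h1)
        · refine hr.trans (Nat.mul_le_mul_right _ ?_)
          exact Nat.pow_le_pow_right (by omega) (by omega)
      · push Not at hall
        obtain ⟨L0, hL0, hCL0, hL0j, hyL0⟩ := hall
        have hyK' : y ∈ K := Subgroup.commutator_le_self K hyK
        obtain ⟨g, -, w, hw, hgw⟩ := hlet (j + 1) G ⊥ E K L0 (Fin k) M bot_le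
          (h.E_le_C.trans hCL0) hL0 hL0j (by omega) h.nm (fun _ => bot_le) h.inj h.conj
          (fun g _ hg => hCL0 ((h.memC g).2 hg)) y hyK' hyL0
        rw [Subgroup.mem_bot] at hgw
        obtain ⟨g', -, h2, h3⟩ := Pool.Agent.Helper7.BCP.word_push U hUf hUi hUc S hS w y r hyr g
          hgw
        refine ⟨_, h2, ?_, ?_, _, h3, ?_⟩
        · have h4 : ∀ i, g' i * y * (g' i)⁻¹ ∈ ⁅K, K⁆ := fun i => hKK.conj_mem y hyK (g' i)
          have h5 : (FreeGroup.lift fun i => (⟨g' i * y * (g' i)⁻¹, h4 i⟩ : ↥⁅K, K⁆)) w ∈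
              (⊤ : Subgroup ↥⁅K, K⁆) := Subgroup.mem_top _
          have h6 : (⁅K, K⁆ : Subgroup G).subtype.comp
              (FreeGroup.lift fun i => (⟨g' i * y * (g' i)⁻¹, h4 i⟩ : ↥⁅K, K⁆)) =
              FreeGroup.lift (fun i => g' i * y * (g' i)⁻¹) := by
            ext i
            simp
          rw [← h6]
          exact Subtype.prop _
        · intro L hL hCL hLj
          have h4 : ∀ i, g' i * y * (g' i)⁻¹ ∈ K := fun i => hK.conj_mem y hyK' (g' i)
          rcases Nat.lt_or_ge (L.relIndex K) (j + 1) with h1 | h1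
          · have h5 : ∀ i, g' i * y * (g' i)⁻¹ ∈ L := by
              intro i
              obtain ⟨h6, h7, h8⟩ := conj_family hK h.nC (g' i)⁻¹ hL hCL
              have h9 := hyL _ h6 h7 (by rw [h8]; omega)
              rw [conj_map_mem, inv_inv] at h9
              exact h9
            have h6 : L.subtype.comp
                (FreeGroup.lift fun i => (⟨g' i * y * (g' i)⁻¹, h5 i⟩ : L)) =
                FreeGroup.lift (fun i => g' i * y * (g' i)⁻¹) := by
              ext i
              simp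
            rw [← h6]
            exact Subtype.prop _
          · exact (Pool.Agent.Helper52.RB.law_rel (j := j + 1) (hlaw (j + 1) w hw) hL.nor
              Subgroup.index_ne_zero_of_finite hLj _ h4).1
        · have hwN : w.norm ≤ N := hnorm (j + 1) hj w hw
          have h4 : U.ncard ^ (w.norm + 1) ≤ (k * B) ^ (N + 1) :=
            pow_le_pow_aux hUn (by omega) (by omega)
          have h5 : (r + 2 * U.ncard ^ (w.norm + 1)) * w.norm ≤ (r + T) * N := by
            refine Nat.mul_le_mul ?_ hwN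
            rw [hT]
            omega
          calc (r + 2 * U.ncard ^ (w.norm + 1)) * w.norm + T ≤ (r + T) * N + (r + T) := by omega
            _ = (N + 1) * (r + T) := by ring
            _ ≤ (N + 1) * ((N + 1) ^ (j + 1) * (l + T)) := Nat.mul_le_mul_left _ hr
            _ = (N + 1) ^ (j + 1 + 1) * (l + T) := by ring
  obtain ⟨y, hy1, hyK, hyL, r, hyr, hr⟩ := key B le_rfl
  refine ⟨y, hy1, ?_, hyK, fun L hL hCL => hyL L hL hCL (hcls K L hL)⟩
  refine bl_mono S ?_ hyr
  have hk : 1 ≤ k := h.pos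
  have hA1 : 1 ≤ A := by
    rw [hA]
    have : 0 < (N + 1) ^ (B + 1) := by positivity
    omega
  set c : ℕ := A * (B + 1) + N + 2 with hc
  have hcA : A ≤ c := by
    have : A * 1 ≤ A * (B + 1) := Nat.mul_le_mul_left _ (by omega)
    omega
  have hcB : B ≤ c := by
    have : 1 * (B + 1) ≤ A * (B + 1) := Nat.mul_le_mul_right _ hA1
    omega
  have hr1 : r ≤ (N + 1) ^ (B + 1) * (l + T) := by omega
  have e1 : (N + 1) ^ (B + 1) * l ≤ c * l := by
    refine Nat.mul_le_mul_right _ ?_
    refine le_trans ?_ hcA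
    rw [hA]
    omega
  have e2 : (N + 1) ^ (B + 1) * T ≤ (c * k) ^ c := by
    calc (N + 1) ^ (B + 1) * T = A * (k * B) ^ (N + 1) := by
          rw [hA, hT]
          ring
      _ ≤ (c * k) * (c * k) ^ (N + 1) := by
          refine Nat.mul_le_mul ?_ (Nat.pow_le_pow_left ?_ _)
          · calc A ≤ c := hcA
              _ = c * 1 := (mul_one c).symm
              _ ≤ c * k := Nat.mul_le_mul_left _ hk
          · rw [mul_comm k B]
            exact Nat.mul_le_mul_right _ hcB
      _ = (c * k) ^ (N + 2) := by ring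
      _ ≤ (c * k) ^ c := Nat.pow_le_pow_right (Nat.mul_pos (by omega) hk) (by omega)
  calc r ≤ (N + 1) ^ (B + 1) * (l + T) := hr1
    _ = (N + 1) ^ (B + 1) * l + (N + 1) ^ (B + 1) * T := by ring
    _ ≤ c * l + (c * k) ^ c := Nat.add_le_add e1 e2

end Pool.Agent.Helper94.BC
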