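import Pool.Agent.Helper94.BC.Defs

set_option autoImplicit false

open scoped Pointwise commutatorElement

namespace Pool.Agent.Helper94.BC

variable {G : Type} [Group G]

private theorem mem_sup_nor {K C N : Subgroup G} (hC : C ≤ K) (hN : Nor K N) {x : G}
    (hx : x ∈ C ⊔ N) : ∃ c ∈ C, ∃ n ∈ N, c * n = x := by
  let S : Subgroup G :=
    { carrier := {x | ∃ c ∈ C, ∃ n ∈ N, c * n = x}
      mul_mem' := by
        rintro _ _ ⟨c, hc, n, hn, rfl⟩ ⟨c', hc', n', hn', rfl⟩
        refine ⟨c * c', C.mul_mem hc hc', (c'⁻¹ * n * c'⁻¹⁻¹) * n',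
          N.mul_mem (hN c'⁻¹ (K.inv_mem (hC hc')) n hn) hn', by group⟩
      one_mem' := ⟨1, C.one_mem, 1, N.one_mem, one_mul 1⟩
      inv_mem' := by
        rintro _ ⟨c, hc, n, hn, rfl⟩
        refine ⟨c⁻¹, C.inv_mem hc, c * n⁻¹ * c⁻¹, hN c (hC hc) _ (N.inv_mem hn), by group⟩ }
  have h : C ⊔ N ≤ S := by
    refine sup_le ?_ ?_
    · intro c hc
      exact ⟨c, hc, 1, N.one_mem, mul_one c⟩
    · intro n hn
      exact ⟨1, C.one_mem, n, hn, one_mul n⟩
  exact h hx

private theorem nor_commutator {K A M : Subgroup G} (hA : Nor K A) (hM : Nor K M) :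
    Nor K ⁅A, M⁆ := by
  rw [nor_iff_map] at hA hM ⊢
  intro g hg
  rw [Subgroup.map_commutator, hA g hg, hM g hg]

private theorem comm_le_left {K A M : Subgroup G} (hA : Nor K A) (hM : M ≤ K) : ⁅A, M⁆ ≤ A := by
  rw [Subgroup.commutator_le]
  intro a ha m hm
  have e : ⁅a, m⁆ = a * (m * a⁻¹ * m⁻¹) := by
    simp only [commutatorElement_def]
    group
  rw [e]
  exact A.mul_mem ha (hA m (hM hm) _ (A.inv_mem ha))

private theorem comm_le_right {K A M : Subgroup G} (hM : Nor K M) (hA : A ≤ K) : ⁅A, M⁆ ≤ M := by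
  rw [Subgroup.commutator_comm]
  exact comm_le_left hM hA

/-- The modular step: if `M` contains `A ⊓ N` and is not below the maximal `N`, it contains `A`. -/
theorem sub_step {K A M N : Subgroup G} (hN : NM K N) (hA : A ≤ K) (hM : M ≤ K) (hnA : Nor K A)
    (hnM : Nor K M) (h : A ⊓ N ≤ M) (hMN : ¬ M ≤ N) : A ≤ M := by
  by_cases hAN : A ≤ N
  · exact (le_inf le_rfl hAN).trans h
  have hC : ¬ ⁅A, M⁆ ≤ N := by
    intro h1
    rcases hN.prime hA hM hnA hnM h1 with h2 | h2
    · exact hAN h2
    · exact hMN h2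
  have hCA : ⁅A, M⁆ ≤ A := comm_le_left hnA hM
  have hCM : ⁅A, M⁆ ≤ M := comm_le_right hnM hA
  have hCK : ⁅A, M⁆ ⊔ N = K := by
    rcases hN.max (⁅A, M⁆ ⊔ N) le_sup_right (sup_le (hCA.trans hA) hN.le)
      (nor_sup (nor_commutator hnA hnM) hN.nor) with h3 | h3
    · exact absurd (le_sup_left.trans h3.le) hC
    · exact h3
  intro a ha
  have haK : a ∈ ⁅A, M⁆ ⊔ N := by
    rw [hCK]
    exact hA ha
  obtain ⟨c, hc, n, hn, rfl⟩ := mem_sup_nor (hCA.trans hA) hN.nor haK
  have hnA' : n ∈ A := by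
    have := A.mul_mem (A.inv_mem (hCA hc)) ha
    simpa using this
  exact M.mul_mem (hCM hc) (h ⟨hnA', hn⟩)

private theorem nor_finset_inf {K : Subgroup G} (F : Finset (Subgroup G))
    (hF : ∀ N ∈ F, Nor K N) : Nor K (F.inf id) := by
  intro g hg n hn
  have h1 : ∀ N ∈ F, n ∈ N := fun N hN => Finset.inf_le (f := id) hN hn
  have h2 : ∀ N ∈ F, g * n * g⁻¹ ∈ N := fun N hN => hF N hN g hg n (h1 N hN)
  have h3 : Subgroup.zpowers (g * n * g⁻¹) ≤ F.inf id := by
    refine Finset.le_inf fun N hN => ?_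
    rw [Subgroup.zpowers_le]
    exact h2 N hN
  exact h3 (Subgroup.mem_zpowers _)

open Classical in
private theorem sub_prod' {K : Subgroup G} (F : Finset (Subgroup G)) (hF : ∀ N ∈ F, NM K N)
    (M : Subgroup G) (hM : M ≤ K) (hn : Nor K M) :
    ∀ A : Subgroup G, A ≤ K → Nor K A → A ⊓ F.inf id ≤ M →
      A ⊓ (F.filter fun N => M ≤ N).inf id ≤ M := by
  induction F using Finset.induction_on with
  | empty =>
    intro A _ _ h
    simpa using h
  | insert N F hNF ih =>
    intro A hA hnA h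
    have hN := hF N (Finset.mem_insert_self N F)
    have hF' : ∀ N ∈ F, NM K N := fun N' hN' => hF N' (Finset.mem_insert_of_mem hN')
    rw [Finset.inf_insert, id] at h
    by_cases hMN : M ≤ N
    · rw [Finset.filter_insert, if_pos hMN, Finset.inf_insert, id, ← inf_assoc]
      rw [← inf_assoc] at h
      exact ih hF' (A ⊓ N) (inf_le_left.trans hA) (nor_inf hnA hN.nor) h
    · rw [Finset.filter_insert, if_neg hMN]
      have h1 : A ⊓ F.inf id ≤ M := by
        refine sub_step hN (inf_le_left.trans hA) hM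
          (nor_inf hnA (nor_finset_inf F fun N' hN' => (hF' N' hN').nor)) hn ?_ hMN
        refine le_trans ?_ h
        refine le_inf (inf_le_left.trans inf_le_left) (le_inf inf_le_right ?_)
        exact inf_le_left.trans inf_le_right
      exact ih hF' A hA hnA h1

open Classical in
/-- A normal subgroup above a finite intersection of maximal normal subgroups with non-abelian
quotients is itself such an intersection. -/
theorem sub_prod {K : Subgroup G} (F : Finset (Subgroup G)) (hF : ∀ N ∈ F, NM K N)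
    (M : Subgroup G) (hM : M ≤ K) (hn : Nor K M) (h : K ⊓ F.inf id ≤ M) :
    K ⊓ (F.filter fun N => M ≤ N).inf id ≤ M :=
  sub_prod' F hF M hM hn K le_rfl (nor_self K) h

/-- Independence. -/
theorem indep {K : Subgroup G} (F : Finset (Subgroup G)) (hF : ∀ N ∈ F, NM K N)
    (N0 : Subgroup G) (h0 : NM K N0) (h : K ⊓ F.inf id ≤ N0) : N0 ∈ F := by
  classical
  by_contra hcon
  have h1 := sub_prod F hF N0 h0.le h0.nor h
  have h2 : (F.filter fun N => N0 ≤ N) = ∅ := by
    rw [Finset.filter_eq_empty_iff]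
    intro N hN hle
    have hNM := hF N hN
    rcases h0.max N hle hNM.le hNM.nor with h3 | h3
    · rw [h3] at hN
      exact hcon hN
    · apply hNM.nab
      rw [h3]
      exact Subgroup.commutator_le_self K
  rw [h2, Finset.inf_empty, inf_top_eq] at h1
  exact h0.nab ((Subgroup.commutator_le_self K).trans h1)

/-- The order of the product. -/
theorem two_pow_card_le [Finite G] {K : Subgroup G} (F : Finset (Subgroup G))
    (hF : ∀ N ∈ F, NM K N) : 2 ^ F.card ≤ (K ⊓ F.inf id).relIndex K := by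
  classical
  induction F using Finset.induction_on with
  | empty => simp
  | insert N F hNF ih =>
    have hN := hF N (Finset.mem_insert_self N F)
    have hF' : ∀ N ∈ F, NM K N := fun N' hN' => hF N' (Finset.mem_insert_of_mem hN')
    have ih' := ih hF'
    rw [Finset.card_insert_of_notMem hNF, Finset.inf_insert, id, pow_succ]
    have hle : K ⊓ (N ⊓ F.inf id) ≤ K ⊓ F.inf id :=
      le_inf inf_le_left (inf_le_right.trans inf_le_right)
    rw [← Subgroup.relIndex_mul_relIndex _ _ K hle inf_le_left, mul_comm]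
    refine Nat.mul_le_mul ?_ ih'
    have h0 : (K ⊓ (N ⊓ F.inf id)).relIndex (K ⊓ F.inf id) ≠ 0 := by
      rw [Subgroup.relIndex]
      exact Subgroup.index_ne_zero_of_finite
    have h1 : (K ⊓ (N ⊓ F.inf id)).relIndex (K ⊓ F.inf id) ≠ 1 := by
      intro h
      rw [Subgroup.relIndex_eq_one] at h
      apply hNF
      refine indep F hF' N hN ?_
      exact h.trans (inf_le_right.trans inf_le_left)
    omega

end Pool.Agent.Helper94.BC
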